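import Pool.Agent.H61.TT.Fib

set_option autoImplicit false

open Filter Topology Polynomial Metric Set MeasureTheory

namespace Pool.Agent.H61.TT

open Pool.Agent.H44.Fatou Pool.Agent.H32.BT Pool.Agent.H79.Eul Pool.Agent.H79.Par

variable {d : ℕ} {a b : Polynomial ℂ}

/-
PROOF of inj_cover. U = {b ≠ 0, ww ≠ 0} is open; at z ∈ U the function gg has a strict derivative dg z ≠ 0, so it
is injective on an open neighbourhood (HasStrictDerivAt.localInverse / toOpenPartialHomeomorph). Countably
many of these neighbourhoods cover U (TopologicalSpace.isOpen_iUnion_countable or countable_cover_nhdsWithin);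
disjointed gives the measurable pieces.
PROOF of area. Let G_k x = ∑ y ∈ fs a b x, (A k).indicator F y (at most one nonzero term, as gg is injective on A k). G_k is
measurable: G_k^(-1) B is gg '' (A k ∩ F^(-1) B), measurable (MeasurableSet.image_of_continuousOn_injOn), together
with (gg '' A k)ᶜ if 0 ∈ B. By lintegral_image_eq_lintegral_abs_det_fderiv_mul (real derivative of gg at y:
multiplication by dg y, determinant ‖dg y‖^2, see Complex / HasDerivAt.complexToReal_fderiv,
LinearMap.det of a complex multiplication: Complex.det_... or LinearMap.det_restrictScalars, Algebra.norm_complex)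
∫⁻_(A k ∩ pre T) F ‖dg‖^2 = ∫⁻_(gg '' (A k ∩ pre T)) G_k = ∫⁻_T G_k. Sum over k (lintegral_iUnion on the
left, lintegral_tsum on the right); ∑'_k G_k x = ∑ y ∈ fs a b x, F y if all the points of the fibre are in U, i.e. for all
but finitely many x (reg_finite). The points y ∉ U form a finite set (null).
PROOF of null_pre: area with F = 1 and T ⊇ N measurable null (toMeasurable): ∫⁻_(pre T) ‖dg‖^2 = 0, so dg = 0 a.e.
on pre T, but dg ≠ 0 off a finite set.
-/

theorem abs_det_smulRight (c : ℂ) :
    |((ContinuousLinearMap.smulRight (1 : ℂ →L[ℂ] ℂ) c).restrictScalars ℝ).det| = ‖c‖ ^ 2 := by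
  have h1 : ((ContinuousLinearMap.smulRight (1 : ℂ →L[ℂ] ℂ) c).restrictScalars ℝ).det =
      LinearMap.det (((ContinuousLinearMap.smulRight (1 : ℂ →L[ℂ] ℂ) c : ℂ →L[ℂ] ℂ) :
        ℂ →ₗ[ℂ] ℂ).restrictScalars ℝ) := rfl
  rw [h1, LinearMap.det_restrictScalars, Algebra.norm_complex_eq]
  show |Complex.normSq _| = _
  rw [Complex.normSq_eq_norm_sq, abs_of_nonneg (by positivity)]
  congr 2
  simp

theorem hasStrictDerivAt_gg {z : ℂ} (hz : b.eval z ≠ 0) :
    HasStrictDerivAt (gg a b) (dg a b z) z := by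
  have h := (a.hasStrictDerivAt z).div (b.hasStrictDerivAt z) hz
  have e : dg a b z = ((derivative a).eval z * b.eval z - a.eval z * (derivative b).eval z) /
      b.eval z ^ 2 := by
    simp [dg, ww]
  rw [e]
  exact h

theorem isOpen_U : IsOpen {y : ℂ | b.eval y ≠ 0 ∧ (ww a b).eval y ≠ 0} :=
  (isOpen_ne_fun b.continuous continuous_const).inter
    (isOpen_ne_fun (ww a b).continuous continuous_const)

theorem measurable_gg : Measurable (gg a b) :=
  (a.continuous.measurable).div (b.continuous.measurable)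

theorem measurable_dg : Measurable (dg a b) :=
  ((ww a b).continuous.measurable).div ((b.continuous.measurable).pow_const 2)

theorem measurableSet_pre {T : Set ℂ} (hT : MeasurableSet T) : MeasurableSet (pre a b T) :=
  (isOpen_ne_fun b.continuous continuous_const).measurableSet.inter (measurable_gg hT)

theorem inj_cover (h : RatD d a b) : ∃ A : ℕ → Set ℂ, (∀ k, MeasurableSet (A k)) ∧
    Pairwise (fun i j => Disjoint (A i) (A j)) ∧ (∀ k, InjOn (gg a b) (A k)) ∧
    ⋃ k, A k = {y | b.eval y ≠ 0 ∧ (ww a b).eval y ≠ 0} := by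
  have hloc : ∀ z ∈ {y : ℂ | b.eval y ≠ 0 ∧ (ww a b).eval y ≠ 0},
      ∃ V : Set ℂ, IsOpen V ∧ z ∈ V ∧ InjOn (gg a b) V := by
    intro z hz
    have h0 : dg a b z ≠ 0 := div_ne_zero hz.2 (pow_ne_zero 2 hz.1)
    have h1 := (hasStrictDerivAt_gg (a := a) (b := b) hz.1).hasStrictFDerivAt_equiv h0
    exact ⟨(h1.toOpenPartialHomeomorph (gg a b)).source,
      (h1.toOpenPartialHomeomorph (gg a b)).open_source,
      h1.mem_toOpenPartialHomeomorph_source,
      (h1.toOpenPartialHomeomorph (gg a b)).injOn⟩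
  choose! V hV using hloc
  obtain ⟨t, htU, htc, hcov⟩ := TopologicalSpace.countable_cover_nhdsWithin (f := V)
    (s := {y : ℂ | b.eval y ≠ 0 ∧ (ww a b).eval y ≠ 0})
    (fun x hx => mem_nhdsWithin_of_mem_nhds ((hV x hx).1.mem_nhds (hV x hx).2.1))
  rcases t.eq_empty_or_nonempty with rfl | hne
  · refine ⟨fun _ => ∅, fun _ => MeasurableSet.empty, fun i j _ => disjoint_bot_left,
      fun _ => injOn_empty _, ?_⟩
    rw [iUnion_empty]
    symm
    rw [← subset_empty_iff]
    refine hcov.trans ?_
    simp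
  · obtain ⟨e, he⟩ := htc.exists_eq_range hne
    have hem : ∀ k, e k ∈ {y : ℂ | b.eval y ≠ 0 ∧ (ww a b).eval y ≠ 0} := by
      intro k
      apply htU
      rw [he]
      exact mem_range_self k
    refine ⟨disjointed (fun j => V (e j) ∩ {y : ℂ | b.eval y ≠ 0 ∧ (ww a b).eval y ≠ 0}),
      ?_, ?_, ?_, ?_⟩
    · exact MeasurableSet.disjointed (fun j => ((hV _ (hem j)).1.inter isOpen_U).measurableSet)
    · exact disjoint_disjointed _
    · intro k
      refine InjOn.mono ?_ (hV _ (hem k)).2.2
      exact (disjointed_subset _ k).trans inter_subset_left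
    · rw [iUnion_disjointed, ← iUnion_inter]
      apply inter_eq_self_of_subset_right
      intro x hx
      obtain ⟨y, hy, hxy⟩ := mem_iUnion₂.1 (hcov hx)
      rw [he] at hy
      obtain ⟨k, rfl⟩ := hy
      exact mem_iUnion.2 ⟨k, hxy⟩

theorem sum_ind_gg (h : RatD d a b) {A : Set ℂ} (hinj : InjOn (gg a b) A)
    (hsub : A ⊆ {y | b.eval y ≠ 0 ∧ (ww a b).eval y ≠ 0}) (F : ℂ → ENNReal) {y : ℂ} (hy : y ∈ A) :
    ∑ y' ∈ fs a b (gg a b y), A.indicator F y' = F y := by
  rw [Finset.sum_eq_single y]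
  · exact indicator_of_mem hy F
  · intro y' hy' hne
    by_contra h0
    have h1 : y' ∈ A := mem_of_indicator_ne_zero h0
    exact hne (hinj h1 hy ((mem_fs h _ _).1 hy').2)
  · intro hn
    exact absurd ((mem_fs h _ _).2 ⟨(hsub hy).1, rfl⟩) hn

theorem sum_ind_zero (h : RatD d a b) {A : Set ℂ} (F : ℂ → ENNReal) {x : ℂ}
    (hx : x ∉ gg a b '' A) : ∑ y ∈ fs a b x, A.indicator F y = 0 := by
  refine Finset.sum_eq_zero fun y hy => ?_
  apply indicator_of_notMem
  intro hyA
  exact hx ⟨y, hyA, ((mem_fs h _ _).1 hy).2⟩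

theorem area_piece (h : RatD d a b) {A T : Set ℂ} (hA : MeasurableSet A) (hT : MeasurableSet T)
    (hinj : InjOn (gg a b) A) (hsub : A ⊆ {y | b.eval y ≠ 0 ∧ (ww a b).eval y ≠ 0})
    {F : ℂ → ENNReal} (hF : Measurable F) :
    (Measurable fun x => ∑ y ∈ fs a b x, A.indicator F y) ∧
      ∫⁻ x in T, ∑ y ∈ fs a b x, A.indicator F y =
        ∫⁻ y in A ∩ pre a b T, F y * ENNReal.ofReal (‖dg a b y‖ ^ 2) := by
  have hcont : ContinuousOn (gg a b) A := fun y hy =>
    (hasStrictDerivAt_gg (hsub hy).1).hasDerivAt.continuousAt.continuousWithinAt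
  have hemb : MeasurableEmbedding (A.domRestrict (gg a b)) :=
    ContinuousOn.measurableEmbedding hA hcont hinj
  have hG : (fun x => ∑ y ∈ fs a b x, A.indicator F y) =
      Function.extend (A.domRestrict (gg a b)) (fun y : A => F y) (fun _ => 0) := by
    funext x
    by_cases hx : x ∈ gg a b '' A
    · obtain ⟨y, hy, rfl⟩ := hx
      rw [sum_ind_gg h hinj hsub F hy]
      have h1 := hemb.injective.extend_apply (fun y : A => F y) (fun _ => 0) ⟨y, hy⟩
      exact h1.symm
    · rw [sum_ind_zero h F hx, Function.extend_apply']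
      rintro ⟨⟨y, hy⟩, h1⟩
      exact hx ⟨y, hy, h1⟩
  have hGm : Measurable (fun x => ∑ y ∈ fs a b x, A.indicator F y) := by
    rw [hG]
    exact hemb.measurable_extend (hF.comp measurable_subtype_coe) measurable_const
  refine ⟨hGm, ?_⟩
  have hima : MeasurableSet (gg a b '' A) := hA.image_of_continuousOn_injOn hcont hinj
  have e1 : (fun x => ∑ y ∈ fs a b x, A.indicator F y) =
      (gg a b '' A).indicator (fun x => ∑ y ∈ fs a b x, A.indicator F y) := by
    funext x
    by_cases hx : x ∈ gg a b '' A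
    · rw [indicator_of_mem hx]
    · rw [indicator_of_notMem hx, sum_ind_zero h F hx]
  have e2 : gg a b '' A ∩ T = gg a b '' (A ∩ pre a b T) := by
    ext x
    constructor
    · rintro ⟨⟨y, hy, rfl⟩, hT'⟩
      exact ⟨y, ⟨hy, (hsub hy).1, hT'⟩, rfl⟩
    · rintro ⟨y, ⟨hy, -, hT'⟩, rfl⟩
      exact ⟨⟨y, hy, rfl⟩, hT'⟩
  rw [e1, setLIntegral_indicator hima, e2,
    lintegral_image_eq_lintegral_abs_det_fderiv_mul volume (hA.inter (measurableSet_pre hT))
      (f' := fun y => (ContinuousLinearMap.smulRight (1 : ℂ →L[ℂ] ℂ) (dg a b y)).restrictScalars ℝ)]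
  · refine setLIntegral_congr_fun (hA.inter (measurableSet_pre hT)) ?_
    intro y hy
    beta_reduce
    rw [abs_det_smulRight, sum_ind_gg h hinj hsub F hy.1, mul_comm]
  · intro y hy
    exact ((hasStrictDerivAt_gg (hsub hy.1).1).hasDerivAt.hasFDerivAt.restrictScalars
      ℝ).hasFDerivWithinAt
  · exact hinj.mono inter_subset_left

theorem finite_ww (h : RatD d a b) : {y : ℂ | (ww a b).eval y = 0}.Finite := by
  refine ((ww a b).roots.toFinset.finite_toSet).subset ?_
  intro y hy
  rw [Finset.mem_coe, Multiset.mem_toFinset, mem_roots (ww_ne h)]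
  exact hy

theorem ae_ww (h : RatD d a b) : ∀ᵐ y : ℂ, (ww a b).eval y ≠ 0 := by
  rw [ae_iff]
  simp only [not_not]
  exact (finite_ww h).measure_zero volume

theorem area (h : RatD d a b) {T : Set ℂ} (hT : MeasurableSet T) {F : ℂ → ENNReal}
    (hF : Measurable F) :
    ∫⁻ x in T, ∑ y ∈ fs a b x, F y = ∫⁻ y in pre a b T, F y * ENNReal.ofReal (‖dg a b y‖ ^ 2) := by
  obtain ⟨A, hA, hdis, hinj, hU⟩ := inj_cover h
  have hsub : ∀ k, A k ⊆ {y | b.eval y ≠ 0 ∧ (ww a b).eval y ≠ 0} := by
    intro k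
    rw [← hU]
    exact subset_iUnion A k
  have hp := fun k => area_piece h (hA k) hT (hinj k) (hsub k) hF
  have h1 : ∀ᵐ x : ℂ, ∑ y ∈ fs a b x, F y = ∑' k, ∑ y ∈ fs a b x, (A k).indicator F y := by
    have hfin : ∀ᵐ x : ℂ, RegV d a b x := (reg_finite h).measure_zero volume
    filter_upwards [hfin] with x hx
    have h2 : ∀ y ∈ fs a b x, F y = ∑' k, (A k).indicator F y := by
      intro y hy
      have h3 : y ∈ ⋃ k, A k := by
        rw [hU]
        exact ⟨hx.hb y hy, hx.hw y hy⟩
      obtain ⟨k, hk⟩ := mem_iUnion.1 h3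
      rw [tsum_eq_single k]
      · exact (indicator_of_mem hk F).symm
      · intro j hj
        apply indicator_of_notMem
        intro hyj
        exact (Set.disjoint_left.1 (hdis hj)) hyj hk
    rw [Finset.sum_congr rfl h2]
    exact (Summable.tsum_finsetSum (fun y _ => ENNReal.summable)).symm
  have h2 : ∫⁻ x in T, ∑ y ∈ fs a b x, F y =
      ∑' k, ∫⁻ y in A k ∩ pre a b T, F y * ENNReal.ofReal (‖dg a b y‖ ^ 2) := by
    rw [lintegral_congr_ae (ae_restrict_of_ae h1), lintegral_tsum]
    · exact tsum_congr fun k => (hp k).2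
    · exact fun k => (hp k).1.aemeasurable
  have h3 : (pre a b T : Set ℂ) =ᵐ[volume] ⋃ k, (A k ∩ pre a b T) := by
    rw [← iUnion_inter, hU]
    have hfin := ae_ww h
    filter_upwards [hfin] with y hy
    apply propext
    constructor
    · intro hy2
      exact ⟨⟨hy2.1, hy⟩, hy2⟩
    · intro hy2
      exact hy2.2
  rw [h2, setLIntegral_congr h3, lintegral_iUnion]
  · exact fun k => (hA k).inter (measurableSet_pre hT)
  · intro i j hij
    exact (hdis hij).mono inter_subset_left inter_subset_left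

theorem null_pre (h : RatD d a b) {N : Set ℂ} (hN : volume N = 0) : volume (pre a b N) = 0 := by
  have h1 := area h (measurableSet_toMeasurable volume N) (F := fun _ => 1) measurable_const
  have h2 : ∫⁻ x in toMeasurable volume N, ∑ y ∈ fs a b x, (1 : ENNReal) = 0 := by
    apply setLIntegral_measure_zero
    rw [measure_toMeasurable, hN]
  rw [h2] at h1
  have h3 := h1.symm
  rw [lintegral_eq_zero_iff] at h3
  · have h4 : ∀ᵐ y : ℂ, y ∉ pre a b (toMeasurable volume N) := by
      rw [EventuallyEq, ae_restrict_iff' (measurableSet_pre (measurableSet_toMeasurable _ _))]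
        at h3
      have hfin := ae_ww h
      filter_upwards [h3, hfin] with y hy hw hyp
      have h5 := hy hyp
      simp only [one_mul, Pi.zero_apply, ENNReal.ofReal_eq_zero] at h5
      have h6 : 0 < ‖dg a b y‖ ^ 2 := by
        have h7 : dg a b y ≠ 0 := div_ne_zero hw (pow_ne_zero 2 hyp.1)
        positivity
      linarith
    refine measure_mono_null ?_ h4
    intro y hy hn
    exact hn ⟨hy.1, subset_toMeasurable volume N hy.2⟩
  · exact measurable_const.mul ((measurable_dg.norm.pow_const 2).ennreal_ofReal)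

end Pool.Agent.H61.TT
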