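import Pool.Agent.H61.TT.Defs

set_option autoImplicit false

open Filter Topology Polynomial Metric Set MeasureTheory

namespace Pool.Agent.H61.TT

open Pool.Agent.H44.Fatou Pool.Agent.H32.BT Pool.Agent.H79.Eul Pool.Agent.H79.Par

/-
PROOFS.
ww_ne: if a' b = a b' then b divides a b', so (coprime) b divides b', so b' = 0 (degree), b constant;
in the same way a divides a' b, so a is constant, and the maximum of the degrees is 0.
fib_ne: a = x b would give that b divides a and b, so b is a unit, constant, and a = x b too.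
mem_fs: y is a root of a - x b iff a y = x b y; if b y = 0 then a y = 0, impossible (coprime: u a + v b = 1).
hasDerivAt_gg: quotient rule, (ww a b).eval = a' b - a b' .
reg_finite: fib a b x has degree < d for at most one x (coefficient d: a_d - x b_d, not both 0); if
deg = d then card < d means a multiple root y: fib y = fib' y = 0, and ww a b = fib' b - fib b' (as
polynomials) so ww y = 0 and x = gg y: finitely many x. hb from mem_fs. Same argument for hw: if ww y = 0
for a y in the fibre then x = gg y with y a root of ww. (card (roots) = natDegree over C: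
IsAlgClosed.card_roots_eq..., splits; roots.Nodup iff ... ; or count roots directly.)
pre_finite: union over x in F of fs a b x.
-/

variable {d : ℕ} {a b : Polynomial ℂ}

namespace FibAux

theorem dvd_deriv {p : Polynomial ℂ} (h : p ∣ derivative p) : p.natDegree = 0 := by
  by_contra hn
  have h0 : derivative p ≠ 0 := by
    intro h1
    exact hn (derivative_eq_zero.1 h1)
  have h1 := natDegree_le_of_dvd h h0
  have h2 := natDegree_derivative_lt hn
  omega

theorem not_both {a b : Polynomial ℂ} {d : ℕ} (h : RatD d a b) (z : ℂ) (ha : a.eval z = 0)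
    (hb : b.eval z = 0) : False := by
  obtain ⟨u, v, huv⟩ := h.cop
  have := congrArg (fun p => p.eval z) huv
  simp [ha, hb] at this

theorem natDeg_unit {p : Polynomial ℂ} (h : IsUnit p) : p.natDegree = 0 :=
  natDegree_eq_zero_of_isUnit h

end FibAux

open FibAux

theorem ww_ne (h : RatD d a b) : ww a b ≠ 0 := by
  intro h0
  have h1 : derivative a * b = a * derivative b := sub_eq_zero.1 h0
  have hb : b ∣ derivative b := by
    have : b ∣ a * derivative b := ⟨derivative a, by rw [← h1, mul_comm]⟩
    exact h.cop.symm.dvd_of_dvd_mul_left this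
  have ha : a ∣ derivative a := by
    have : a ∣ derivative a * b := ⟨derivative b, h1⟩
    exact h.cop.dvd_of_dvd_mul_right this
  have h2 := dvd_deriv ha
  have h3 := dvd_deriv hb
  have h4 := h.deg
  have h5 := h.hd
  rw [h2, h3, max_self] at h4
  omega

theorem fib_ne (h : RatD d a b) (x : ℂ) : fib a b x ≠ 0 := by
  intro h0
  have h1 : a = C x * b := sub_eq_zero.1 h0
  have h2 : IsUnit b := by
    have hd : b ∣ a := ⟨C x, by rw [h1, mul_comm]⟩
    exact h.cop.isUnit_of_dvd' hd dvd_rfl
  have h3 := natDeg_unit h2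
  have h4 : a.natDegree = 0 := by
    have := natDegree_C_mul_le x b
    rw [← h1, h3] at this
    omega
  have h5 := h.deg
  have h6 := h.hd
  rw [h3, h4, max_self] at h5
  omega

theorem mem_fs (h : RatD d a b) (x y : ℂ) : y ∈ fs a b x ↔ b.eval y ≠ 0 ∧ gg a b y = x := by
  unfold fs
  rw [Multiset.mem_toFinset, mem_roots (fib_ne h x), IsRoot.def]
  unfold fib gg
  rw [eval_sub, eval_mul, eval_C, sub_eq_zero]
  constructor
  · intro h1
    have hb : b.eval y ≠ 0 := by
      intro hb
      rw [hb, mul_zero] at h1
      exact not_both h y h1 hb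
    exact ⟨hb, (div_eq_iff hb).2 h1⟩
  · rintro ⟨hb, h1⟩
    exact (div_eq_iff hb).1 h1

theorem b_ne (h : RatD d a b) : b ≠ 0 := by
  rintro rfl
  have h1 := natDeg_unit (isCoprime_zero_right.1 h.cop)
  have h2 := h.deg
  have h3 := h.hd
  rw [h1, natDegree_zero, max_self] at h2
  omega

theorem hasDerivAt_gg {z : ℂ} (hz : b.eval z ≠ 0) : HasDerivAt (gg a b) (dg a b z) z := by
  have := (a.hasDerivAt z).div (b.hasDerivAt z) hz
  unfold dg ww
  rw [eval_sub, eval_mul, eval_mul]
  exact this

theorem dg_ne {z : ℂ} (hz : b.eval z ≠ 0) : dg a b z ≠ 0 ↔ (ww a b).eval z ≠ 0 := by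
  unfold dg
  rw [div_ne_zero_iff]
  exact ⟨fun h => h.1, fun h => ⟨h, pow_ne_zero 2 hz⟩⟩

theorem differentiableAt_dg {z : ℂ} (hz : b.eval z ≠ 0) : DifferentiableAt ℂ (dg a b) z := by
  have h1 : DifferentiableAt ℂ (fun z => (ww a b).eval z) z := (ww a b).differentiableAt
  have h2 : DifferentiableAt ℂ (fun z => b.eval z ^ 2) z := b.differentiableAt.pow 2
  exact h1.div h2 (pow_ne_zero 2 hz)

/-- at a regular value the derivative at the points `y` of the fibre is `fib' y / b y` -/
theorem dg_fib (h : RatD d a b) {x y : ℂ} (hy : y ∈ fs a b x) :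
    dg a b y = (derivative (fib a b x)).eval y / b.eval y := by
  obtain ⟨hb, hx⟩ := (mem_fs h x y).1 hy
  have ha : a.eval y = x * b.eval y := (div_eq_iff hb).1 hx
  unfold dg ww fib
  rw [derivative_sub, derivative_C_mul, eval_sub, eval_mul, eval_mul, eval_sub, eval_mul, eval_C,
    ha]
  field_simp

theorem reg_finite (h : RatD d a b) : {x | ¬ RegV d a b x}.Finite := by
  have hA : a.natDegree ≤ d := h.deg ▸ le_max_left _ _
  have hB : b.natDegree ≤ d := h.deg ▸ le_max_right _ _
  have f1 : ({a.coeff d / b.coeff d} : Set ℂ).Finite := finite_singleton _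
  have f2 : (gg a b '' {y | (ww a b).eval y = 0}).Finite := by
    apply Set.Finite.image
    exact finite_setOfPred_isRoot (ww_ne h)
  refine (f1.union f2).subset ?_
  intro x hx
  by_contra hcon
  rw [mem_union, not_or] at hcon
  obtain ⟨hc1, hc2⟩ := hcon
  apply hx
  have hcoef : (fib a b x).coeff d ≠ 0 := by
    unfold fib
    rw [coeff_sub, coeff_C_mul]
    intro h0
    have h1 : a.coeff d = x * b.coeff d := sub_eq_zero.1 h0
    by_cases hb : b.coeff d = 0
    · have ha : a.coeff d = 0 := by rw [h1, hb, mul_zero]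
      have hd := h.hd
      rcases max_choice a.natDegree b.natDegree with h2 | h2
      · rw [h.deg] at h2
        have h3 : a.leadingCoeff = 0 := by rw [leadingCoeff, ← h2]; exact ha
        rw [leadingCoeff_eq_zero] at h3
        rw [h3, natDegree_zero] at h2
        omega
      · rw [h.deg] at h2
        have h3 : b.leadingCoeff = 0 := by rw [leadingCoeff, ← h2]; exact hb
        exact b_ne h (leadingCoeff_eq_zero.1 h3)
    · apply hc1
      rw [mem_singleton_iff, eq_div_iff hb]
      exact h1.symm
  have hdeg : (fib a b x).natDegree = d := by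
    apply le_antisymm
    · unfold fib
      exact (natDegree_sub_le _ _).trans (max_le hA ((natDegree_C_mul_le _ _).trans hB))
    · exact le_natDegree_of_ne_zero hcoef
  have hw : ∀ y ∈ fs a b x, (ww a b).eval y ≠ 0 := by
    intro y hy h0
    exact hc2 ⟨y, h0, ((mem_fs h x y).1 hy).2⟩
  have hb : ∀ y ∈ fs a b x, b.eval y ≠ 0 := fun y hy => ((mem_fs h x y).1 hy).1
  refine ⟨hdeg, ?_, hb, hw⟩
  have hsep : (fib a b x).Separable := by
    unfold Separable
    rw [isCoprime_iff_aeval_ne_zero_of_isAlgClosed ℂ ℂ]
    intro y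
    rw [coe_aeval_eq_eval]
    by_contra hcon
    push Not at hcon
    have hy : y ∈ fs a b x := by
      unfold fs
      rw [Multiset.mem_toFinset, mem_roots (fib_ne h x)]
      exact hcon.1
    have h1 := dg_fib h hy
    have hcon2 : (derivative (fib a b x)).eval y = 0 := hcon.2
    rw [hcon2, zero_div] at h1
    exact (dg_ne (hb y hy)).2 (hw y hy) h1
  unfold fs
  rw [Multiset.toFinset_card_of_nodup (nodup_roots hsep), ← hdeg]
  exact (IsAlgClosed.splits (fib a b x)).natDegree_eq_card_roots.symm

theorem pre_finite (h : RatD d a b) {F : Set ℂ} (hF : F.Finite) : (pre a b F).Finite := by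
  have h1 : pre a b F ⊆ ⋃ x ∈ F, (fs a b x : Set ℂ) := by
    rintro y ⟨hb, hy⟩
    rw [mem_iUnion₂]
    exact ⟨gg a b y, hy, (mem_fs h _ y).2 ⟨hb, rfl⟩⟩
  exact (hF.biUnion fun x _ => (fs a b x).finite_toSet).subset h1

end Pool.Agent.H61.TT
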