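import Pool.Agent.H61.TT.Fib

set_option autoImplicit false

open Filter Topology Polynomial Metric Set MeasureTheory

namespace Pool.Agent.H61.TT

open Pool.Agent.H44.Fatou Pool.Agent.H32.BT Pool.Agent.H79.Eul Pool.Agent.H79.Par

/-
PROOF of surj. u a + v b = 1. Case natDegree b = d. r = (η u) % b, A = η v + a * (η u / b), B = -r. Then
A b - a B = η v b + a (b (η u / b) + r) = η v b + a η u = η. natDegree B < d or r = 0; A b = η + a B
has degree ≤ 2 d, b has degree d, so A has degree ≤ d. Case natDegree a = d: symmetric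
(r = (η v) % a, A = r, B = -(η u + b (η v / a))).
xi_surj: for v = (cf d A, cf d B): ev_cf, ev v0.1 = (pol v0.1).eval (ev_eq_pol below).
-/

theorem surj_half {d : ℕ} {a b : Polynomial ℂ} (hd : 2 ≤ d) (hcop : IsCoprime a b)
    (ha : a.natDegree ≤ d) (hb : b.natDegree = d) {η : Polynomial ℂ} (hη : η.natDegree ≤ 2 * d) :
    ∃ A B : Polynomial ℂ, A.natDegree ≤ d ∧ B.natDegree ≤ d ∧ A * b - a * B = η := by
  obtain ⟨u, v, huv⟩ := hcop
  have hb0 : b ≠ 0 := by
    rintro rfl
    rw [natDegree_zero] at hb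
    omega
  have hdm : b * (η * u / b) + η * u % b = η * u := EuclideanDomain.div_add_mod _ _
  have hr : (η * u % b).natDegree ≤ d := by
    have h1 := natDegree_mod_lt (η * u) (q := b) (by omega)
    omega
  have e : (η * v + a * (η * u / b)) * b - a * (-(η * u % b)) = η := by
    have e1 : (η * v + a * (η * u / b)) * b - a * (-(η * u % b)) =
        η * v * b + a * (b * (η * u / b) + η * u % b) := by ring
    rw [e1, hdm]
    linear_combination η * huv
  refine ⟨η * v + a * (η * u / b), -(η * u % b), ?_, ?_, e⟩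
  · set A := η * v + a * (η * u / b) with hA
    by_cases hA0 : A = 0
    · rw [hA0, natDegree_zero]
      omega
    · have e2 : A * b = η + a * (-(η * u % b)) := by linear_combination e
      have h1 : (A * b).natDegree = A.natDegree + b.natDegree := natDegree_mul hA0 hb0
      have h2 : (A * b).natDegree ≤ 2 * d := by
        rw [e2]
        refine (natDegree_add_le _ _).trans (max_le hη ?_)
        refine natDegree_mul_le.trans ?_
        rw [natDegree_neg]
        omega
      omega
  · rw [natDegree_neg]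
    exact hr

theorem surj {d : ℕ} {a b : Polynomial ℂ} (h : RatD d a b) {η : Polynomial ℂ}
    (hη : η.natDegree ≤ 2 * d) :
    ∃ A B : Polynomial ℂ, A.natDegree ≤ d ∧ B.natDegree ≤ d ∧ A * b - a * B = η := by
  obtain ⟨hd, hcop, hdeg⟩ := h
  have ha : a.natDegree ≤ d := by rw [← hdeg]; exact le_max_left _ _
  have hb : b.natDegree ≤ d := by rw [← hdeg]; exact le_max_right _ _
  rcases max_choice a.natDegree b.natDegree with h1 | h1
  · rw [hdeg] at h1
    obtain ⟨A, B, hA, hB, e⟩ := surj_half hd hcop.symm hb h1.symm (η := -η)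
      (by rw [natDegree_neg]; exact hη)
    refine ⟨B, A, hB, hA, ?_⟩
    linear_combination -e
  · rw [hdeg] at h1
    exact surj_half hd hcop ha h1.symm hη

theorem ev_pol {d : ℕ} (v : Fin (d + 1) → ℂ) (z : ℂ) : ev v z = (pol v).eval z :=
  (pol_eval v z).symm

theorem wv_pol {d : ℕ} (v0 : E d) (z : ℂ) : wv v0 z = (ww (pol v0.1) (pol v0.2)).eval z := by
  unfold wv ww
  rw [eval_sub, eval_mul, eval_mul, pol_deriv_eval, pol_deriv_eval, pol_eval, pol_eval]

theorem xi_surj {d : ℕ} {v0 : E d} (h : RatD d (pol v0.1) (pol v0.2)) {η : Polynomial ℂ}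
    (hη : η.natDegree ≤ 2 * d) :
    ∃ v : E d, ∀ z : ℂ, xi v0 v z = η.eval z / (pol v0.2).eval z ^ 2 := by
  obtain ⟨A, B, hA, hB, e⟩ := surj h hη
  refine ⟨(cf d A, cf d B), fun z => ?_⟩
  unfold xi
  rw [ev_cf hA, ev_cf hB, ev_pol, ev_pol, ← e, eval_sub, eval_mul, eval_mul]

end Pool.Agent.H61.TT
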