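import Pool.Agent.H79.Par.XX

/-!
# Transversality for geometrically finite maps: definitions

`gg a b = a / b`, `dg a b` its derivative, `fib a b x = a - x b`, `fs a b x` the fibre over `x`.
`LL` is a linear functional `V ↦ ∑ (A V' + B V)(p)` on germs of functions along the points `p`.
`qf` is a quadratic differential with poles of order at most two on `S`.
-/

set_option autoImplicit false

open Filter Topology Polynomial Metric Set MeasureTheory

namespace Pool.Agent.H61.TT

open Pool.Agent.H44.Fatou Pool.Agent.H32.BT Pool.Agent.H79.Eul Pool.Agent.H79.Par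

/-- the rational function `a / b` in the finite chart -/
noncomputable def gg (a b : Polynomial ℂ) (z : ℂ) : ℂ := a.eval z / b.eval z

/-- the numerator of the derivative -/
noncomputable def ww (a b : Polynomial ℂ) : Polynomial ℂ := derivative a * b - a * derivative b

/-- the derivative of `a / b` -/
noncomputable def dg (a b : Polynomial ℂ) (z : ℂ) : ℂ := (ww a b).eval z / b.eval z ^ 2

/-- the polynomial whose roots form the fibre over `x` -/
noncomputable def fib (a b : Polynomial ℂ) (x : ℂ) : Polynomial ℂ := a - C x * b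

/-- the fibre over `x` -/
noncomputable def fs (a b : Polynomial ℂ) (x : ℂ) : Finset ℂ := (fib a b x).roots.toFinset

/-- standing assumptions: `a / b` is a rational map of degree `d ≥ 2` -/
structure RatD (d : ℕ) (a b : Polynomial ℂ) : Prop where
  hd : 2 ≤ d
  cop : IsCoprime a b
  deg : max a.natDegree b.natDegree = d

/-- regular values: the fibre consists of `d` finite noncritical points -/
structure RegV (d : ℕ) (a b : Polynomial ℂ) (x : ℂ) : Prop where
  deg : (fib a b x).natDegree = d
  card : (fs a b x).card = d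
  hb : ∀ y ∈ fs a b x, b.eval y ≠ 0
  hw : ∀ y ∈ fs a b x, (ww a b).eval y ≠ 0

/-- a linear functional on germs of functions along the points `p i`, `i ∈ I` -/
noncomputable def LL (I : Finset ℕ) (p A B : ℕ → ℂ) (V : ℂ → ℂ) : ℂ :=
  ∑ i ∈ I, (A i * deriv V (p i) + B i * V (p i))

/-- the functional vanishes on `V ∘ g - g' V` -/
def Inv (a b : Polynomial ℂ) (I : Finset ℕ) (p A B : ℕ → ℂ) : Prop :=
  ∀ V : ℂ → ℂ, (∀ i ∈ I, DifferentiableAt ℂ V (p i) ∧ DifferentiableAt ℂ V (gg a b (p i))) →
    LL I p A B (fun z => V (gg a b z)) = LL I p A B (fun z => dg a b z * V z)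

/-- a quadratic differential with poles of order at most two on `S` -/
noncomputable def qf (S : Finset ℂ) (α β : ℂ → ℂ) (z : ℂ) : ℂ :=
  ∑ s ∈ S, (α s / (z - s) ^ 2 + β s / (z - s))

/-- the quadratic differential is fixed by the push forward and integrable at infinity; its poles
form a forward invariant set -/
structure QD (a b : Polynomial ℂ) (S : Finset ℂ) (α β : ℂ → ℂ) : Prop where
  inv : ∀ s ∈ S, b.eval s ≠ 0 ∧ gg a b s ∈ S
  push : {x | ¬ (qf S α β x = ∑ y ∈ fs a b x, qf S α β y / dg a b y ^ 2)}.Finite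
  s1 : ∑ s ∈ S, β s = 0
  s2 : ∑ s ∈ S, (α s + s * β s) = 0

/-- the plane without small discs around the points of `S` -/
def Cut (S : Finset ℂ) (K : ℂ → ℝ) (k : ℕ) : Set ℂ := (⋃ s ∈ S, ball s (K s / (k + 1)))ᶜ

/-- the preimage of `T` in the finite chart -/
def pre (a b : Polynomial ℂ) (T : Set ℂ) : Set ℂ := {y | b.eval y ≠ 0 ∧ gg a b y ∈ T}

/-- `XV V n z = ∑_(j<n) (g^(n-1-j))'(g^(j+1) z) V (g^j z)` -/
noncomputable def XV {d : ℕ} (v0 : E d) (V : ℂ → ℂ) : ℕ → ℂ → ℂ
  | 0, _ => 0
  | n + 1, z => V (it v0 n z) + wv v0 (it v0 n z) / ev v0.2 (it v0 n z) ^ 2 * XV v0 V n z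

end Pool.Agent.H61.TT
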