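import Pool.Agent.H61.TT.KFun

set_option autoImplicit false

open Filter Topology Polynomial Metric Set MeasureTheory

namespace Pool.Agent.H61.TT

open Pool.Agent.H44.Fatou Pool.Agent.H32.BT Pool.Agent.H79.Eul Pool.Agent.H79.Par

/-
PROOF. Suppose y j = x i, j ≤ m, i < k + n. it m (y j) = y j (Orb, y m = y 0: iterate the rotation), and some iterate
of x i is x k: so z = x k satisfies it m z = z, it n z = z and trD m z = trD m (y 0) (trD_rot, repeatedly). Then
trD (m n) z = (trD m z)^n = (trD n z)^m, norms ≤ 1 and > 1: contradiction.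
-/

theorem disj_it_add {d : ℕ} (v0 : E d) (p i : ℕ) (z : ℂ) :
    it v0 (p + i) z = it v0 i (it v0 p z) := by
  induction i with
  | zero => rfl
  | succ i ih => rw [← add_assoc, it_succ, it_succ, ih]

theorem disj_trD_add {d : ℕ} (v0 : E d) (p q : ℕ) (z : ℂ) :
    trD v0 (p + q) z = trD v0 q (it v0 p z) * trD v0 p z := by
  induction q with
  | zero => simp [trD]
  | succ q ih =>
    rw [← add_assoc, trD_succ, trD_succ, disj_it_add, ih]
    ring

theorem disj_it_mul {d : ℕ} (v0 : E d) {p : ℕ} {z : ℂ} (h : it v0 p z = z) (q : ℕ) :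
    it v0 (p * q) z = z := by
  induction q with
  | zero => rfl
  | succ q ih => rw [Nat.mul_succ, disj_it_add, ih, h]

theorem disj_trD_pow {d : ℕ} (v0 : E d) {p : ℕ} {z : ℂ} (h : it v0 p z = z) (q : ℕ) :
    trD v0 (p * q) z = trD v0 p z ^ q := by
  induction q with
  | zero => simp [trD]
  | succ q ih =>
    rw [Nat.mul_succ, disj_trD_add, disj_it_mul v0 h, ih, pow_succ]
    ring

theorem disj_step {d : ℕ} (v0 : E d) {m : ℕ} (hm : 0 < m) {s w : ℂ} (hs : it v0 m s = s)
    (hw : trD v0 m s = w) : it v0 m (gg (pol v0.1) (pol v0.2) s) = gg (pol v0.1) (pol v0.2) s ∧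
      trD v0 m (gg (pol v0.1) (pol v0.2) s) = w := by
  constructor
  · rw [← it_front, it_succ, hs]
  · rw [trD_rot v0 hm hs, hw]

theorem disj {d : ℕ} {v0 : E d} {x y : ℕ → ℂ} {k n m : ℕ} (hn : 0 < n) (hm : 0 < m)
    (ho : Orb v0 x (k + n)) (hx : x (k + n) = x k) (hrep : 1 < ‖trD v0 n (x k)‖)
    (hy : Orb v0 y m) (hym : y m = y 0) (hmul : ‖trD v0 m (y 0)‖ ≤ 1) :
    ∀ j ≤ m, y j ∉ (Finset.range (k + n)).image x := by
  intro j hj hmem
  obtain ⟨i, hi, hxi⟩ := Finset.mem_image.1 hmem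
  have hi' : i < k + n := Finset.mem_range.1 hi
  have h0 : it v0 m (y 0) = y 0 := by rw [orb_it hy le_rfl, hym]
  have h1 : ∀ j ≤ m, it v0 m (y j) = y j ∧ trD v0 m (y j) = trD v0 m (y 0) := by
    intro j
    induction j with
    | zero => exact fun _ => ⟨h0, rfl⟩
    | succ j ih =>
      intro hj
      obtain ⟨e1, e2⟩ := ih (by omega)
      have h2 := disj_step v0 hm e1 e2
      rw [(orb_gg hy (by omega)).2] at h2
      exact h2
  have h2 : ∀ l : ℕ, i + l ≤ k + n → it v0 m (x (i + l)) = x (i + l) ∧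
      trD v0 m (x (i + l)) = trD v0 m (y 0) := by
    intro l
    induction l with
    | zero =>
      intro _
      rw [add_zero, hxi]
      exact h1 j hj
    | succ l ih =>
      intro hl
      obtain ⟨e1, e2⟩ := ih (by omega)
      have h2 := disj_step v0 hm e1 e2
      rw [(orb_gg ho (by omega)).2] at h2
      exact h2
  have h3 := h2 (k + n - i) (by omega)
  have h4 : i + (k + n - i) = k + n := by omega
  rw [h4, hx] at h3
  obtain ⟨e1, e2⟩ := h3
  have ho' : Orb v0 (fun j => x (k + j)) n := by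
    intro j hj
    have h5 := ho (k + j) (by omega)
    rw [add_assoc] at h5
    exact h5
  have e3 : it v0 n (x k) = x k := by
    have h5 := orb_it ho' (le_refl n)
    simp only [add_zero, hx] at h5
    exact h5
  have h6 := disj_trD_pow v0 e1 n
  have h7 := disj_trD_pow v0 e3 m
  rw [mul_comm n m, h6, e2] at h7
  have h8 : ‖trD v0 m (y 0) ^ n‖ ≤ 1 := by
    rw [norm_pow]
    exact pow_le_one₀ (norm_nonneg _) hmul
  have h9 : 1 < ‖trD v0 n (x k) ^ m‖ := by
    rw [norm_pow]
    exact one_lt_pow₀ hrep hm.ne'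
  rw [h7] at h8
  exact absurd h8 (not_le.2 h9)

end Pool.Agent.H61.TT
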