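import Pool.Agent.H61.TT.Area

set_option autoImplicit false

open Filter Topology Polynomial Metric Set MeasureTheory

namespace Pool.Agent.H61.TT

open Pool.Agent.H44.Fatou Pool.Agent.H32.BT Pool.Agent.H79.Eul Pool.Agent.H79.Par

variable {d : ℕ} {a b : Polynomial ℂ}

/-
PROOF of sum_norm_eq: with s = ∑ c y: ‖s‖^2 = re (∑ c y conj s) = ∑ re (c y conj s) ≤ ∑ ‖c y‖ ‖s‖ = ‖s‖^2, so
re (c y conj s) = ‖c y‖ ‖s‖ = ‖c y conj s‖ for each y, so the imaginary part is 0.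
PROOF of equal_ae. A x = ∑_(y ∈ fs x) ‖q y / dg y ^ 2‖ₑ, B x = ‖q x‖ₑ, B ≤ A a.e. (hpush, norm of a sum). By area with
F y = ‖q y / dg y ^ 2‖ₑ (F y * ‖dg y‖^2 = ‖q y‖ₑ if dg y ≠ 0, i.e. off a finite set; on pre):
∫⁻_(T K) A = ∫⁻_(pre (T K)) ‖q‖ₑ ≤ ∫⁻_(T K) ‖q‖ₑ + ∫⁻_(pre (T K) \ T K) ‖q‖ₑ. So for k ≤ K
∫⁻_(T k) (A - B) ≤ ∫⁻_(T K) (A - B) = ∫⁻_(T K) A - ∫⁻_(T K) B ≤ ε_K → 0 (lintegral_sub, hfin), so A = B a.e. on T k, all k,
and the T k cover everything but S (null). So ‖∑ c y‖ = ∑ ‖c y‖ for a.e. x and sum_norm_eq applies.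
A is measurable? Only a.e.: use that A x is the sum of area_piece functions off a finite set, or avoid
measurability of A by lintegral_sub with B measurable (lintegral_sub needs only B measurable).
equal_all_y: by null_pre the statement holds for a.e. y.
-/

theorem sum_norm_eq {ι : Type*} {J : Finset ι} {c : ι → ℂ} (h : ‖∑ j ∈ J, c j‖ = ∑ j ∈ J, ‖c j‖) :
    ∀ j ∈ J, (c j * (starRingEnd ℂ) (∑ j ∈ J, c j)).im = 0 := by
  set s := ∑ j ∈ J, c j with hs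
  have h1 : ∀ j ∈ J, (c j * (starRingEnd ℂ) s).re ≤ ‖c j‖ * ‖s‖ := by
    intro j _
    calc (c j * (starRingEnd ℂ) s).re ≤ ‖c j * (starRingEnd ℂ) s‖ := Complex.re_le_norm _
      _ = ‖c j‖ * ‖s‖ := by rw [norm_mul, RCLike.norm_conj]
  have h2 : ∑ j ∈ J, (c j * (starRingEnd ℂ) s).re = ∑ j ∈ J, ‖c j‖ * ‖s‖ := by
    rw [← Finset.sum_mul, ← h, ← Complex.re_sum, ← Finset.sum_mul, ← hs, Complex.mul_conj,
      Complex.ofReal_re, Complex.normSq_eq_norm_sq]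
    ring
  have h3 := (Finset.sum_eq_sum_iff_of_le h1).1 h2
  intro j hj
  have h4 := h3 j hj
  have h5 : ‖c j * (starRingEnd ℂ) s‖ = (c j * (starRingEnd ℂ) s).re := by
    rw [norm_mul, RCLike.norm_conj, h4]
  have h6 := Complex.sq_norm (c j * (starRingEnd ℂ) s)
  rw [Complex.normSq_apply, h5] at h6
  have h7 : (c j * (starRingEnd ℂ) s).im * (c j * (starRingEnd ℂ) s).im = 0 := by nlinarith
  exact mul_self_eq_zero.1 h7

private theorem fs_sum_aem (h : RatD d a b) {F : ℂ → ENNReal} (hF : Measurable F) :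
    AEMeasurable (fun x : ℂ => ∑ y ∈ fs a b x, F y) volume := by
  classical
  obtain ⟨A, hAm, hAd, hAi, hAc⟩ := inj_cover h
  have hm : ∀ k, Measurable (fun x => ∑ y ∈ fs a b x, (A k).indicator F y) := by
    intro k
    refine (area_piece h (hAm k) MeasurableSet.univ (hAi k) ?_ hF).1
    rw [← hAc]
    exact subset_iUnion A k
  refine ⟨fun x => ∑' k, ∑ y ∈ fs a b x, (A k).indicator F y,
    Measurable.ennreal_tsum hm, ?_⟩
  have hfin : ∀ᵐ x : ℂ, RegV d a b x := by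
    rw [ae_iff]
    exact (reg_finite h).measure_zero _
  filter_upwards [hfin] with x hx
  rw [Summable.tsum_finsetSum (fun _ _ => ENNReal.summable)]
  apply Finset.sum_congr rfl
  intro y hy
  have hy1 : y ∈ ⋃ k, A k := by
    rw [hAc]
    exact ⟨hx.hb y hy, hx.hw y hy⟩
  obtain ⟨k, hk⟩ := mem_iUnion.1 hy1
  rw [tsum_eq_single k]
  · rw [indicator_of_mem hk]
  · intro j hj
    rw [indicator_of_notMem]
    intro hyj
    exact (Set.disjoint_left.1 (hAd hj)) hyj hk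

theorem equal_ae (h : RatD d a b) {q : ℂ → ℂ} {S : Finset ℂ} (hqm : Measurable q)
    (hpush : {x | ¬ (q x = ∑ y ∈ fs a b x, q y / dg a b y ^ 2)}.Finite) {T : ℕ → Set ℂ}
    (hTm : ∀ k, MeasurableSet (T k)) (hTmono : Monotone T) (hTcov : ∀ z ∉ S, ∃ k, z ∈ T k)
    (hfin : ∀ k, ∫⁻ z in T k, ‖q z‖ₑ ≠ ⊤)
    (hsm : Tendsto (fun k => ∫⁻ y in pre a b (T k) \ T k, ‖q y‖ₑ) atTop (𝓝 0)) :
    ∀ᵐ x : ℂ, ∀ y ∈ fs a b x, (q y / dg a b y ^ 2 * (starRingEnd ℂ) (q x)).im = 0 := by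
  have hdm : Measurable (dg a b) := by
    unfold dg
    exact (ww a b).continuous.measurable.div (b.continuous.measurable.pow_const 2)
  set F : ℂ → ENNReal := fun y => ‖q y / dg a b y ^ 2‖ₑ with hFdef
  have hF : Measurable F := (hqm.div (hdm.pow_const 2)).enorm
  set A : ℂ → ENNReal := fun x => ∑ y ∈ fs a b x, F y with hA
  set B : ℂ → ENNReal := fun x => ‖q x‖ₑ with hB
  have hAm : AEMeasurable A volume := fs_sum_aem h hF
  have hBm : Measurable B := hqm.enorm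
  have hp : ∀ᵐ x : ℂ, q x = ∑ y ∈ fs a b x, q y / dg a b y ^ 2 := by
    rw [ae_iff]
    exact hpush.measure_zero _
  have hBA : ∀ᵐ x : ℂ, B x ≤ A x := by
    filter_upwards [hp] with x hx
    show ‖q x‖ₑ ≤ ∑ y ∈ fs a b x, ‖q y / dg a b y ^ 2‖ₑ
    rw [hx]
    exact enorm_sum_le _ _
  have hFle : ∀ y, F y * ENNReal.ofReal (‖dg a b y‖ ^ 2) ≤ ‖q y‖ₑ := by
    intro y
    by_cases hy : dg a b y = 0
    · rw [hy]; simp
    · rw [hFdef]
      simp only
      rw [← ofReal_norm, ← ofReal_norm, ← ENNReal.ofReal_mul (norm_nonneg _)]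
      apply ENNReal.ofReal_le_ofReal
      rw [norm_div, norm_pow]
      have : ‖dg a b y‖ ≠ 0 := norm_ne_zero_iff.2 hy
      apply le_of_eq
      field_simp
  have hkey : ∀ K, ∫⁻ x in T K, A x ≤ (∫⁻ x in T K, B x) + ∫⁻ y in pre a b (T K) \ T K, ‖q y‖ₑ := by
    intro K
    calc ∫⁻ x in T K, A x = ∫⁻ y in pre a b (T K), F y * ENNReal.ofReal (‖dg a b y‖ ^ 2) :=
          area h (hTm K) hF
      _ ≤ ∫⁻ y in pre a b (T K), ‖q y‖ₑ := lintegral_mono hFle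
      _ ≤ ∫⁻ y in T K ∪ (pre a b (T K) \ T K), ‖q y‖ₑ := by
          apply lintegral_mono_set
          rw [Set.union_sdiff_self]
          exact subset_union_right
      _ ≤ _ := lintegral_union_le _ _ _
  have hzero : ∀ k, ∫⁻ x in T k, (A x - B x) = 0 := by
    intro k
    have h1 : ∀ K, k ≤ K → ∫⁻ x in T k, (A x - B x) ≤ ∫⁻ y in pre a b (T K) \ T K, ‖q y‖ₑ := by
      intro K hK
      calc ∫⁻ x in T k, (A x - B x) ≤ ∫⁻ x in T K, (A x - B x) := lintegral_mono_set (hTmono hK)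
        _ = (∫⁻ x in T K, A x) - ∫⁻ x in T K, B x :=
            lintegral_sub hBm (hfin K) (ae_restrict_of_ae hBA)
        _ ≤ _ := tsub_le_iff_left.2 (hkey K)
    have h2 : ∫⁻ x in T k, (A x - B x) ≤ 0 := by
      apply ge_of_tendsto hsm
      filter_upwards [eventually_ge_atTop k] with K hK
      exact h1 K hK
    exact le_antisymm h2 bot_le
  have hae : ∀ᵐ x : ℂ, ∀ k, x ∈ T k → A x - B x = 0 := by
    rw [ae_all_iff]
    intro k
    have h1 : AEMeasurable (fun x => A x - B x) (volume.restrict (T k)) :=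
      (hAm.restrict).sub hBm.aemeasurable
    have h2 := (lintegral_eq_zero_iff' h1).1 (hzero k)
    exact (ae_restrict_iff' (hTm k)).1 h2
  have hS : ∀ᵐ x : ℂ, x ∉ S := by
    rw [ae_iff]
    simp only [not_not]
    exact S.finite_toSet.measure_zero _
  filter_upwards [hp, hae, hS] with x hx1 hx2 hx3
  obtain ⟨k, hk⟩ := hTcov x hx3
  have h1 : A x ≤ B x := tsub_eq_zero_iff_le.1 (hx2 k hk)
  have h2 : ‖∑ y ∈ fs a b x, q y / dg a b y ^ 2‖ = ∑ y ∈ fs a b x, ‖q y / dg a b y ^ 2‖ := by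
    apply le_antisymm (norm_sum_le _ _)
    have h3 : ∑ y ∈ fs a b x, ‖q y / dg a b y ^ 2‖ₑ ≤ ‖q x‖ₑ := h1
    rw [hx1] at h3
    simp only [← ofReal_norm] at h3
    rw [← ENNReal.ofReal_sum_of_nonneg (fun _ _ => norm_nonneg _),
      ENNReal.ofReal_le_ofReal_iff (norm_nonneg _)] at h3
    exact h3
  have h4 := sum_norm_eq h2
  rw [← hx1] at h4
  exact h4

theorem equal_y (h : RatD d a b) {q : ℂ → ℂ}
    (he : ∀ᵐ x : ℂ, ∀ y ∈ fs a b x, (q y / dg a b y ^ 2 * (starRingEnd ℂ) (q x)).im = 0) :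
    ∀ᵐ y : ℂ, b.eval y ≠ 0 → (q y / dg a b y ^ 2 * (starRingEnd ℂ) (q (gg a b y))).im = 0 := by
  rw [ae_iff] at he
  have h1 := null_pre h he
  rw [ae_iff]
  refine measure_mono_null ?_ h1
  intro y hy
  rw [Set.mem_ofPred_eq, Classical.not_imp] at hy
  refine ⟨hy.1, fun h2 => hy.2 ?_⟩
  exact h2 y ((mem_fs h _ _).2 ⟨hy.1, rfl⟩)

end Pool.Agent.H61.TT
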