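import Pool.Agent.H61.TT.Push

set_option autoImplicit false

open Filter Topology Polynomial Metric Set MeasureTheory

namespace Pool.Agent.H61.TT

open Pool.Agent.H44.Fatou Pool.Agent.H32.BT Pool.Agent.H79.Eul Pool.Agent.H79.Par

/-
PROOF. Group the indices by the value of p (Finset.sum_fiberwise_of_maps_to): for s in S
α s = ∑_(i ∈ I, p i = s) A i * dg (p i), β s = ∑_(i ∈ I, p i = s) (A i * dg'(p i) + B i * dg (p i)); these are
al, be below. All the indices i with p i ∉ S have zero coefficients (hS). Then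
qf S α β x = LL (fun z => dg z / (x - z)) for x not among the p i (q_eq), and all the points of a fibre over x
with gg (p i) ≠ x for all i are such. So push holds for x regular, x ≠ p i, x ≠ gg (p i): all but finitely
many x (reg_finite). s1, s2: q_sum1, q_sum2.
-/

noncomputable def al (a b : Polynomial ℂ) (I : Finset ℕ) (p A : ℕ → ℂ) (s : ℂ) : ℂ :=
  ∑ i ∈ I.filter (fun i => p i = s), A i * dg a b (p i)

noncomputable def be (a b : Polynomial ℂ) (I : Finset ℕ) (p A B : ℕ → ℂ) (s : ℂ) : ℂ :=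
  ∑ i ∈ I.filter (fun i => p i = s), (A i * deriv (dg a b) (p i) + B i * dg a b (p i))

open Classical in
theorem group_sum (I : Finset ℕ) (S : Finset ℂ) (p : ℕ → ℂ) (f : ℕ → ℂ) (u : ℂ → ℂ)
    (h : ∀ i ∈ I, p i ∉ S → f i = 0) :
    ∑ s ∈ S, (∑ i ∈ I.filter (fun i => p i = s), f i) * u s = ∑ i ∈ I, f i * u (p i) := by
  have h1 : ∀ s ∈ S, (∑ i ∈ I.filter (fun i => p i = s), f i) * u s =
      ∑ i ∈ I.filter (fun i => p i = s), f i * u (p i) := by
    intro s _
    rw [Finset.sum_mul]
    refine Finset.sum_congr rfl fun i hi => ?_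
    rw [(Finset.mem_filter.1 hi).2]
  rw [Finset.sum_congr rfl h1, Finset.sum_fiberwise_eq_sum_filter]
  refine Finset.sum_subset (Finset.filter_subset _ _) fun i hi hn => ?_
  rw [Finset.mem_filter, not_and] at hn
  rw [h i hi (hn hi), zero_mul]

theorem data {d : ℕ} {a b : Polynomial ℂ} {I : Finset ℕ} {p A B : ℕ → ℂ} (h : RatD d a b)
    (hb : ∀ i ∈ I, b.eval (p i) ≠ 0) (hinv : Inv a b I p A B)
    (hη : ∀ η : Polynomial ℂ, η.natDegree ≤ 2 * d →
      LL I p A B (fun z => η.eval z / b.eval z ^ 2) = 0) (S : Finset ℂ)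
    (hS : ∀ s ∈ S, b.eval s ≠ 0 ∧ gg a b s ∈ S)
    (hpS : ∀ i ∈ I, p i ∉ S → A i * dg a b (p i) = 0 ∧
      A i * deriv (dg a b) (p i) + B i * dg a b (p i) = 0) :
    QD a b S (al a b I p A) (be a b I p A B) := by
  have g1 : ∀ u : ℂ → ℂ, ∑ s ∈ S, al a b I p A s * u s = ∑ i ∈ I, A i * dg a b (p i) * u (p i) := by
    intro u
    exact group_sum I S p _ u (fun i hi hn => (hpS i hi hn).1)
  have g2 : ∀ u : ℂ → ℂ, ∑ s ∈ S, be a b I p A B s * u s =
      ∑ i ∈ I, (A i * deriv (dg a b) (p i) + B i * dg a b (p i)) * u (p i) := by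
    intro u
    exact group_sum I S p _ u (fun i hi hn => (hpS i hi hn).2)
  have hq : ∀ x, (∀ i ∈ I, p i ≠ x) → qf S (al a b I p A) (be a b I p A B) x =
      LL I p A B (fun z => dg a b z / (x - z)) := by
    intro x hx
    rw [q_eq hb hx]
    unfold qf
    rw [Finset.sum_add_distrib, Finset.sum_add_distrib]
    congr 1
    · have := g1 (fun s => ((x - s) ^ 2)⁻¹)
      simpa only [div_eq_mul_inv] using this
    · have := g2 (fun s => (x - s)⁻¹)
      simpa only [div_eq_mul_inv] using this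
  refine ⟨hS, ?_, ?_, ?_⟩
  · have f1 := reg_finite h
    have f2 : (p '' (I : Set ℕ)).Finite := I.finite_toSet.image _
    have f3 : ((fun i => gg a b (p i)) '' (I : Set ℕ)).Finite := I.finite_toSet.image _
    refine ((f1.union f2).union f3).subset ?_
    intro x hx
    by_contra hcon
    rw [mem_union, mem_union, not_or, not_or] at hcon
    obtain ⟨⟨c1, c2⟩, c3⟩ := hcon
    apply hx
    have hreg : RegV d a b x := not_not.1 c1
    have hx1 : ∀ i ∈ I, p i ≠ x := fun i hi he => c2 ⟨i, hi, he⟩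
    have hx2 : ∀ i ∈ I, gg a b (p i) ≠ x := fun i hi he => c3 ⟨i, hi, he⟩
    rw [hq x hx1, push_q h hb hinv hη hreg hx1 hx2]
    refine Finset.sum_congr rfl fun y hy => ?_
    rw [hq y]
    intro i hi he
    exact hx2 i hi (he ▸ ((mem_fs h x y).1 hy).2)
  · have := g2 (fun _ => 1)
    simp only [mul_one] at this
    rw [this]
    exact q_sum1 h hb hinv hη
  · have e1 := g1 (fun _ => 1)
    have e2 := g2 (fun s => s)
    simp only [mul_one] at e1
    rw [Finset.sum_add_distrib, e1]
    have e3 : ∑ s ∈ S, s * be a b I p A B s = ∑ s ∈ S, be a b I p A B s * s :=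
      Finset.sum_congr rfl fun s _ => mul_comm _ _
    rw [e3, e2, ← Finset.sum_add_distrib]
    rw [← q_sum2 h hb hinv hη]
    refine Finset.sum_congr rfl fun i _ => ?_
    ring

end Pool.Agent.H61.TT
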