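import Pool.Agent.H61.TT.CutA

set_option autoImplicit false

open Filter Topology Polynomial Metric Set MeasureTheory

namespace Pool.Agent.H61.TT

open Pool.Agent.H44.Fatou Pool.Agent.H32.BT Pool.Agent.H79.Eul Pool.Agent.H79.Par

variable {d : ℕ} {a b : Polynomial ℂ} {S : Finset ℂ} {α β : ℂ → ℂ}

/-
PROOF. K = 1, ρ = 1/(k+1). There are L ≥ 1, r > 0 with ‖g y - g s‖ ≤ L ‖y - s‖ for s ∈ S, ‖y - s‖ < r, and
‖qf y‖ ≤ c/‖y - s‖ (qf_near1). If y ∈ ball s ρ and ‖g y - g s‖ ≥ ρ then ‖y - s‖ ≥ ρ/L, ‖qf y‖ ≤ c L/ρ, and the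
volume of ball s ρ is π ρ^2, so by cut_sub the integral is ≤ card S * π c L ρ → 0.
-/

theorem cutB (hinv : ∀ s ∈ S, b.eval s ≠ 0 ∧ gg a b s ∈ S) (hα : ∀ s ∈ S, α s = 0) :
    Tendsto (fun k => ∫⁻ y in pre a b (Cut S (fun _ => 1) k) \ Cut S (fun _ => 1) k,
      ‖qf S α β y‖ₑ) atTop (𝓝 0) := by
  have hpiece : ∀ s ∈ S, Tendsto (fun k : ℕ => ∫⁻ y in {y | y ∈ ball s ((1 : ℝ) / (k + 1)) ∧
      b.eval y ≠ 0 ∧ (1 : ℝ) / (k + 1) ≤ ‖gg a b y - gg a b s‖}, ‖qf S α β y‖ₑ)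
      atTop (𝓝 0) := by
    intro s hs
    obtain ⟨M, r1, hM, hr1, h1⟩ := gg_second (a := a) (hinv s hs).1
    obtain ⟨c, r2, hc, hr2, h2⟩ := qf_near1 (β := β) hα hs
    set L := ‖dg a b s‖ + M * r1 + 1 with hL
    have hL0 : 1 ≤ L := by
      have : 0 ≤ ‖dg a b s‖ + M * r1 := by positivity
      linarith
    have hlim : Tendsto (fun k : ℕ => ENNReal.ofReal (c * L * Real.pi *
        ((1 : ℝ) / (k + 1)))) atTop (𝓝 0) := by
      have h5 := (tendsto_rho 1).const_mul (c * L * Real.pi)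
      rw [mul_zero] at h5
      have h7 := ENNReal.tendsto_ofReal h5
      rw [ENNReal.ofReal_zero] at h7
      exact h7
    refine tendsto_of_tendsto_of_tendsto_of_le_of_le' tendsto_const_nhds hlim
      (Eventually.of_forall (fun k => bot_le)) ?_
    have hev : ∀ᶠ k : ℕ in atTop, (1 : ℝ) / ((k : ℝ) + 1) < min r1 r2 :=
      (tendsto_rho 1).eventually (gt_mem_nhds (lt_min hr1 hr2))
    filter_upwards [hev] with k hk
    set ρ := (1 : ℝ) / ((k : ℝ) + 1) with hρ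
    have hρ0 : 0 < ρ := by positivity
    have hρ1 : ρ < r1 := hk.trans_le (min_le_left _ _)
    have hρ2 : ρ < r2 := hk.trans_le (min_le_right _ _)
    have hL0' : 0 < L := by linarith
    set ρ' := ρ / L with hρ'
    have hρ'0 : 0 < ρ' := by positivity
    have hρ'le : ρ' ≤ ρ := by
      rw [hρ', div_le_iff₀ hL0']
      nlinarith
    have hsub : {y | y ∈ ball s ρ ∧ b.eval y ≠ 0 ∧
        ρ ≤ ‖gg a b y - gg a b s‖} ⊆ ball s ρ \ ball s ρ' := by
      rintro y ⟨hy1, -, hy3⟩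
      refine ⟨hy1, fun hy4 => ?_⟩
      rw [mem_ball, dist_eq_norm] at hy1 hy4
      have h3 := h1 y (hy1.trans hρ1)
      have h4 : ‖dg a b s‖ * ‖y - s‖ + M * ‖y - s‖ ^ 2 ≤ L * ‖y - s‖ := by
        have h5 : M * ‖y - s‖ ^ 2 ≤ M * r1 * ‖y - s‖ := by
          have h6 : ‖y - s‖ * ‖y - s‖ ≤ r1 * ‖y - s‖ :=
            mul_le_mul_of_nonneg_right (hy1.trans hρ1).le (norm_nonneg _)
          nlinarith
        have h7 := norm_nonneg (y - s)
        rw [hL]
        linarith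
      have h5 : L * ‖y - s‖ < ρ := by
        rw [hρ', lt_div_iff₀ hL0'] at hy4
        linarith
      linarith
    have hbound : ∀ y ∈ ball s ρ \ ball s ρ', ‖qf S α β y‖ₑ ≤
        ENNReal.ofReal (c / ρ') := by
      rintro y ⟨hy1, hy2⟩
      rw [mem_ball, dist_eq_norm] at hy1 hy2
      rw [not_lt] at hy2
      have hne : y ≠ s := by
        rintro rfl
        rw [sub_self, norm_zero] at hy2
        linarith
      have h3 := h2 y hne (hy1.trans hρ2)
      rw [← ofReal_norm]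
      apply ENNReal.ofReal_le_ofReal
      refine h3.trans ?_
      gcongr
    calc ∫⁻ y in {y | y ∈ ball s ρ ∧ b.eval y ≠ 0 ∧
        ρ ≤ ‖gg a b y - gg a b s‖}, ‖qf S α β y‖ₑ
        ≤ ∫⁻ y in ball s ρ \ ball s ρ', ‖qf S α β y‖ₑ := lintegral_mono_set hsub
      _ ≤ ∫⁻ _ in ball s ρ \ ball s ρ', ENNReal.ofReal (c / ρ') :=
          setLIntegral_mono' (measurableSet_ball.diff measurableSet_ball) hbound
      _ = ENNReal.ofReal (c / ρ') * ENNReal.ofReal ((ρ ^ 2 - ρ' ^ 2) * Real.pi) := by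
          rw [setLIntegral_const, cut_ann s hρ'0.le hρ'le]
      _ ≤ ENNReal.ofReal (c * L * Real.pi * ρ) := by
          rw [← ENNReal.ofReal_mul (by positivity)]
          apply ENNReal.ofReal_le_ofReal
          have h3 : c / ρ' = c * L / ρ := by rw [hρ']; field_simp
          have h4 : (ρ ^ 2 - ρ' ^ 2) * Real.pi ≤ ρ ^ 2 * Real.pi := by
            have := sq_nonneg ρ'
            have := Real.pi_pos
            nlinarith
          calc c / ρ' * ((ρ ^ 2 - ρ' ^ 2) * Real.pi) ≤ c / ρ' * (ρ ^ 2 * Real.pi) :=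
                mul_le_mul_of_nonneg_left h4 (by positivity)
            _ = c * L * Real.pi * ρ := by rw [h3]; field_simp
  have hsum : Tendsto (fun k : ℕ => ∑ s ∈ S, ∫⁻ y in {y | y ∈ ball s ((1 : ℝ) / (k + 1)) ∧
      b.eval y ≠ 0 ∧ (1 : ℝ) / (k + 1) ≤ ‖gg a b y - gg a b s‖}, ‖qf S α β y‖ₑ)
      atTop (𝓝 0) := by
    have := tendsto_finsetSum S hpiece
    rwa [Finset.sum_const_zero] at this
  refine tendsto_of_tendsto_of_tendsto_of_le_of_le tendsto_const_nhds hsum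
    (fun k => bot_le) (fun k => ?_)
  exact (lintegral_mono_set (cut_sub hinv k)).trans (cut_union S _ _)

end Pool.Agent.H61.TT
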