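import Pool.Agent.H61.TT.QF

set_option autoImplicit false

open Filter Topology Polynomial Metric Set MeasureTheory

namespace Pool.Agent.H61.TT

open Pool.Agent.H44.Fatou Pool.Agent.H32.BT Pool.Agent.H79.Eul Pool.Agent.H79.Par

variable {S : Finset ℂ} {α β : ℂ → ℂ} {K : ℂ → ℝ}

/-
PROOFS. Cut S K k is the complement of finitely many open balls of radii K s / (k+1).
cut_fin: on Cut S K k the function qf is bounded on ‖z‖ ≤ R (each term: ‖z - s‖ ≥ K s/(k+1) > 0) and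
≤ c/‖z‖^3 for ‖z‖ ≥ R (qf_decay), so ‖qf z‖ ≤ c' (1 + ‖z‖)^(-3) on Cut, integrable
(integrable_one_add_norm, finrank = 2 < 3).
-/

theorem cut_meas (k : ℕ) : MeasurableSet (Cut S K k) := by
  unfold Cut
  exact (Finset.measurableSet_biUnion S fun s _ => measurableSet_ball).compl

theorem cut_mem {k : ℕ} {z : ℂ} : z ∈ Cut S K k ↔ ∀ s ∈ S, K s / (k + 1) ≤ dist z s := by
  unfold Cut
  rw [mem_compl_iff, mem_iUnion₂]
  push Not
  constructor
  · intro h s hs
    have := h s hs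
    rw [mem_ball] at this
    exact not_lt.1 this
  · intro h s hs
    rw [mem_ball]
    exact not_lt.2 (h s hs)

theorem cut_mono (hK : ∀ s ∈ S, 0 < K s) : Monotone (Cut S K) := by
  intro k k' hk z hz
  rw [cut_mem] at hz ⊢
  intro s hs
  refine le_trans ?_ (hz s hs)
  have h1 : (k : ℝ) + 1 ≤ (k' : ℝ) + 1 := by
    have : (k : ℝ) ≤ k' := by exact_mod_cast hk
    linarith
  exact div_le_div_of_nonneg_left (hK s hs).le (by positivity) h1

theorem cut_cover {z : ℂ} (hz : z ∉ S) : ∃ k, z ∈ Cut S K k := by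
  refine ⟨S.sup (fun s => ⌈|K s| / dist z s⌉₊), ?_⟩
  rw [cut_mem]
  intro s hs
  have hd : 0 < dist z s := by
    rw [dist_pos]
    rintro rfl
    exact hz hs
  have h1 : ⌈|K s| / dist z s⌉₊ ≤ S.sup (fun s => ⌈|K s| / dist z s⌉₊) :=
    Finset.le_sup (f := fun s => ⌈|K s| / dist z s⌉₊) hs
  have h2 : |K s| / dist z s ≤ ((S.sup (fun s => ⌈|K s| / dist z s⌉₊) : ℕ) : ℝ) :=
    (Nat.le_ceil _).trans (by exact_mod_cast h1)
  rw [div_le_iff₀ hd] at h2
  rw [div_le_iff₀ (by positivity)]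
  have h3 := le_abs_self (K s)
  nlinarith

theorem cut_fin (hK : ∀ s ∈ S, 0 < K s) (h1 : ∑ s ∈ S, β s = 0)
    (h2 : ∑ s ∈ S, (α s + s * β s) = 0) (k : ℕ) :
    ∫⁻ z in Cut S K k, ‖qf S α β z‖ₑ ≠ ⊤ := by
  obtain ⟨c, R, hc, hR, hdec⟩ := qf_decay h1 h2
  set M : ℝ := ∑ s ∈ S, (‖α s‖ / (K s / (k + 1)) ^ 2 + ‖β s‖ / (K s / (k + 1))) with hM
  have hr : ∀ s ∈ S, 0 < K s / ((k : ℝ) + 1) := fun s hs => div_pos (hK s hs) (by positivity)
  have hM0 : 0 ≤ M := Finset.sum_nonneg fun s hs => by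
    have := hr s hs
    positivity
  have hbd : ∀ z ∈ Cut S K k, ‖qf S α β z‖ ≤ M := by
    intro z hz
    rw [cut_mem] at hz
    unfold qf
    refine (norm_sum_le _ _).trans (Finset.sum_le_sum fun s hs => ?_)
    have hz2 := hz s hs
    rw [dist_eq_norm] at hz2
    have hr2 := hr s hs
    refine (norm_add_le _ _).trans (add_le_add ?_ ?_)
    · rw [norm_div, norm_pow]
      exact div_le_div_of_nonneg_left (norm_nonneg _) (by positivity)
        (pow_le_pow_left₀ hr2.le hz2 2)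
    · rw [norm_div]
      exact div_le_div_of_nonneg_left (norm_nonneg _) hr2 hz2
  set c' : ℝ := M * (1 + R) ^ 3 + 8 * c with hc'
  have hmain : ∀ z ∈ Cut S K k, ‖qf S α β z‖ ≤ c' * (1 + ‖z‖) ^ (-(3 : ℝ)) := by
    intro z hz
    have hp : (0 : ℝ) < 1 + ‖z‖ := by positivity
    have e1 : (1 + ‖z‖) ^ (-(3 : ℝ)) = ((1 + ‖z‖) ^ 3)⁻¹ := by
      rw [Real.rpow_neg hp.le]
      norm_cast
    rw [e1, ← div_eq_mul_inv, le_div_iff₀ (by positivity)]
    rcases lt_or_ge ‖z‖ R with h | h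
    · have h3 := hbd z hz
      have h4 : (1 + ‖z‖) ^ 3 ≤ (1 + R) ^ 3 := pow_le_pow_left₀ hp.le (by linarith) 3
      calc ‖qf S α β z‖ * (1 + ‖z‖) ^ 3 ≤ M * (1 + R) ^ 3 :=
            mul_le_mul h3 h4 (by positivity) hM0
        _ ≤ c' := by
            rw [hc']
            linarith
    · have h3 := hdec z h
      have hz0 : 0 < ‖z‖ := by linarith
      have h4 : (1 + ‖z‖) ^ 3 ≤ (2 * ‖z‖) ^ 3 := pow_le_pow_left₀ hp.le (by linarith) 3
      calc ‖qf S α β z‖ * (1 + ‖z‖) ^ 3 ≤ (c / ‖z‖ ^ 3) * (2 * ‖z‖) ^ 3 :=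
            mul_le_mul h3 h4 (by positivity) (by positivity)
        _ = 8 * c := by
            field_simp
            ring
        _ ≤ c' := by
            rw [hc']
            have : 0 ≤ M * (1 + R) ^ 3 := by positivity
            linarith
  have hfr : (Module.finrank ℝ ℂ : ℝ) < 3 := by
    rw [Complex.finrank_real_complex]
    norm_num
  have hint : Integrable (fun z : ℂ => c' * (1 + ‖z‖) ^ (-(3 : ℝ))) :=
    (integrable_one_add_norm hfr).const_mul c'
  refine ne_top_of_le_ne_top hint.lintegral_lt_top.ne ?_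
  refine (setLIntegral_mono' (cut_meas k) (g := fun z : ℂ =>
    ENNReal.ofReal (c' * (1 + ‖z‖) ^ (-(3 : ℝ)))) fun z hz => ?_).trans
    (setLIntegral_le_lintegral _ _)
  rw [← ofReal_norm]
  exact ENNReal.ofReal_le_ofReal (hmain z hz)

end Pool.Agent.H61.TT
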