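import Pool.Agent.H61.TT.Rigid
import Pool.Agent.H61.TT.CutFin
import Pool.Agent.H61.TT.CutB

set_option autoImplicit false

open Filter Topology Polynomial Metric Set MeasureTheory

namespace Pool.Agent.H61.TT

open Pool.Agent.H44.Fatou Pool.Agent.H32.BT Pool.Agent.H79.Eul Pool.Agent.H79.Par

variable {d : ℕ} {a b : Polynomial ℂ} {S : Finset ℂ} {α β : ℂ → ℂ}

/-
PROOF. Suppose β s ≠ 0 for some s ∈ S. Then qf has finitely many zeros (qf_zero) and rigid applies (T = Cut S 1, cutB):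
d q z = dg z ^ 2 q (gg z) for z ∉ S, b z ≠ 0, gg z ∉ S, q = qf S α β. Near y 0 iterate m times: with G = gg^[m],
d^m q z = (∏_(j<m) dg (gg^[j] z))^2 q (G z). Write q z = (z - y 0)^M u z, u analytic at y 0, u (y 0) ≠ 0
(AnalyticAt.exists_eventuallyEq_pow_smul_nonzero_iff: q is not eventually 0 since its zeros are finite). Divide by
(z - y 0)^M and let z → y 0: (G z - y 0)/(z - y 0) → λ = ∏ dg (y j), so d^m u(y 0) = λ^2 λ^M u (y 0), but
‖λ‖ ≤ 1 < d^m: contradiction.
-/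

theorem repel (h : RatD d a b) (hq : QD a b S α β) (hα : ∀ s ∈ S, α s = 0) {y : ℕ → ℂ} {m : ℕ}
    (hm : 0 < m) (hy : ∀ j < m, b.eval (y j) ≠ 0 ∧ gg a b (y j) = y (j + 1)) (hper : y m = y 0)
    (hyS : ∀ j ≤ m, y j ∉ S) (hmul : ‖∏ j ∈ Finset.range m, dg a b (y j)‖ ≤ 1) :
    ∀ s ∈ S, β s = 0 := by
  by_contra hcon
  have hne : ∃ s ∈ S, α s ≠ 0 ∨ β s ≠ 0 := by
    by_contra hno
    apply hcon
    intro s hs
    by_contra h1
    exact hno ⟨s, hs, Or.inr h1⟩
  have hzf := qf_zero hne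
  have hid := rigid h (q := qf S α β) (S := S) qf_meas (fun z hz => qf_diff hz) hzf
    hq.push cut_meas (cut_mono (K := fun _ => 1) fun _ _ => one_pos) (fun z hz => cut_cover hz)
    (cut_fin (fun _ _ => one_pos) hq.s1 hq.s2) (cutB hq.inv hα)
  have hScl : IsClosed ((S : Finset ℂ) : Set ℂ) := (Finset.finite_toSet S).isClosed
  have key : ∀ j ≤ m, (gg a b)^[j] (y 0) = y j ∧
      HasDerivAt ((gg a b)^[j]) (∏ i ∈ Finset.range j, dg a b (y i)) (y 0) ∧
      Tendsto (fun z => ∏ i ∈ Finset.range j, dg a b ((gg a b)^[i] z)) (𝓝 (y 0))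
        (𝓝 (∏ i ∈ Finset.range j, dg a b (y i))) ∧
      ∀ᶠ z in 𝓝 (y 0), (d : ℂ) ^ j * qf S α β z =
        (∏ i ∈ Finset.range j, dg a b ((gg a b)^[i] z)) ^ 2 * qf S α β ((gg a b)^[j] z) := by
    intro j
    induction j with
    | zero =>
      intro _
      refine ⟨rfl, ?_, ?_, ?_⟩
      · simpa using hasDerivAt_id (y 0)
      · simp
      · simp
    | succ j ih =>
      intro hj
      obtain ⟨h1, h2, h3, h4⟩ := ih (by omega)
      obtain ⟨hb, hg⟩ := hy j (by omega)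
      have hc : ContinuousAt ((gg a b)^[j]) (y 0) := h2.continuousAt
      have hct : Tendsto ((gg a b)^[j]) (𝓝 (y 0)) (𝓝 (y j)) := by
        rw [← h1]
        exact hc
      have hgj : HasDerivAt (gg a b) (dg a b (y j)) ((gg a b)^[j] (y 0)) := by
        rw [h1]
        exact hasDerivAt_gg hb
      have hdgt : Tendsto (fun z => dg a b ((gg a b)^[j] z)) (𝓝 (y 0)) (𝓝 (dg a b (y j))) :=
        ((differentiableAt_dg (a := a) hb).continuousAt.tendsto).comp hct
      refine ⟨?_, ?_, ?_, ?_⟩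
      · rw [Function.iterate_succ_apply', h1, hg]
      · rw [Finset.prod_range_succ, mul_comm, Function.iterate_succ']
        exact hgj.comp (y 0) h2
      · simp_rw [Finset.prod_range_succ]
        exact h3.mul hdgt
      · have e1 : ∀ᶠ w in 𝓝 (y j), w ∉ S := hScl.isOpen_compl.mem_nhds (hyS j (by omega))
        have e2 : ∀ᶠ w in 𝓝 (y j), b.eval w ≠ 0 := b.continuous.continuousAt.eventually_ne hb
        have e3 : ∀ᶠ w in 𝓝 (y j), gg a b w ∉ S := by
          have hcg : ContinuousAt (gg a b) (y j) := (hasDerivAt_gg hb).continuousAt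
          have hh : ∀ᶠ w in 𝓝 (gg a b (y j)), w ∉ S := by
            rw [hg]
            exact hScl.isOpen_compl.mem_nhds (hyS (j + 1) (by omega))
          exact hcg.tendsto.eventually hh
        filter_upwards [h4, hct.eventually (e1.and (e2.and e3))] with z hz hw
        obtain ⟨w1, w2, w3⟩ := hw
        have h5 := hid _ w1 w2 w3
        rw [Finset.prod_range_succ, Function.iterate_succ_apply', pow_succ]
        calc (d : ℂ) ^ j * d * qf S α β z = d * ((d : ℂ) ^ j * qf S α β z) := by ring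
          _ = (∏ i ∈ Finset.range j, dg a b ((gg a b)^[i] z)) ^ 2 *
              (d * qf S α β ((gg a b)^[j] z)) := by rw [hz]; ring
          _ = _ := by rw [h5]; ring
  obtain ⟨k1, k2, k3, k4⟩ := key m le_rfl
  obtain ⟨L, hL⟩ : ∃ L : ℂ, L = ∏ i ∈ Finset.range m, dg a b (y i) := ⟨_, rfl⟩
  rw [← hL] at k2 k3 hmul
  rw [hper] at k1
  have han : AnalyticAt ℂ (qf S α β) (y 0) := by
    have h1 : ∀ᶠ z in 𝓝 (y 0), DifferentiableAt ℂ (qf S α β) z := by
      filter_upwards [hScl.isOpen_compl.mem_nhds (hyS 0 (by omega))] with z hz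
      exact qf_diff hz
    exact Complex.analyticAt_iff_eventually_differentiableAt.2 h1
  have hn0 : ¬ ∀ᶠ z in 𝓝 (y 0), qf S α β z = 0 := fun h0 => infinite_of_mem_nhds (y 0) h0 hzf
  obtain ⟨M, u, hu, hu0, hqu⟩ := han.exists_eventuallyEq_pow_smul_nonzero_iff.2 hn0
  have hGt : Tendsto ((gg a b)^[m]) (𝓝 (y 0)) (𝓝 (y 0)) := by
    have := k2.continuousAt.tendsto
    rwa [k1] at this
  have hslope : Tendsto (fun z => ((gg a b)^[m] z - y 0) / (z - y 0)) (𝓝[≠] (y 0)) (𝓝 L) := by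
    have h1 := hasDerivAt_iff_tendsto_slope.1 k2
    refine h1.congr fun z => ?_
    rw [slope_def_field, k1]
  have hev : ∀ᶠ z in 𝓝[≠] (y 0), (d : ℂ) ^ m * u z =
      (∏ i ∈ Finset.range m, dg a b ((gg a b)^[i] z)) ^ 2 *
        ((((gg a b)^[m] z - y 0) / (z - y 0)) ^ M * u ((gg a b)^[m] z)) := by
    filter_upwards [(k4.and (hqu.and (hGt.eventually hqu))).filter_mono nhdsWithin_le_nhds,
      self_mem_nhdsWithin] with z hz hne'
    obtain ⟨z1, z2, z3⟩ := hz
    have hz0 : z - y 0 ≠ 0 := sub_ne_zero.2 hne'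
    rw [z2, z3, smul_eq_mul, smul_eq_mul] at z1
    rw [div_pow]
    field_simp
    linear_combination z1
  have hlim1 : Tendsto (fun z => (d : ℂ) ^ m * u z) (𝓝[≠] (y 0)) (𝓝 ((d : ℂ) ^ m * u (y 0))) :=
    (hu.continuousAt.tendsto.mono_left nhdsWithin_le_nhds).const_mul _
  have hlim2 := (((k3.mono_left nhdsWithin_le_nhds : Tendsto _ (𝓝[≠] (y 0)) _).pow 2).mul
    ((hslope.pow M).mul
      ((hu.continuousAt.tendsto.comp hGt).mono_left nhdsWithin_le_nhds : Tendsto _ (𝓝[≠] (y 0)) _)))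
  have heq : (d : ℂ) ^ m * u (y 0) = L ^ 2 * (L ^ M * u (y 0)) :=
    tendsto_nhds_unique hlim1 (hlim2.congr' (hev.mono fun z hz => hz.symm))
  have heq2 : (d : ℂ) ^ m = L ^ (M + 2) := by
    apply mul_right_cancel₀ hu0
    rw [heq]
    ring
  have heq3 : (d : ℝ) ^ m = ‖L‖ ^ (M + 2) := by
    rw [← norm_pow, ← heq2, norm_pow, Complex.norm_natCast]
  have h5 : ‖L‖ ^ (M + 2) ≤ 1 := pow_le_one₀ (norm_nonneg _) hmul
  have hd2 : (2 : ℝ) ≤ d := by exact_mod_cast h.hd
  have h6 : (1 : ℝ) < (d : ℝ) ^ m := one_lt_pow₀ (by linarith) (by omega)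
  linarith

end Pool.Agent.H61.TT
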