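import Pool.Agent.H61.TT.Disj
import Pool.Agent.H61.TT.Data
import Pool.Agent.H61.TT.Repel

set_option autoImplicit false

open Filter Topology Polynomial Metric Set MeasureTheory

namespace Pool.Agent.H61.TT

open Pool.Agent.H44.Fatou Pool.Agent.H32.BT Pool.Agent.H79.Eul Pool.Agent.H79.Par

/-
PROOF. Let λ = trD n (x k), δ = trD k (x 0) ≠ 0 (all dg (x j), j < k + n, are nonzero). Functional
L V = δ V c0 + XV V k (x 0) - XV V n (x k)/(1 - λ) = LL with I = range (k + n + 1), p 0 = c0, p (j+1) = x j, A = 0,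
B 0 = δ, B (j+1) = cc x k j for j < k, and -(∏_(i ∈ Ico (j+1) (k+n)) dg (x i))/(1 - λ) for k ≤ j < k + n (XV_val for x and for
the shifted orbit x (k + .)). (1) Inv: by XV_tele the difference L (V ∘ g) - L (g' V) is
δ (V (x 0) - dg c0 V c0) + (V (x k) - δ V (x 0)) - (V (x k) - λ V (x k))/(1 - λ) = 0, since dg c0 = 0. (2) If the
conclusion fails, L (η/b^2) = 0 for all η of degree ≤ 2 d (xi_surj, XX_eq). (3) data with S = image x (range (k+n)) (c0 may or may
not be in S: its coefficients vanish since dg c0 = 0), and repel (al = 0 as A = 0; y j ∉ S by disj):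
be s = 0 for all s in S. (4) So L (fun z => dg z * V z) = ∑_(s ∈ S) be s V s + (c0 term: δ dg c0 V c0 = 0) = 0 for all V; with V = 1,
by Inv, L 1 = L (dg * 1) = 0. That is no contradiction yet: use V = a polynomial W with W (x 0) = 1... precisely
L (V ∘ g) = L (g' V) = 0 for ALL V. Since be s = 0 for all s in S: group the indices j < k + n with x j = s: the sum of
the B (j+1) is be s / dg s = 0. Hence L U = ∑_(s ∈ S) 0 + δ U c0 = δ U c0 for all U (grouping the points of S), and
L (1 ∘ g) = δ = L (g' 1) = 0: contradiction with δ ≠ 0.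
-/

/-- the product of the derivatives along an orbit -/
theorem tt2_prod {d : ℕ} {v0 : E d} {y : ℕ → ℂ} {m : ℕ} (hy : Orb v0 y m) :
    ∀ j ≤ m, ∏ i ∈ Finset.range j, dg (pol v0.1) (pol v0.2) (y i) = trD v0 j (y 0) := by
  intro j
  induction j with
  | zero => intro _; simp [trD]
  | succ j ih =>
    intro hj
    rw [Finset.prod_range_succ, ih (by omega), trD_succ, orb_it hy (by omega : j ≤ m)]
    ring

theorem tt2 {d : ℕ} {v0 : E d} (hd : 2 ≤ d) (hcop : IsCoprime (pol v0.1) (pol v0.2))
    (hdeg : max (pol v0.1).natDegree (pol v0.2).natDegree = d) {c0 : ℂ} (hc : wv v0 c0 = 0)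
    (hc2 : ev v0.2 c0 ≠ 0) (x : ℕ → ℂ) {k n : ℕ} (hn : 0 < n)
    (hx0 : x 0 = ev v0.1 c0 / ev v0.2 c0) (ho : Orb v0 x (k + n)) (hx : x (k + n) = x k)
    (hne : trD v0 (k + n) (x 0) ≠ 0) (hrep : 1 < ‖trD v0 n (x k)‖) (y : ℕ → ℂ) {m : ℕ}
    (hm : 0 < m) (hy : Orb v0 y m) (hym : y m = y 0) (hmul : ‖trD v0 m (y 0)‖ ≤ 1) :
    ∃ v : E d, trD v0 k (x 0) * xi v0 v c0 + XX v0 v k (x 0) -
      XX v0 v n (x k) / (1 - trD v0 n (x k)) ≠ 0 := by
  by_contra hcon
  push Not at hcon
  have hR : RatD d (pol v0.1) (pol v0.2) := ⟨hd, hcop, hdeg⟩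
  set lam : ℂ := trD v0 n (x k) with hlam
  set del : ℂ := trD v0 k (x 0) with hdel
  have h1lam : (1 : ℂ) - lam ≠ 0 := by
    intro h
    have : lam = 1 := (sub_eq_zero.mp h).symm
    rw [this] at hrep
    simp at hrep
  have hdgx : ∀ j < k + n, dg (pol v0.1) (pol v0.2) (x j) ≠ 0 := by
    intro j hj h0
    have := cc_mul ho hj
    rw [h0, mul_zero] at this
    exact hne this.symm
  have hdel0 : del ≠ 0 := by
    intro h0
    have := cc_mul ho (by omega : k < k + n)
    rw [← hdel, h0, mul_zero, zero_mul] at this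
    exact hne this.symm
  have hdgc : dg (pol v0.1) (pol v0.2) c0 = 0 := by
    unfold dg
    rw [← wv_pol, hc, zero_div]
  have hggc : gg (pol v0.1) (pol v0.2) c0 = x 0 := by
    unfold gg
    rw [← ev_pol, ← ev_pol, hx0]
  -- the two orbits
  have hok : Orb v0 x k := fun j hj => ho j (by omega)
  have hon : Orb v0 (fun i => x (k + i)) n := by
    intro j hj
    have := ho (k + j) (by omega)
    refine ⟨this.1, ?_⟩
    show _ = x (k + (j + 1))
    rw [this.2]
    rfl
  -- the functional
  obtain ⟨p, hp0, hp1⟩ : ∃ p : ℕ → ℂ, p 0 = c0 ∧ ∀ j, p (j + 1) = x j :=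
    ⟨fun i => Nat.casesOn i c0 x, rfl, fun _ => rfl⟩
  obtain ⟨B, hB0, hB1, hB2⟩ : ∃ B : ℕ → ℂ, B 0 = del ∧ (∀ j < k, B (j + 1) = cc v0 x k j) ∧
      ∀ j, B (k + j + 1) = -(cc v0 (fun i => x (k + i)) n j) / (1 - lam) := by
    refine ⟨fun i => Nat.casesOn i del (fun j => if j < k then cc v0 x k j
      else -(cc v0 (fun i => x (k + i)) n (j - k)) / (1 - lam)), rfl, fun j hj => ?_,
      fun j => ?_⟩
    · show (if j < k then cc v0 x k j
        else -(cc v0 (fun i => x (k + i)) n (j - k)) / (1 - lam)) = _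
      rw [if_pos hj]
    · show (if k + j < k then cc v0 x k (k + j)
        else -(cc v0 (fun i => x (k + i)) n (k + j - k)) / (1 - lam)) = _
      rw [if_neg (by omega), Nat.add_sub_cancel_left]
  obtain ⟨A, hA⟩ : ∃ A : ℕ → ℂ, ∀ j, A j = 0 := ⟨fun _ => 0, fun _ => rfl⟩
  have hLL0 : ∀ V : ℂ → ℂ, LL (Finset.range (k + n + 1)) p A B V =
      ∑ i ∈ Finset.range (k + n + 1), B i * V (p i) := by
    intro V
    unfold LL
    refine Finset.sum_congr rfl fun i _ => ?_
    rw [hA]
    ring
  have hLL : ∀ V : ℂ → ℂ, LL (Finset.range (k + n + 1)) p A B V =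
      del * V c0 + XV v0 V k (x 0) - XV v0 V n (x k) / (1 - lam) := by
    intro V
    have e1 := XV_val hok V
    have e2 := XV_val hon V
    simp only [add_zero] at e2
    rw [hLL0, Finset.sum_range_succ', Finset.sum_range_add, e1, e2]
    have h1 : ∑ j ∈ Finset.range k, B (j + 1) * V (p (j + 1)) =
        ∑ j ∈ Finset.range k, cc v0 x k j * V (x j) := by
      refine Finset.sum_congr rfl fun j hj => ?_
      rw [hB1 j (Finset.mem_range.mp hj), hp1]
    have h2 : ∑ j ∈ Finset.range n, B (k + j + 1) * V (p (k + j + 1)) =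
        -(∑ j ∈ Finset.range n, cc v0 (fun i => x (k + i)) n j * V (x (k + j))) /
          (1 - lam) := by
      rw [← Finset.sum_neg_distrib, Finset.sum_div]
      refine Finset.sum_congr rfl fun j hj => ?_
      rw [hB2, hp1]
      ring
    rw [h1, h2, hB0, hp0]
    ring
  have hinv : Inv (pol v0.1) (pol v0.2) (Finset.range (k + n + 1)) p A B := by
    intro V _
    rw [hLL, hLL, XV_tele, XV_tele, hggc, hdgc]
    have e1 : it v0 k (x 0) = x k := orb_it hok le_rfl
    have e2 : it v0 n (x k) = x k := by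
      have := orb_it hon (le_refl n)
      simp only [add_zero] at this
      rw [this, hx]
    rw [e1, e2, ← hlam, ← hdel]
    field_simp
    ring
  have hη : ∀ η : Polynomial ℂ, η.natDegree ≤ 2 * d →
      LL (Finset.range (k + n + 1)) p A B (fun z => η.eval z / (pol v0.2).eval z ^ 2) = 0 := by
    intro η hd
    obtain ⟨v, hv⟩ := xi_surj hR hd
    have hfun : (fun z => η.eval z / (pol v0.2).eval z ^ 2) = xi v0 v := by
      funext z
      exact (hv z).symm
    rw [hfun, hLL, ← XX_eq, ← XX_eq]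
    exact hcon v
  -- the points
  have hS := cyc_inv hn hx ho
  have hdisj := disj hn hm ho hx hrep hy hym hmul
  obtain ⟨S, hSdef⟩ : ∃ S : Finset ℂ, S = (Finset.range (k + n)).image x := ⟨_, rfl⟩
  rw [← hSdef] at hS hdisj
  have hxS : ∀ j < k + n, x j ∈ S := by
    intro j hj
    rw [hSdef]
    exact Finset.mem_image.mpr ⟨j, Finset.mem_range.mpr hj, rfl⟩
  have hSx : ∀ s ∈ S, ∃ j < k + n, x j = s := by
    intro s hs
    rw [hSdef] at hs
    obtain ⟨j, hj, hjc⟩ := Finset.mem_image.mp hs
    exact ⟨j, Finset.mem_range.mp hj, hjc⟩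
  have hc0S : c0 ∉ S := by
    intro h
    obtain ⟨j, hj, hjc⟩ := hSx c0 h
    exact hdgx j hj (by rw [hjc]; exact hdgc)
  have hbp : ∀ i ∈ Finset.range (k + n + 1), (pol v0.2).eval (p i) ≠ 0 := by
    intro i hi
    have hi' : i < k + n + 1 := Finset.mem_range.mp hi
    rcases i with _ | j
    · rw [hp0, ← ev_pol]
      exact hc2
    · rw [hp1]
      exact (orb_gg ho (by omega)).1
  have hpS : ∀ i ∈ Finset.range (k + n + 1), p i ∉ S →
      A i * dg (pol v0.1) (pol v0.2) (p i) = 0 ∧
      A i * deriv (dg (pol v0.1) (pol v0.2)) (p i) +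
        B i * dg (pol v0.1) (pol v0.2) (p i) = 0 := by
    intro i hi hiS
    have hi' : i < k + n + 1 := Finset.mem_range.mp hi
    rcases i with _ | j
    · rw [hA, hp0, hdgc]
      exact ⟨by ring, by ring⟩
    · exfalso
      rw [hp1] at hiS
      exact hiS (hxS j (by omega))
  have hQ := data hR hbp hinv hη S hS hpS
  have hα : ∀ s ∈ S, al (pol v0.1) (pol v0.2) (Finset.range (k + n + 1)) p A s = 0 := by
    intro s _
    unfold al
    refine Finset.sum_eq_zero fun i _ => ?_
    rw [hA]
    ring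
  have hprod : ‖∏ j ∈ Finset.range m, dg (pol v0.1) (pol v0.2) (y j)‖ ≤ 1 := by
    rw [tt2_prod hy m le_rfl]
    exact hmul
  have hβ := repel (y := y) hR hQ hα hm (fun j hj => orb_gg hy hj) hym hdisj hprod
  -- the sums of the coefficients vanish
  have hsum : ∀ s : ℂ, s ∈ S →
      ∑ i ∈ Finset.filter (fun i : ℕ => p i = s) (Finset.range (k + n + 1)), B i = 0 := by
    intro s hs
    have h := hβ s hs
    unfold be at h
    have h' : (∑ i ∈ Finset.filter (fun i : ℕ => p i = s) (Finset.range (k + n + 1)), B i) *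
        dg (pol v0.1) (pol v0.2) s = 0 := by
      rw [← h, Finset.sum_mul]
      refine Finset.sum_congr rfl fun i hi => ?_
      rw [(Finset.mem_filter.mp hi).2, hA]
      ring
    rcases mul_eq_zero.mp h' with h'' | h''
    · exact h''
    · exfalso
      obtain ⟨j, hj, hjs⟩ := hSx s hs
      exact hdgx j hj (by rw [hjs]; exact h'')
  have hLU : ∀ U : ℂ → ℂ, LL (Finset.range (k + n + 1)) p A B U = del * U c0 := by
    intro U
    rw [hLL0, ← Finset.sum_filter_add_sum_filter_not (Finset.range (k + n + 1))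
      (fun i : ℕ => p i ∈ S)]
    have hz1 : ∑ i ∈ Finset.filter (fun i : ℕ => p i ∈ S) (Finset.range (k + n + 1)),
        B i * U (p i) = 0 := by
      rw [← Finset.sum_fiberwise_of_maps_to
        (s := Finset.filter (fun i : ℕ => p i ∈ S) (Finset.range (k + n + 1))) (t := S) (g := p)
        (fun i hi => (Finset.mem_filter.mp hi).2)]
      refine Finset.sum_eq_zero fun s hs => ?_
      have hf : Finset.filter (fun i : ℕ => p i = s)
          (Finset.filter (fun i : ℕ => p i ∈ S) (Finset.range (k + n + 1))) =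
          Finset.filter (fun i : ℕ => p i = s) (Finset.range (k + n + 1)) := by
        refine Finset.ext fun i => ?_
        rw [Finset.mem_filter, Finset.mem_filter, Finset.mem_filter]
        constructor
        · rintro ⟨⟨h1, _⟩, h2⟩
          exact ⟨h1, h2⟩
        · rintro ⟨h1, h2⟩
          exact ⟨⟨h1, by rw [h2]; exact hs⟩, h2⟩
      rw [hf]
      have : ∑ i ∈ Finset.filter (fun i : ℕ => p i = s) (Finset.range (k + n + 1)),
          B i * U (p i) =
          (∑ i ∈ Finset.filter (fun i : ℕ => p i = s) (Finset.range (k + n + 1)), B i) *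
            U s := by
        rw [Finset.sum_mul]
        refine Finset.sum_congr rfl fun i hi => ?_
        rw [(Finset.mem_filter.mp hi).2]
      rw [this, hsum s hs, zero_mul]
    have hfil : Finset.filter (fun i : ℕ => ¬ p i ∈ S) (Finset.range (k + n + 1)) =
        ({0} : Finset ℕ) := by
      refine Finset.ext fun i => ?_
      rw [Finset.mem_filter, Finset.mem_singleton, Finset.mem_range]
      constructor
      · rintro ⟨h1, h2⟩
        rcases i with _ | j
        · rfl
        · rw [hp1] at h2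
          exact absurd (hxS j (by omega)) h2
      · rintro rfl
        rw [hp0]
        exact ⟨by omega, hc0S⟩
    rw [hz1, zero_add, hfil, Finset.sum_singleton, hB0, hp0]
  have hfin := hinv (fun _ => 1) (fun i _ => ⟨differentiableAt_const _, differentiableAt_const _⟩)
  rw [hLU, hLU, hdgc] at hfin
  apply hdel0
  simpa using hfin

end Pool.Agent.H61.TT
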