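import Pool.Agent.H61.TT.Surj

set_option autoImplicit false

open Filter Topology Polynomial Metric Set MeasureTheory

namespace Pool.Agent.H61.TT

open Pool.Agent.H44.Fatou Pool.Agent.H32.BT Pool.Agent.H79.Eul Pool.Agent.H79.Par

/-
Everything here is about a = pol v0.1, b = pol v0.2; gg a b z = ev v0.1 z / ev v0.2 z and
dg a b z = wv v0 z / ev v0.2 z ^ 2 (ev_pol, wv_pol). All identities without hypothesis hold by induction on n, also where
denominators vanish (division by zero is zero on both sides in the same way).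
XV_tele: XV(V∘g)_(n+1) - XV(g'V)_(n+1) = V(g(g^n z)) - g'(g^n z) V(g^n z) + g'(g^n z) (V(g^n z) - trD n z V z).
it_front: it (n+1) z = it n (g z). trD_front: product over range (n+1), first factor (Finset.prod_range_succ').
trD_rot: trD (m+1) s computed from both ends: trD m (g s) g'(s) = g'(it m s) trD m s = g'(s) trD m s; if g'(s) = 0
both sides are 0: factor i = 0 of trD m s, factor i = m - 1 of trD m (g s) (it (m-1) (g s) = it m s = s).
XV_val: value at x 0, it v0 j (x 0) = x j (tr_cont).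
XV_der: induction on n; derivative at x 0 of V(it n z) is V'(x n) trD n (x 0), of g'(it n z) XV n z is
g''(x n) trD n (x 0) XV n (x 0) + g'(x n) XV n '(x 0); XV n (x 0) by XV_val. B_(n+1) j = g''(x n) trD n (x 0) cc n j + g'(x n) B_n j for
j < n, B_(n+1) n = 0.
-/

variable {d : ℕ}

theorem it_succ (v0 : E d) (n : ℕ) (z : ℂ) :
    it v0 (n + 1) z = gg (pol v0.1) (pol v0.2) (it v0 n z) := by
  simp only [it, gg, ev_pol]

theorem it_front (v0 : E d) (n : ℕ) (z : ℂ) :
    it v0 (n + 1) z = it v0 n (gg (pol v0.1) (pol v0.2) z) := by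
  induction n with
  | zero => rw [it_succ]; rfl
  | succ n ih => rw [it_succ, ih, it_succ]

theorem dg_eq (v0 : E d) (z : ℂ) : wv v0 z / ev v0.2 z ^ 2 = dg (pol v0.1) (pol v0.2) z := by
  simp only [dg, ev_pol, wv_pol]

theorem trD_succ (v0 : E d) (n : ℕ) (z : ℂ) :
    trD v0 (n + 1) z = dg (pol v0.1) (pol v0.2) (it v0 n z) * trD v0 n z := by
  simp only [trD, dg_eq, Finset.prod_range_succ]
  ring

theorem trD_front (v0 : E d) (n : ℕ) (z : ℂ) :
    trD v0 (n + 1) z =
      trD v0 n (gg (pol v0.1) (pol v0.2) z) * dg (pol v0.1) (pol v0.2) z := by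
  simp only [trD, dg_eq, Finset.prod_range_succ', it_front]
  rfl

theorem trD_rot (v0 : E d) {m : ℕ} (hm : 0 < m) {s : ℂ} (hs : it v0 m s = s) :
    trD v0 m (gg (pol v0.1) (pol v0.2) s) = trD v0 m s := by
  by_cases h : dg (pol v0.1) (pol v0.2) s = 0
  · obtain ⟨k, rfl⟩ : ∃ k, m = k + 1 := ⟨m - 1, by omega⟩
    rw [trD_front v0 k s, h, mul_zero, trD_succ, ← it_front, hs, h, zero_mul]
  · have h1 := trD_front v0 m s
    have h2 := trD_succ v0 m s
    rw [hs] at h2
    have h3 : trD v0 m (gg (pol v0.1) (pol v0.2) s) * dg (pol v0.1) (pol v0.2) s =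
        trD v0 m s * dg (pol v0.1) (pol v0.2) s := by
      rw [← h1, h2, mul_comm]
    exact mul_right_cancel₀ h h3

theorem XX_eq (v0 v : E d) (n : ℕ) (z : ℂ) : XX v0 v n z = XV v0 (xi v0 v) n z := by
  induction n with
  | zero => rfl
  | succ n ih => simp only [XX, XV, ih]

theorem XV_succ (v0 : E d) (V : ℂ → ℂ) (n : ℕ) (z : ℂ) :
    XV v0 V (n + 1) z = V (it v0 n z) + dg (pol v0.1) (pol v0.2) (it v0 n z) * XV v0 V n z := by
  simp only [XV, dg_eq]

theorem XV_tele (v0 : E d) (V : ℂ → ℂ) (n : ℕ) (z : ℂ) :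
    XV v0 (fun z => V (gg (pol v0.1) (pol v0.2) z)) n z =
      XV v0 (fun z => dg (pol v0.1) (pol v0.2) z * V z) n z + V (it v0 n z) -
        trD v0 n z * V z := by
  induction n with
  | zero => simp [XV, it, trD]
  | succ n ih =>
    rw [XV_succ, XV_succ, ih, trD_succ, it_succ]
    ring

theorem orb_gg {v0 : E d} {x : ℕ → ℂ} {n : ℕ} (ho : Orb v0 x n) {j : ℕ} (hj : j < n) :
    (pol v0.2).eval (x j) ≠ 0 ∧ gg (pol v0.1) (pol v0.2) (x j) = x (j + 1) := by
  obtain ⟨h1, h2⟩ := ho j hj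
  rw [ev_pol] at h1
  rw [ev_pol, ev_pol] at h2
  exact ⟨h1, h2⟩

theorem orb_it {v0 : E d} {x : ℕ → ℂ} {n : ℕ} (ho : Orb v0 x n) {j : ℕ} (hj : j ≤ n) :
    it v0 j (x 0) = x j :=
  (tr_cont v0 x n (fun j hj => (ho j hj).1) (fun j hj => (ho j hj).2) j hj).1

/-- the coefficients of `XV` -/
noncomputable def cc (v0 : E d) (x : ℕ → ℂ) (n j : ℕ) : ℂ :=
  ∏ i ∈ Finset.Ico (j + 1) n, dg (pol v0.1) (pol v0.2) (x i)

theorem cc_self (v0 : E d) (x : ℕ → ℂ) (n : ℕ) : cc v0 x (n + 1) n = 1 := by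
  simp [cc]

theorem cc_succ (v0 : E d) (x : ℕ → ℂ) {n j : ℕ} (hj : j < n) :
    cc v0 x (n + 1) j = dg (pol v0.1) (pol v0.2) (x n) * cc v0 x n j := by
  rw [cc, cc, Finset.prod_Ico_succ_top (by omega : j + 1 ≤ n), mul_comm]

theorem orb_mono {v0 : E d} {x : ℕ → ℂ} {n m : ℕ} (ho : Orb v0 x n) (hm : m ≤ n) : Orb v0 x m :=
  fun j hj => ho j (by omega)

theorem XV_val {v0 : E d} {x : ℕ → ℂ} {n : ℕ} (ho : Orb v0 x n) (V : ℂ → ℂ) :
    XV v0 V n (x 0) = ∑ j ∈ Finset.range n, cc v0 x n j * V (x j) := by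
  induction n with
  | zero => simp [XV]
  | succ n ih =>
    rw [XV_succ, ih (orb_mono ho (Nat.le_succ n)), orb_it ho (Nat.le_succ n),
      Finset.sum_range_succ, cc_self, one_mul, Finset.mul_sum, add_comm]
    congr 1
    refine Finset.sum_congr rfl fun j hj => ?_
    rw [cc_succ v0 x (Finset.mem_range.1 hj)]
    ring

theorem XV_der {v0 : E d} {x : ℕ → ℂ} {n : ℕ} (ho : Orb v0 x n) :
    ∃ B : ℕ → ℂ, ∀ V : ℂ → ℂ, (∀ j < n, DifferentiableAt ℂ V (x j)) →
      HasDerivAt (XV v0 V n) (∑ j ∈ Finset.range n,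
        (cc v0 x n j * trD v0 j (x 0) * deriv V (x j) + B j * V (x j))) (x 0) := by
  induction n with
  | zero =>
    refine ⟨fun _ => 0, fun V _ => ?_⟩
    simp only [Finset.range_zero, Finset.sum_empty]
    exact hasDerivAt_const (x 0) (0 : ℂ)
  | succ n ih =>
    have ho' := orb_mono ho (Nat.le_succ n)
    obtain ⟨B, hB⟩ := ih ho'
    have hxn : it v0 n (x 0) = x n := orb_it ho (Nat.le_succ n)
    have hit : HasDerivAt (fun z => it v0 n z) (trD v0 n (x 0)) (x 0) := by
      refine tr_hasDerivAt v0 (x 0) n fun i hi => ?_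
      rw [orb_it ho (by omega : i ≤ n + 1)]
      exact (ho i (by omega)).1
    have hb : (pol v0.2).eval (x n) ≠ 0 := (orb_gg ho (Nat.lt_succ_self n)).1
    have hdg : DifferentiableAt ℂ (dg (pol v0.1) (pol v0.2)) (x n) := by
      unfold dg
      exact ((ww (pol v0.1) (pol v0.2)).differentiable _).div
        (((pol v0.2).differentiable _).pow 2) (pow_ne_zero 2 hb)
    refine ⟨fun j => if j < n then deriv (dg (pol v0.1) (pol v0.2)) (x n) * trD v0 n (x 0) *
      cc v0 x n j + dg (pol v0.1) (pol v0.2) (x n) * B j else 0, fun V hV => ?_⟩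
    have h1 : HasDerivAt (fun z => V (it v0 n z)) (deriv V (x n) * trD v0 n (x 0)) (x 0) := by
      have h2 : HasDerivAt V (deriv V (x n)) (it v0 n (x 0)) := by
        rw [hxn]
        exact (hV n (Nat.lt_succ_self n)).hasDerivAt
      exact h2.comp (x 0) hit
    have h3 : HasDerivAt (fun z => dg (pol v0.1) (pol v0.2) (it v0 n z))
        (deriv (dg (pol v0.1) (pol v0.2)) (x n) * trD v0 n (x 0)) (x 0) := by
      have h2 : HasDerivAt (dg (pol v0.1) (pol v0.2)) (deriv (dg (pol v0.1) (pol v0.2)) (x n))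
          (it v0 n (x 0)) := by
        rw [hxn]
        exact hdg.hasDerivAt
      exact h2.comp (x 0) hit
    have h4 := hB V fun j hj => hV j (by omega)
    have h5 := h1.add (h3.mul h4)
    have h6 : (fun z => V (it v0 n z)) + ((fun z => dg (pol v0.1) (pol v0.2) (it v0 n z)) *
        XV v0 V n) = XV v0 V (n + 1) := by
      funext z
      simp only [Pi.add_apply, Pi.mul_apply, XV_succ]
    rw [h6] at h5
    refine h5.congr_deriv ?_
    symm
    rw [XV_val ho' V, hxn, Finset.sum_range_succ, cc_self]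
    simp only [lt_irrefl, if_false, zero_mul, add_zero, one_mul, Finset.mul_sum]
    rw [← Finset.sum_add_distrib, add_comm, mul_comm (trD v0 n (x 0))]
    congr 1
    refine Finset.sum_congr rfl fun j hj => ?_
    rw [if_pos (Finset.mem_range.1 hj), cc_succ v0 x (Finset.mem_range.1 hj)]
    ring

/-- along the orbit: coefficient times derivative times derivative of the iterate -/
theorem cc_mul {v0 : E d} {x : ℕ → ℂ} {n : ℕ} (ho : Orb v0 x n) {j : ℕ} (hj : j < n) :
    cc v0 x n j * trD v0 j (x 0) * dg (pol v0.1) (pol v0.2) (x j) = trD v0 n (x 0) := by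
  induction n with
  | zero => omega
  | succ n ih =>
    rw [trD_succ, orb_it ho (Nat.le_succ n)]
    rcases Nat.lt_succ_iff_lt_or_eq.1 hj with h | rfl
    · rw [← ih (orb_mono ho (Nat.le_succ n)) h, cc_succ v0 x h]
      ring
    · rw [cc_self]
      ring

end Pool.Agent.H61.TT
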