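import Pool.Agent.H61.TT.Core
import Pool.Agent.H61.TT.Main2
import Pool.Agent.H79.Par.GDefs
import Pool.Agent.H35.RL.Cocyc

/-!
# Transversality for critical orbits landing on cycles: the forms used in the assembly

`tt2'`: `tt2` with the hypothesis `NonRep v0`. `kap_ne`: the functional `kap` of a critical orbit landing
on a cycle with multiplier of modulus at least one, different from one.
-/

set_option autoImplicit false

open Filter Topology Polynomial Metric Set MeasureTheory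

namespace Pool.Agent.H61.TT

open Pool.Agent.H44.Fatou Pool.Agent.H32.BT Pool.Agent.H79.Eul Pool.Agent.H79.Par
open Pool.Agent.H35.RL

/-- `tt2` with the hypothesis `NonRep v0` -/
theorem tt2' {d : ℕ} {v0 : E d} (hd : 2 ≤ d) (hcop : IsCoprime (pol v0.1) (pol v0.2))
    (hdeg : max (pol v0.1).natDegree (pol v0.2).natDegree = d) {c0 : ℂ} (hc : wv v0 c0 = 0)
    (hc2 : ev v0.2 c0 ≠ 0) (x : ℕ → ℂ) {k n : ℕ} (hn : 0 < n)
    (hx0 : x 0 = ev v0.1 c0 / ev v0.2 c0) (ho : Orb v0 x (k + n)) (hx : x (k + n) = x k)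
    (hne : trD v0 (k + n) (x 0) ≠ 0) (hrep : 1 < ‖trD v0 n (x k)‖) (hnr : NonRep v0) :
    ∃ v : E d, trD v0 k (x 0) * xi v0 v c0 + XX v0 v k (x 0) -
      XX v0 v n (x k) / (1 - trD v0 n (x k)) ≠ 0 := by
  obtain ⟨y, m, hm, hy, hym, hmul⟩ := hnr
  exact tt2 hd hcop hdeg hc hc2 x hn hx0 ho hx hne hrep y hm hy hym hmul

/-- `tt2` and `tt3` together -/
theorem tt23 {d : ℕ} {v0 : E d} (hd : 2 ≤ d) (hcop : IsCoprime (pol v0.1) (pol v0.2))
    (hdeg : max (pol v0.1).natDegree (pol v0.2).natDegree = d) {c0 : ℂ} (hc : wv v0 c0 = 0)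
    (hc2 : ev v0.2 c0 ≠ 0) (x : ℕ → ℂ) {k n : ℕ} (hn : 0 < n)
    (hx0 : x 0 = ev v0.1 c0 / ev v0.2 c0) (ho : Orb v0 x (k + n)) (hx : x (k + n) = x k)
    (hne : trD v0 (k + n) (x 0) ≠ 0) (hlam : trD v0 n (x k) ≠ 1) (hnr : NonRep v0) :
    ∃ v : E d, trD v0 k (x 0) * xi v0 v c0 + XX v0 v k (x 0) -
      XX v0 v n (x k) / (1 - trD v0 n (x k)) ≠ 0 := by
  rcases lt_or_ge 1 ‖trD v0 n (x k)‖ with h | h
  · exact tt2' hd hcop hdeg hc hc2 x hn hx0 ho hx hne h hnr
  · exact tt3 hd hcop hdeg hc hc2 x hn hx0 ho hx hne hlam h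

/-- no further critical point on the orbit -/
theorem kap_ne1 {d : ℕ} {v0 : E d} (hd : 2 ≤ d) (hcop : IsCoprime (pol v0.1) (pol v0.2))
    (hdeg : max (pol v0.1).natDegree (pol v0.2).natDegree = d) (x : ℕ → ℂ) {k n : ℕ}
    (hk : 0 < k) (hn : 0 < n) (hc : wv v0 (x 0) = 0) (ho : Orb v0 x (k + n))
    (hx : x (k + n) = x k) (hcr : ∀ i, 0 < i → i < k + n → wv v0 (x i) ≠ 0)
    (hlam : trD v0 n (x k) ≠ 1) (hnr : NonRep v0) : ∃ v : E d, kap v0 v x k n ≠ 0 := by
  obtain ⟨k', rfl⟩ : ∃ k', k = k' + 1 := ⟨k - 1, by omega⟩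
  have hy : Orb v0 (fun i => x (i + 1)) (k' + n) := by
    intro j hj
    exact ho (j + 1) (by omega)
  have hne : trD v0 (k' + n) (x 1) ≠ 0 := by
    unfold trD
    rw [Finset.prod_ne_zero_iff]
    intro i hi
    have hi' := Finset.mem_range.mp hi
    have h1 : it v0 i (x 1) = x (i + 1) := orb_it hy (by omega : i ≤ k' + n)
    rw [h1]
    exact div_ne_zero (hcr _ (by omega) (by omega)) (pow_ne_zero _ (hy i hi').1)
  obtain ⟨v, hv⟩ := tt23 (c0 := x 0) hd hcop hdeg hc (ho 0 (by omega)).1 (fun i => x (i + 1)) hn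
    (ho 0 (by omega)).2.symm hy
    (by show x (k' + n + 1) = x (k' + 1); rw [← hx]; congr 1; omega) hne hlam hnr
  refine ⟨v, fun h0 => hv ?_⟩
  unfold kap at h0
  rw [XX_front, (orb_gg ho (by omega : 0 < k' + 1 + n)).2] at h0
  show trD v0 k' (x (0 + 1)) * xi v0 v (x 0) + XX v0 v k' (x (0 + 1)) -
      XX v0 v n (x (k' + 1)) / (1 - trD v0 n (x (k' + 1))) = 0
  rw [← h0]
  have e : (1 : ℂ) - trD v0 n (x (k' + 1)) = -(trD v0 n (x (k' + 1)) - 1) := by ring
  rw [e, div_neg]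
  ring

/-- the transversality functional of a critical orbit landing on a cycle with multiplier of modulus at
least one, different from one -/
theorem kap_ne {d : ℕ} {v0 : E d} (hd : 2 ≤ d) (hcop : IsCoprime (pol v0.1) (pol v0.2))
    (hdeg : max (pol v0.1).natDegree (pol v0.2).natDegree = d) (x : ℕ → ℂ) {k n : ℕ}
    (hk : 0 < k) (hn : 0 < n) (hc : wv v0 (x 0) = 0) (ho : Orb v0 x (k + n))
    (hx : x (k + n) = x k) (hlam0 : 1 ≤ ‖trD v0 n (x k)‖) (hlam : trD v0 n (x k) ≠ 1)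
    (hnr : NonRep v0) : ∃ v : E d, kap v0 v x k n ≠ 0 := by
  classical
  -- the last critical point
  have hex : ∃ j, j < k ∧ wv v0 (x j) = 0 ∧ ∀ i, j < i → i < k → wv v0 (x i) ≠ 0 := by
    have hne : ((Finset.range k).filter fun j => wv v0 (x j) = 0).Nonempty :=
      ⟨0, Finset.mem_filter.mpr ⟨Finset.mem_range.mpr hk, hc⟩⟩
    refine ⟨_, Finset.mem_range.mp (Finset.mem_filter.mp (Finset.max'_mem _ hne)).1,
      (Finset.mem_filter.mp (Finset.max'_mem _ hne)).2, fun i hi hik h0 => ?_⟩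
    have := Finset.le_max' ((Finset.range k).filter fun j => wv v0 (x j) = 0) i
      (Finset.mem_filter.mpr ⟨Finset.mem_range.mpr hik, h0⟩)
    omega
  obtain ⟨j, hjk, hj0, hjl⟩ := hex
  have hon : Orb v0 (fun i => x (k + i)) n := by
    intro i hi
    exact ho (k + i) (by omega)
  have hcyc : ∀ i, k ≤ i → i < k + n → wv v0 (x i) ≠ 0 := by
    intro i hki hi h0
    have h1 : trD v0 n (x k) = 0 := by
      unfold trD
      refine Finset.prod_eq_zero (i := i - k) (Finset.mem_range.2 (by omega)) ?_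
      have h2 : it v0 (i - k) (x k) = x i := by
        have := orb_it hon (by omega : i - k ≤ n)
        simp only [add_zero] at this
        rw [this]
        congr 1
        omega
      rw [h2, h0, zero_div]
    rw [h1, norm_zero] at hlam0
    linarith
  have hoj : Orb v0 (fun i => x (j + i)) (k - j + n) := by
    intro i hi
    exact ho (j + i) (by omega)
  have e1 : j + (k - j) = k := by omega
  obtain ⟨v, hv⟩ := kap_ne1 hd hcop hdeg (fun i => x (j + i)) (k := k - j) (n := n) (by omega) hn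
    hj0 hoj
    (by
      show x (j + (k - j + n)) = x (j + (k - j))
      rw [e1, ← hx]
      congr 1
      omega)
    (fun i hi0 hi => by
      show wv v0 (x (j + i)) ≠ 0
      rcases lt_or_ge (j + i) k with h | h
      · exact hjl _ (by omega) h
      · exact hcyc _ h (by omega))
    (by
      show trD v0 n (x (j + (k - j))) ≠ 1
      rw [e1]
      exact hlam) hnr
  refine ⟨v, ?_⟩
  rwa [kap_shift v0 v hjk (fun i hi => ho i (by omega)) hj0]

end Pool.Agent.H61.TT
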