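import Pool.Agent.H61.TT.QF

set_option autoImplicit false

open Filter Topology Polynomial Metric Set MeasureTheory

namespace Pool.Agent.H61.TT

open Pool.Agent.H44.Fatou Pool.Agent.H32.BT Pool.Agent.H79.Eul Pool.Agent.H79.Par

variable {d : ℕ} {a b : Polynomial ℂ} {S : Finset ℂ} {α β : ℂ → ℂ} {K : ℂ → ℝ}

/-
PROOF of cut_sub: y ∉ Cut, so y ∈ ball s (K s/(k+1)) for some s ∈ S; gg y ∈ Cut, so gg y ∉ ball (gg s) ...
PROOF of cutA. ρ_s = K s/(k+1). Let g = gg a b. There are C ≥ 0, r > 0 with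
‖g y - g s‖ ≤ ‖dg s‖ ‖y - s‖ (1 + C ‖y - s‖) for all s ∈ S, ‖y - s‖ < r (g is analytic at s, dg s ≠ 0 since
K (g s) > 0), and ‖qf y‖ ≤ c/‖y - s‖^2 (qf_near). For k large ρ_s < r, C ρ_s ≤ 1/2. If y ∈ ball s ρ_s and
‖g y - g s‖ ≥ ρ_(g s) = ‖dg s‖ ρ_s then ‖y - s‖ (1 + C ρ_s) ≥ ρ_s, so ‖y - s‖ ≥ ρ_s (1 - C ρ_s) ≥ ρ_s/2.
The volume of {ρ_s (1 - C ρ_s) ≤ ‖y - s‖ < ρ_s} is π (ρ_s^2 - ρ_s^2 (1 - C ρ_s)^2) ≤ 2 π C ρ_s^3
(Complex.volume_ball), and ‖qf y‖ ≤ 4 c/ρ_s^2 there. So the integral is ≤ ∑_s 8 π c C ρ_s → 0.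
-/

theorem cut_sub (hinv : ∀ s ∈ S, b.eval s ≠ 0 ∧ gg a b s ∈ S) (k : ℕ) :
    pre a b (Cut S K k) \ Cut S K k ⊆
      ⋃ s ∈ S, {y | y ∈ ball s (K s / (k + 1)) ∧ b.eval y ≠ 0 ∧
        K (gg a b s) / (k + 1) ≤ ‖gg a b y - gg a b s‖} := by
  rintro y ⟨⟨hby, hy1⟩, hy2⟩
  unfold Cut at hy1 hy2
  rw [Set.mem_compl_iff, not_not, mem_iUnion₂] at hy2
  obtain ⟨s, hs, hys⟩ := hy2
  rw [mem_iUnion₂]
  refine ⟨s, hs, hys, hby, ?_⟩
  rw [Set.mem_compl_iff, mem_iUnion₂] at hy1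
  by_contra hcon
  apply hy1
  refine ⟨gg a b s, (hinv s hs).2, ?_⟩
  rw [mem_ball, dist_eq_norm]
  exact not_le.1 hcon

/-- area of an annulus -/
theorem cut_ann (s : ℂ) {ρ ρ' : ℝ} (h0 : 0 ≤ ρ') (h : ρ' ≤ ρ) :
    volume (ball s ρ \ ball s ρ') = ENNReal.ofReal ((ρ ^ 2 - ρ' ^ 2) * Real.pi) := by
  have h1 : ∀ t : ℝ, 0 ≤ t → volume (ball s t) = ENNReal.ofReal (t ^ 2 * Real.pi) := by
    intro t ht
    rw [Complex.volume_ball, ENNReal.ofReal_mul (by positivity), ENNReal.ofReal_pow ht]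
    congr 1
    exact (ENNReal.ofReal_coe_nnreal (p := NNReal.pi)).symm
  rw [measure_sdiff (ball_subset_ball h) measurableSet_ball.nullMeasurableSet
    measure_ball_lt_top.ne, h1 ρ (h0.trans h), h1 ρ' h0, ← ENNReal.ofReal_sub _ (by positivity)]
  congr 1
  ring

/-- integrals over finite unions -/
theorem cut_union (S : Finset ℂ) (T : ℂ → Set ℂ) (f : ℂ → ENNReal) :
    ∫⁻ y in ⋃ s ∈ S, T s, f y ≤ ∑ s ∈ S, ∫⁻ y in T s, f y := by
  classical
  induction S using Finset.induction_on with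
  | empty => simp
  | insert s S hs ih =>
    rw [Finset.set_biUnion_insert, Finset.sum_insert hs]
    exact (lintegral_union_le _ _ _).trans (add_le_add le_rfl ih)

/-- second order estimate for `gg` -/
theorem gg_second {s : ℂ} (hs : b.eval s ≠ 0) : ∃ M r : ℝ, 0 ≤ M ∧ 0 < r ∧
    ∀ y : ℂ, ‖y - s‖ < r → ‖gg a b y - gg a b s‖ ≤ ‖dg a b s‖ * ‖y - s‖ + M * ‖y - s‖ ^ 2 := by
  have h1 := (differentiableAt_dg (a := a) hs).isBigO_sub
  rw [Asymptotics.isBigO_iff'] at h1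
  obtain ⟨M, hM, h1⟩ := h1
  have h2 : ∀ᶠ y in 𝓝 s, b.eval y ≠ 0 :=
    b.continuous.continuousAt.eventually_ne hs
  obtain ⟨r, hr, hball⟩ := Metric.eventually_nhds_iff_ball.1 (h1.and h2)
  refine ⟨M, r, hM.le, hr, fun y hy => ?_⟩
  have hsub : closedBall s ‖y - s‖ ⊆ ball s r := closedBall_subset_ball hy
  have h3 : ‖(gg a b y - dg a b s * y) - (gg a b s - dg a b s * s)‖ ≤
      M * ‖y - s‖ * ‖y - s‖ := by
    refine Convex.norm_image_sub_le_of_norm_hasDerivWithin_le (𝕜 := ℂ)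
      (f := fun z => gg a b z - dg a b s * z) (f' := fun z => dg a b z - dg a b s)
      (s := closedBall s ‖y - s‖) ?_ ?_ (convex_closedBall _ _) ?_ ?_
    · intro z hz
      have h4 := hasDerivAt_gg (a := a) (hball z (hsub hz)).2
      have h5 : HasDerivAt (fun z => dg a b s * z) (dg a b s) z := by
        simpa using (hasDerivAt_id z).const_mul (dg a b s)
      exact (h4.sub h5).hasDerivWithinAt
    · intro z hz
      have h4 := (hball z (hsub hz)).1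
      have h5 : ‖z - s‖ ≤ ‖y - s‖ := by
        rw [← dist_eq_norm]; exact mem_closedBall.1 hz
      calc ‖dg a b z - dg a b s‖ ≤ M * ‖z - s‖ := h4
        _ ≤ M * ‖y - s‖ := mul_le_mul_of_nonneg_left h5 hM.le
    · exact mem_closedBall_self (norm_nonneg _)
    · rw [mem_closedBall, dist_eq_norm]
  have h6 : gg a b y - gg a b s = ((gg a b y - dg a b s * y) - (gg a b s - dg a b s * s)) +
      dg a b s * (y - s) := by ring
  calc ‖gg a b y - gg a b s‖ ≤ ‖(gg a b y - dg a b s * y) - (gg a b s - dg a b s * s)‖ +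
        ‖dg a b s * (y - s)‖ := by rw [h6]; exact norm_add_le _ _
    _ ≤ M * ‖y - s‖ * ‖y - s‖ + ‖dg a b s‖ * ‖y - s‖ := by rw [norm_mul]; gcongr
    _ = ‖dg a b s‖ * ‖y - s‖ + M * ‖y - s‖ ^ 2 := by ring

theorem tendsto_rho (x : ℝ) : Tendsto (fun k : ℕ => x / ((k : ℝ) + 1)) atTop (𝓝 0) :=
  tendsto_const_nhds.div_atTop (tendsto_natCast_atTop_atTop.atTop_add tendsto_const_nhds)

theorem cutA (hinv : ∀ s ∈ S, b.eval s ≠ 0 ∧ gg a b s ∈ S) (hK : ∀ s ∈ S, 0 < K s)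
    (hKg : ∀ s ∈ S, K (gg a b s) = K s * ‖dg a b s‖) :
    Tendsto (fun k => ∫⁻ y in pre a b (Cut S K k) \ Cut S K k, ‖qf S α β y‖ₑ) atTop (𝓝 0) := by
  have hpiece : ∀ s ∈ S, Tendsto (fun k : ℕ => ∫⁻ y in {y | y ∈ ball s (K s / (k + 1)) ∧
      b.eval y ≠ 0 ∧ K (gg a b s) / (k + 1) ≤ ‖gg a b y - gg a b s‖}, ‖qf S α β y‖ₑ)
      atTop (𝓝 0) := by
    intro s hs
    obtain ⟨M, r1, hM, hr1, h1⟩ := gg_second (a := a) (hinv s hs).1
    obtain ⟨c, r2, hc, hr2, h2⟩ := qf_near (α := α) (β := β) hs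
    have hKs := hK s hs
    have hdg : 0 < ‖dg a b s‖ := by
      have h3 := hK _ (hinv s hs).2
      rw [hKg s hs] at h3
      by_contra hcon
      have : ‖dg a b s‖ = 0 := le_antisymm (not_lt.1 hcon) (norm_nonneg _)
      rw [this, mul_zero] at h3
      exact lt_irrefl _ h3
    set C := M / ‖dg a b s‖ with hC
    have hC0 : 0 ≤ C := by positivity
    have hMC : M = C * ‖dg a b s‖ := by rw [hC]; field_simp
    have hlim : Tendsto (fun k : ℕ => ENNReal.ofReal (c * Real.pi *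
        (2 * C * (K s / (k + 1)) + C ^ 2 * (K s / (k + 1)) ^ 2))) atTop (𝓝 0) := by
      have h4 := tendsto_rho (K s)
      have h5 := ((h4.const_mul (2 * C)).add ((h4.pow 2).const_mul (C ^ 2))).const_mul
        (c * Real.pi)
      have h6 : c * Real.pi * (2 * C * 0 + C ^ 2 * 0 ^ 2) = 0 := by ring
      rw [h6] at h5
      have h7 := ENNReal.tendsto_ofReal h5
      rw [ENNReal.ofReal_zero] at h7
      exact h7
    refine tendsto_of_tendsto_of_tendsto_of_le_of_le' tendsto_const_nhds hlim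
      (Eventually.of_forall (fun k => bot_le)) ?_
    have hev : ∀ᶠ k : ℕ in atTop, K s / ((k : ℝ) + 1) < min r1 r2 :=
      (tendsto_rho (K s)).eventually (gt_mem_nhds (lt_min hr1 hr2))
    filter_upwards [hev] with k hk
    set ρ := K s / ((k : ℝ) + 1) with hρ
    have hρ0 : 0 < ρ := by positivity
    have hρ1 : ρ < r1 := hk.trans_le (min_le_left _ _)
    have hρ2 : ρ < r2 := hk.trans_le (min_le_right _ _)
    set ρ' := ρ / (1 + C * ρ) with hρ'
    have hden : 0 < 1 + C * ρ := by positivity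
    have hρ'0 : 0 < ρ' := by positivity
    have hρ'le : ρ' ≤ ρ := by
      rw [hρ', div_le_iff₀ hden]
      have : 0 ≤ C * ρ * ρ := by positivity
      nlinarith
    have hKg' : K (gg a b s) / ((k : ℝ) + 1) = ρ * ‖dg a b s‖ := by
      rw [hKg s hs, hρ]; ring
    have hsub : {y | y ∈ ball s ρ ∧ b.eval y ≠ 0 ∧
        K (gg a b s) / (k + 1) ≤ ‖gg a b y - gg a b s‖} ⊆ ball s ρ \ ball s ρ' := by
      rintro y ⟨hy1, -, hy3⟩
      refine ⟨hy1, fun hy4 => ?_⟩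
      rw [mem_ball, dist_eq_norm] at hy1 hy4
      rw [hKg'] at hy3
      have h3 := h1 y (hy1.trans hρ1)
      rw [hMC] at h3
      have h4 : ρ * ‖dg a b s‖ ≤ (‖y - s‖ * (1 + C * ‖y - s‖)) * ‖dg a b s‖ := by
        calc ρ * ‖dg a b s‖ ≤ _ := hy3
          _ ≤ _ := h3
          _ = _ := by ring
      have h5 : ρ ≤ ‖y - s‖ * (1 + C * ‖y - s‖) := le_of_mul_le_mul_right h4 hdg
      have h6 : ‖y - s‖ * (1 + C * ‖y - s‖) ≤ ‖y - s‖ * (1 + C * ρ) := by
        apply mul_le_mul_of_nonneg_left _ (norm_nonneg _)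
        have := mul_le_mul_of_nonneg_left hy1.le hC0
        linarith
      have h7 : ‖y - s‖ * (1 + C * ρ) < ρ := by
        rw [hρ', lt_div_iff₀ hden] at hy4
        exact hy4
      linarith
    have hbound : ∀ y ∈ ball s ρ \ ball s ρ', ‖qf S α β y‖ₑ ≤
        ENNReal.ofReal (c / ρ' ^ 2) := by
      rintro y ⟨hy1, hy2⟩
      rw [mem_ball, dist_eq_norm] at hy1 hy2
      rw [not_lt] at hy2
      have hne : y ≠ s := by
        rintro rfl
        rw [sub_self, norm_zero] at hy2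
        linarith
      have h3 := h2 y hne (hy1.trans hρ2)
      rw [← ofReal_norm]
      apply ENNReal.ofReal_le_ofReal
      refine h3.trans ?_
      gcongr
    calc ∫⁻ y in {y | y ∈ ball s ρ ∧ b.eval y ≠ 0 ∧
        K (gg a b s) / (k + 1) ≤ ‖gg a b y - gg a b s‖}, ‖qf S α β y‖ₑ
        ≤ ∫⁻ y in ball s ρ \ ball s ρ', ‖qf S α β y‖ₑ := lintegral_mono_set hsub
      _ ≤ ∫⁻ _ in ball s ρ \ ball s ρ', ENNReal.ofReal (c / ρ' ^ 2) :=
          setLIntegral_mono' (measurableSet_ball.diff measurableSet_ball) hbound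
      _ = ENNReal.ofReal (c / ρ' ^ 2) * ENNReal.ofReal ((ρ ^ 2 - ρ' ^ 2) * Real.pi) := by
          rw [setLIntegral_const, cut_ann s hρ'0.le hρ'le]
      _ = ENNReal.ofReal (c * Real.pi * (2 * C * ρ + C ^ 2 * ρ ^ 2)) := by
          rw [← ENNReal.ofReal_mul (by positivity)]
          congr 1
          rw [hρ']
          field_simp
          ring
  have hsum : Tendsto (fun k : ℕ => ∑ s ∈ S, ∫⁻ y in {y | y ∈ ball s (K s / (k + 1)) ∧
      b.eval y ≠ 0 ∧ K (gg a b s) / (k + 1) ≤ ‖gg a b y - gg a b s‖}, ‖qf S α β y‖ₑ)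
      atTop (𝓝 0) := by
    have := tendsto_finsetSum S hpiece
    rwa [Finset.sum_const_zero] at this
  refine tendsto_of_tendsto_of_tendsto_of_le_of_le tendsto_const_nhds hsum
    (fun k => bot_le) (fun k => ?_)
  exact (lintegral_mono_set (cut_sub hinv k)).trans (cut_union S _ _)

end Pool.Agent.H61.TT
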