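import Pool.Agent.H61.TT.Rigid
import Pool.Agent.H61.TT.CutFin
import Pool.Agent.H61.TT.CutA

set_option autoImplicit false

open Filter Topology Polynomial Metric Set MeasureTheory

namespace Pool.Agent.H61.TT

open Pool.Agent.H44.Fatou Pool.Agent.H32.BT Pool.Agent.H79.Eul Pool.Agent.H79.Par

variable {d : ℕ} {a b : Polynomial ℂ} {S : Finset ℂ} {α β : ℂ → ℂ} {K : ℂ → ℝ}

/-
PROOF. Suppose α s ≠ 0 or β s ≠ 0 for some s ∈ S. Then qf has finitely many zeros (qf_zero) and rigid applies (T = Cut,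
cutA): d q y = dg y ^ 2 q (gg y) for y near s, y ≠ s (s ∈ S; gg y ≠ gg s for y ≠ s near s as dg s ≠ 0, and gg y is
not one of the other points of S). Multiply by (y - s)^2 and let y → s: d α s = α (gg s) (qf_lim2 at s and at gg s,
(gg y - gg s)/(y - s) → dg s ≠ 0, dg y → dg s). If ‖α‖ is maximal on S at s: d ‖α s‖ ≤ ‖α s‖, so α = 0 on S. Then multiply
by y - s: d β s = dg s * β (gg s) (qf_lim1), so ‖β (gg s)‖ K (gg s) = d ‖β s‖ K s; maximal s: β = 0 on S. Contradiction.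
-/

theorem tendsto_slope_gg {s : ℂ} (hb : b.eval s ≠ 0) :
    Tendsto (fun y => (gg a b y - gg a b s) / (y - s)) (𝓝[≠] s) (𝓝 (dg a b s)) := by
  have h := hasDerivAt_iff_tendsto_slope.1 (hasDerivAt_gg (a := a) (b := b) hb)
  refine h.congr fun y => ?_
  rw [slope_def_field]

theorem tendsto_dg {s : ℂ} (hb : b.eval s ≠ 0) :
    Tendsto (dg a b) (𝓝[≠] s) (𝓝 (dg a b s)) :=
  ((differentiableAt_dg hb).continuousAt.tendsto).mono_left nhdsWithin_le_nhds

theorem tendsto_gg_ne {s : ℂ} (hb : b.eval s ≠ 0) (hd : dg a b s ≠ 0) :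
    Tendsto (gg a b) (𝓝[≠] s) (𝓝[≠] (gg a b s)) :=
  (hasDerivAt_gg hb).tendsto_nhdsNE hd

/-- near a point of `S`, the points and their images are not in `S` -/
theorem ev_notMem {s : ℂ} (hb : b.eval s ≠ 0) (hd : dg a b s ≠ 0) :
    ∀ᶠ y in 𝓝[≠] s, y ∉ S ∧ b.eval y ≠ 0 ∧ gg a b y ∉ S := by
  have hS : ∀ t : ℂ, ∀ᶠ y in 𝓝[≠] t, y ∉ S := by
    intro t
    have h1 : ∀ᶠ y in 𝓝 t, y ∈ ((S.erase t : Finset ℂ) : Set ℂ)ᶜ :=
      (Finset.finite_toSet _).isClosed.isOpen_compl.mem_nhds (by simp)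
    filter_upwards [h1.filter_mono nhdsWithin_le_nhds, self_mem_nhdsWithin] with y hy hne
    intro hyS
    exact hy (Finset.mem_coe.2 (Finset.mem_erase.2 ⟨hne, hyS⟩))
  have h2 : ∀ᶠ y in 𝓝[≠] s, b.eval y ≠ 0 :=
    (b.continuous.continuousAt.eventually_ne hb).filter_mono nhdsWithin_le_nhds
  have h3 := (tendsto_gg_ne hb hd).eventually (hS (gg a b s))
  filter_upwards [hS s, h2, h3] with y h4 h5 h6
  exact ⟨h4, h5, h6⟩

theorem neutral (h : RatD d a b) (hq : QD a b S α β) (hK : ∀ s ∈ S, 0 < K s)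
    (hKg : ∀ s ∈ S, K (gg a b s) = K s * ‖dg a b s‖) : ∀ s ∈ S, α s = 0 ∧ β s = 0 := by
  by_contra hcon
  have hne : ∃ s ∈ S, α s ≠ 0 ∨ β s ≠ 0 := by
    by_contra hno
    apply hcon
    intro s hs
    by_contra h1
    apply hno
    refine ⟨s, hs, ?_⟩
    by_contra h2
    push Not at h2
    exact h1 h2
  have hid := rigid h (q := qf S α β) (S := S) qf_meas (fun z hz => qf_diff hz) (qf_zero hne)
    hq.push cut_meas (cut_mono hK) (fun z hz => cut_cover hz) (cut_fin hK hq.s1 hq.s2)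
    (cutA hq.inv hK hKg)
  have hdg : ∀ s ∈ S, dg a b s ≠ 0 := by
    intro s hs h0
    have h1 := hKg s hs
    rw [h0, norm_zero, mul_zero] at h1
    have h2 := hK _ (hq.inv s hs).2
    linarith
  have hev : ∀ s ∈ S, ∀ᶠ y in 𝓝[≠] s,
      (d : ℂ) * qf S α β y = dg a b y ^ 2 * qf S α β (gg a b y) ∧ gg a b y ≠ gg a b s ∧ y ≠ s := by
    intro s hs
    filter_upwards [ev_notMem (S := S) (hq.inv s hs).1 (hdg s hs), self_mem_nhdsWithin] with y hy hne
    exact ⟨hid y hy.1 hy.2.1 hy.2.2, fun h0 => hy.2.2 (h0 ▸ (hq.inv s hs).2), hne⟩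
  have hd2 : (2 : ℝ) ≤ d := by exact_mod_cast h.hd
  obtain ⟨s1, hs1, -⟩ := hne
  have hlim2 : ∀ s ∈ S, (d : ℂ) * α s = α (gg a b s) := by
    intro s hs
    have hb := (hq.inv s hs).1
    have hds := hdg s hs
    have t1 : Tendsto (fun y => (d : ℂ) * ((y - s) ^ 2 * qf S α β y)) (𝓝[≠] s)
        (𝓝 ((d : ℂ) * α s)) := (qf_lim2 hs).const_mul _
    have t2 := ((tendsto_dg (a := a) hb).pow 2).mul
      ((((tendsto_slope_gg (a := a) hb).inv₀ hds).pow 2).mul
        ((qf_lim2 (S := S) (α := α) (β := β) (hq.inv s hs).2).comp (tendsto_gg_ne hb hds)))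
    have e : dg a b s ^ 2 * ((dg a b s)⁻¹ ^ 2 * α (gg a b s)) = α (gg a b s) := by
      field_simp
    rw [e] at t2
    refine tendsto_nhds_unique t1 (t2.congr' ?_)
    filter_upwards [hev s hs] with y hy
    obtain ⟨h1, h2, h3⟩ := hy
    have h2' : gg a b y - gg a b s ≠ 0 := sub_ne_zero.2 h2
    have h3' : y - s ≠ 0 := sub_ne_zero.2 h3
    simp only [Function.comp_apply]
    have e2 : (d : ℂ) * ((y - s) ^ 2 * qf S α β y) =
        (y - s) ^ 2 * (dg a b y ^ 2 * qf S α β (gg a b y)) := by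
      rw [← h1]
      ring
    rw [e2, inv_div, div_pow]
    field_simp
  have hα : ∀ s ∈ S, α s = 0 := by
    obtain ⟨s0, hs0, hmax⟩ := Finset.exists_max_image S (fun s => ‖α s‖) ⟨s1, hs1⟩
    have h1 : (d : ℝ) * ‖α s0‖ = ‖α (gg a b s0)‖ := by
      rw [← hlim2 s0 hs0, norm_mul, Complex.norm_natCast]
    have h2 := hmax _ (hq.inv s0 hs0).2
    have h3 : ‖α s0‖ = 0 := by
      have := norm_nonneg (α s0)
      nlinarith
    intro s hs
    have h4 := hmax s hs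
    rw [h3] at h4
    exact norm_le_zero_iff.1 h4
  have hlim1 : ∀ s ∈ S, (d : ℂ) * β s = dg a b s * β (gg a b s) := by
    intro s hs
    have hb := (hq.inv s hs).1
    have hds := hdg s hs
    have t1 : Tendsto (fun y => (d : ℂ) * ((y - s) * qf S α β y)) (𝓝[≠] s)
        (𝓝 ((d : ℂ) * β s)) := (qf_lim1 hα hs).const_mul _
    have t2 := ((tendsto_dg (a := a) hb).pow 2).mul
      (((tendsto_slope_gg (a := a) hb).inv₀ hds).mul
        ((qf_lim1 (S := S) (α := α) (β := β) hα (hq.inv s hs).2).comp (tendsto_gg_ne hb hds)))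
    have e : dg a b s ^ 2 * ((dg a b s)⁻¹ * β (gg a b s)) = dg a b s * β (gg a b s) := by
      field_simp
    rw [e] at t2
    refine tendsto_nhds_unique t1 (t2.congr' ?_)
    filter_upwards [hev s hs] with y hy
    obtain ⟨h1, h2, h3⟩ := hy
    have h2' : gg a b y - gg a b s ≠ 0 := sub_ne_zero.2 h2
    have h3' : y - s ≠ 0 := sub_ne_zero.2 h3
    simp only [Function.comp_apply]
    have e2 : (d : ℂ) * ((y - s) * qf S α β y) =
        (y - s) * (dg a b y ^ 2 * qf S α β (gg a b y)) := by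
      rw [← h1]
      ring
    rw [e2, inv_div]
    field_simp
  have hβ : ∀ s ∈ S, β s = 0 := by
    obtain ⟨s0, hs0, hmax⟩ := Finset.exists_max_image S (fun s => ‖β s‖ * K s) ⟨s1, hs1⟩
    have h1 : (d : ℝ) * ‖β s0‖ = ‖dg a b s0‖ * ‖β (gg a b s0)‖ := by
      rw [← norm_mul, ← hlim1 s0 hs0, norm_mul, Complex.norm_natCast]
    have h2 : ‖β (gg a b s0)‖ * K (gg a b s0) ≤ ‖β s0‖ * K s0 := hmax _ (hq.inv s0 hs0).2
    rw [hKg s0 hs0] at h2
    have h5 : (d : ℝ) * (‖β s0‖ * K s0) ≤ ‖β s0‖ * K s0 := by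
      calc (d : ℝ) * (‖β s0‖ * K s0) = ((d : ℝ) * ‖β s0‖) * K s0 := by ring
        _ = ‖β (gg a b s0)‖ * (K s0 * ‖dg a b s0‖) := by rw [h1]; ring
        _ ≤ ‖β s0‖ * K s0 := h2
    have h6 : 0 ≤ ‖β s0‖ * K s0 := mul_nonneg (norm_nonneg _) (hK s0 hs0).le
    have h3 : ‖β s0‖ * K s0 = 0 := by nlinarith
    intro s hs
    have h4 : ‖β s‖ * K s ≤ ‖β s0‖ * K s0 := hmax s hs
    rw [h3] at h4
    have h7 := hK s hs
    by_contra h8
    have h9 : 0 < ‖β s‖ * K s := mul_pos (norm_pos_iff.2 h8) h7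
    linarith
  exact hcon fun s hs => ⟨hα s hs, hβ s hs⟩

end Pool.Agent.H61.TT
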