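import Pool.Agent.H61.TT.KFun
import Pool.Agent.H61.TT.Data
import Pool.Agent.H61.TT.Neutral

set_option autoImplicit false

open Filter Topology Polynomial Metric Set MeasureTheory

namespace Pool.Agent.H61.TT

open Pool.Agent.H44.Fatou Pool.Agent.H32.BT Pool.Agent.H79.Eul Pool.Agent.H79.Par

/-
PROOF. Suppose XX v0 v n (x 0) = 0 for all v. I = range n, p = x, A = 0, B = cc v0 x n: LL V = XV v0 V n (x 0) (XV_val).
Inv by XV_tele at z = x 0: it n (x 0) = x n = x 0, trD n (x 0) = 1. LL (η/b^2) = 0 by xi_surj and XX_eq. data with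
S = image x (range n) (cyc_inv with k = 0) and neutral with exists_K: be s = 0 for all s in S. At s = x j, by injectivity,
be (x j) = B j * dg (x j) = cc * dg (x j) ≠ 0: product of nonzero derivatives (trD n (x 0) = 1 ≠ 0). Contradiction (j = 0).
-/

theorem tt0 {d : ℕ} {v0 : E d} (hd : 2 ≤ d) (hcop : IsCoprime (pol v0.1) (pol v0.2))
    (hdeg : max (pol v0.1).natDegree (pol v0.2).natDegree = d) (x : ℕ → ℂ) {n : ℕ} (hn : 0 < n)
    (hx : x n = x 0) (ho : Orb v0 x n) (hinj : ∀ i j : ℕ, i < n → j < n → x i = x j → i = j)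
    (hmul : trD v0 n (x 0) = 1) : ∃ v : E d, XX v0 v n (x 0) ≠ 0 := by
  classical
  by_contra hcon
  have hXX : ∀ v : E d, XX v0 v n (x 0) = 0 := by
    intro v
    by_contra h1
    exact hcon ⟨v, h1⟩
  have h : RatD d (pol v0.1) (pol v0.2) := ⟨hd, hcop, hdeg⟩
  have hb : ∀ i ∈ Finset.range n, (pol v0.2).eval (x i) ≠ 0 :=
    fun i hi => (orb_gg ho (Finset.mem_range.1 hi)).1
  have hLL : ∀ V : ℂ → ℂ, LL (Finset.range n) x (fun _ => 0) (cc v0 x n) V =
      XV v0 V n (x 0) := by
    intro V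
    rw [XV_val ho V]
    unfold LL
    apply Finset.sum_congr rfl
    intro i _
    rw [zero_mul, zero_add]
  have hit : it v0 n (x 0) = x 0 := by
    rw [orb_it ho le_rfl, hx]
  have hinv : Inv (pol v0.1) (pol v0.2) (Finset.range n) x (fun _ => 0) (cc v0 x n) := by
    intro V _
    rw [hLL, hLL, XV_tele, hit, hmul]
    ring
  have hη : ∀ η : Polynomial ℂ, η.natDegree ≤ 2 * d →
      LL (Finset.range n) x (fun _ => 0) (cc v0 x n)
        (fun z => η.eval z / (pol v0.2).eval z ^ 2) = 0 := by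
    intro η h1
    obtain ⟨v, hv⟩ := xi_surj h h1
    have h2 : xi v0 v = fun z => η.eval z / (pol v0.2).eval z ^ 2 := funext hv
    rw [hLL, ← h2, ← XX_eq, hXX v]
  have hS : ∀ s ∈ (Finset.range n).image x, (pol v0.2).eval s ≠ 0 ∧
      gg (pol v0.1) (pol v0.2) s ∈ (Finset.range n).image x := by
    have h1 := cyc_inv (v0 := v0) (x := x) (k := 0) hn (by simpa using hx)
      (by simpa using ho)
    simpa using h1
  have hmem : ∀ i ∈ Finset.range n, x i ∈ (Finset.range n).image x :=
    fun i hi => Finset.mem_image_of_mem x hi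
  have hq := data h hb hinv hη ((Finset.range n).image x) hS
    (fun i hi hni => absurd (hmem i hi) hni)
  obtain ⟨K, hK⟩ := exists_K hn hx ho (by rw [hmul]; simp)
  have h3 := (neutral h hq (fun s hs => (hK s hs).1) (fun s hs => (hK s hs).2) (x 0)
    (hmem 0 (Finset.mem_range.2 hn))).2
  have hfil : (Finset.range n).filter (fun i => x i = x 0) = {0} := by
    ext i
    simp only [Finset.mem_filter, Finset.mem_range, Finset.mem_singleton]
    constructor
    · rintro ⟨h4, h5⟩
      exact hinj i 0 h4 hn h5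
    · rintro rfl
      exact ⟨hn, rfl⟩
  have h4 := cc_mul ho hn
  have h5 : trD v0 0 (x 0) = 1 := by simp [trD]
  unfold be at h3
  rw [hfil, Finset.sum_singleton, zero_mul, zero_add] at h3
  rw [h5, mul_one, hmul, h3] at h4
  exact zero_ne_one h4

end Pool.Agent.H61.TT
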