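import Pool.Agent.H61.TT.KFun
import Pool.Agent.H61.TT.Data
import Pool.Agent.H61.TT.Neutral

set_option autoImplicit false

open Filter Topology Polynomial Metric Set MeasureTheory

namespace Pool.Agent.H61.TT

open Pool.Agent.H44.Fatou Pool.Agent.H32.BT Pool.Agent.H79.Eul Pool.Agent.H79.Par

/-
PROOF. Suppose deriv (XX v0 v n) (x 0) = 0 for all v. I = range n, p = x, A j = cc n j * trD j (x 0), B from XV_der:
LL V = deriv (XV v0 V n) (x 0) for V differentiable at the x j. Inv: differentiate XV_tele at x 0: the derivative of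
V (it n z) - trD n z * V z is V'(x n) trD n (x 0) - 0 * V (x 0) - trD n (x 0) V'(x 0) = 0 (x n = x 0, h2). LL (η/b^2) = 0 by
xi_surj. data, neutral (exists_K): al s = 0 on S = image x (range n). But al (x 0) is the sum over the j < n with
x j = x 0 of A j * dg (x j) = trD n (x 0) = 1 (cc_mul), i.e. a positive integer (j = 0 is one of them). Contradiction.
-/

theorem tt1 {d : ℕ} {v0 : E d} (hd : 2 ≤ d) (hcop : IsCoprime (pol v0.1) (pol v0.2))
    (hdeg : max (pol v0.1).natDegree (pol v0.2).natDegree = d) (x : ℕ → ℂ) {n : ℕ} (hn : 0 < n)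
    (hx : x n = x 0) (ho : Orb v0 x n) (hmul : trD v0 n (x 0) = 1)
    (h2 : HasDerivAt (trD v0 n) 0 (x 0)) : ∃ v : E d, deriv (XX v0 v n) (x 0) ≠ 0 := by
  by_contra hcon
  push Not at hcon
  have h : RatD d (pol v0.1) (pol v0.2) := ⟨hd, hcop, hdeg⟩
  obtain ⟨B, hB⟩ := XV_der ho
  set A : ℕ → ℂ := fun j => cc v0 x n j * trD v0 j (x 0) with hA
  have hLL : ∀ V : ℂ → ℂ, (∀ j < n, DifferentiableAt ℂ V (x j)) →
      HasDerivAt (XV v0 V n) (LL (Finset.range n) x A B V) (x 0) := fun V hV => hB V hV
  have hb : ∀ i ∈ Finset.range n, (pol v0.2).eval (x i) ≠ 0 :=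
    fun i hi => (orb_gg ho (Finset.mem_range.1 hi)).1
  have hxn : it v0 n (x 0) = x 0 := by rw [orb_it ho le_rfl, hx]
  have hit : HasDerivAt (fun z => it v0 n z) (trD v0 n (x 0)) (x 0) := by
    apply tr_hasDerivAt
    intro i hi
    rw [orb_it ho hi.le]
    exact (ho i hi).1
  have hinv : Inv (pol v0.1) (pol v0.2) (Finset.range n) x A B := by
    intro V hV
    have hV1 : ∀ j < n, DifferentiableAt ℂ (fun z => V (gg (pol v0.1) (pol v0.2) z)) (x j) := by
      intro j hj
      have h3 := (hV j (Finset.mem_range.2 hj)).2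
      have h4 : DifferentiableAt ℂ (gg (pol v0.1) (pol v0.2)) (x j) :=
        (hasDerivAt_gg (hb j (Finset.mem_range.2 hj))).differentiableAt
      exact h3.comp (x j) h4
    have hV2 : ∀ j < n, DifferentiableAt ℂ
        (fun z => dg (pol v0.1) (pol v0.2) z * V z) (x j) := by
      intro j hj
      have h3 := (hV j (Finset.mem_range.2 hj)).1
      have h4 : DifferentiableAt ℂ (dg (pol v0.1) (pol v0.2)) (x j) :=
        differentiableAt_dg (hb j (Finset.mem_range.2 hj))
      exact h4.mul h3
    have e1 := hLL _ hV1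
    have e2 := hLL _ hV2
    have hV0 : DifferentiableAt ℂ V (x 0) := (hV 0 (Finset.mem_range.2 hn)).1
    have e3 : HasDerivAt (fun z => V (it v0 n z)) (deriv V (x 0) * trD v0 n (x 0)) (x 0) := by
      have h5 : HasDerivAt V (deriv V (x 0)) (it v0 n (x 0)) := by
        rw [hxn]
        exact hV0.hasDerivAt
      exact h5.comp (x 0) hit
    have e4 : HasDerivAt (fun z => trD v0 n z * V z)
        (0 * V (x 0) + trD v0 n (x 0) * deriv V (x 0)) (x 0) := h2.mul hV0.hasDerivAt
    have e5 := (e2.add e3).sub e4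
    have e6 : XV v0 (fun z => V (gg (pol v0.1) (pol v0.2) z)) n =
        (XV v0 (fun z => dg (pol v0.1) (pol v0.2) z * V z) n + fun z => V (it v0 n z)) -
          fun z => trD v0 n z * V z := by
      funext z
      rw [XV_tele]
      rfl
    rw [e6] at e1
    have e7 := e1.unique e5
    rw [e7, hmul]
    ring
  have hη : ∀ η : Polynomial ℂ, η.natDegree ≤ 2 * d →
      LL (Finset.range n) x A B (fun z => η.eval z / (pol v0.2).eval z ^ 2) = 0 := by
    intro η hηd
    obtain ⟨v, hv⟩ := xi_surj h hηd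
    have h3 : (fun z => η.eval z / (pol v0.2).eval z ^ 2) = xi v0 v := by
      funext z
      exact (hv z).symm
    have hdiff : ∀ j < n, DifferentiableAt ℂ (xi v0 v) (x j) := by
      intro j hj
      rw [← h3]
      have h4 := hb j (Finset.mem_range.2 hj)
      exact (η.differentiableAt).fun_div ((pol v0.2).differentiableAt.fun_pow 2) (pow_ne_zero 2 h4)
    have h5 := hLL _ hdiff
    have h6 : XX v0 v n = XV v0 (xi v0 v) n := by
      funext z
      exact XX_eq v0 v n z
    rw [h3, ← h5.deriv, ← h6]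
    exact hcon v
  have hcyc := cyc_inv (k := 0) (x := x) (v0 := v0) hn (by rw [Nat.zero_add]; exact hx)
    (by rw [Nat.zero_add]; exact ho)
  rw [Nat.zero_add] at hcyc
  have hQD := data h hb hinv hη ((Finset.range n).image x) hcyc
    (fun i hi hni => absurd (Finset.mem_image_of_mem x hi) hni)
  obtain ⟨K, hK⟩ := exists_K hn hx ho (by rw [hmul, norm_one])
  have hfin := neutral h hQD (fun s hs => (hK s hs).1) (fun s hs => (hK s hs).2)
  have h0 := (hfin (x 0) (Finset.mem_image_of_mem x (Finset.mem_range.2 hn))).1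
  unfold al at h0
  have h7 : ∑ i ∈ (Finset.range n).filter (fun i => x i = x 0),
      A i * dg (pol v0.1) (pol v0.2) (x i) =
      ∑ i ∈ (Finset.range n).filter (fun i => x i = x 0), (1 : ℂ) := by
    apply Finset.sum_congr rfl
    intro i hi
    have hi' := Finset.mem_range.1 (Finset.mem_filter.1 hi).1
    rw [hA]
    show cc v0 x n i * trD v0 i (x 0) * dg (pol v0.1) (pol v0.2) (x i) = 1
    rw [cc_mul ho hi', hmul]
  rw [h7, Finset.sum_const, nsmul_eq_mul, mul_one] at h0
  have h8 : ((Finset.range n).filter (fun i => x i = x 0)).card = 0 := by exact_mod_cast h0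
  rw [Finset.card_eq_zero] at h8
  have h9 : (0 : ℕ) ∈ (Finset.range n).filter (fun i => x i = x 0) :=
    Finset.mem_filter.2 ⟨Finset.mem_range.2 hn, rfl⟩
  rw [h8] at h9
  exact absurd h9 (Finset.notMem_empty 0)

end Pool.Agent.H61.TT
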