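import Pool.Agent.H61.TT.KFun
import Pool.Agent.H61.TT.Data
import Pool.Agent.H61.TT.Neutral
import Pool.Agent.H61.TT.CutB

/-!
# The functional of a critical orbit landing on a cycle: general form and neutral cycles
-/

set_option autoImplicit false

open Filter Topology Polynomial Metric Set MeasureTheory

namespace Pool.Agent.H61.TT

open Pool.Agent.H44.Fatou Pool.Agent.H32.BT Pool.Agent.H79.Eul Pool.Agent.H79.Par

/-- simple poles: the relation between the residues -/
theorem simple_rel {d : ℕ} {a b : Polynomial ℂ} {S : Finset ℂ} {α β : ℂ → ℂ} (h : RatD d a b)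
    (hq : QD a b S α β) (hα : ∀ s ∈ S, α s = 0) (hdg : ∀ s ∈ S, dg a b s ≠ 0) :
    ∀ s ∈ S, (d : ℂ) * β s = dg a b s * β (gg a b s) := by
  by_cases hne : ∃ s ∈ S, α s ≠ 0 ∨ β s ≠ 0
  swap
  · intro s hs
    have hβ : ∀ t ∈ S, β t = 0 := by
      intro t ht
      by_contra h0
      exact hne ⟨t, ht, Or.inr h0⟩
    rw [hβ s hs, hβ _ (hq.inv s hs).2]
    ring
  have hid := rigid h (q := qf S α β) (S := S) qf_meas (fun z hz => qf_diff hz) (qf_zero hne)
    hq.push cut_meas (cut_mono (K := fun _ => 1) fun _ _ => one_pos) (fun z hz => cut_cover hz)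
    (cut_fin (fun _ _ => one_pos) hq.s1 hq.s2) (cutB hq.inv hα)
  intro s hs
  have hb := (hq.inv s hs).1
  have hds := hdg s hs
  have hev : ∀ᶠ y in 𝓝[≠] s,
      (d : ℂ) * qf S α β y = dg a b y ^ 2 * qf S α β (gg a b y) ∧ gg a b y ≠ gg a b s ∧ y ≠ s := by
    filter_upwards [ev_notMem (S := S) (hq.inv s hs).1 (hdg s hs), self_mem_nhdsWithin] with y hy hne
    exact ⟨hid y hy.1 hy.2.1 hy.2.2, fun h0 => hy.2.2 (h0 ▸ (hq.inv s hs).2), hne⟩
  have t1 : Tendsto (fun y => (d : ℂ) * ((y - s) * qf S α β y)) (𝓝[≠] s)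
      (𝓝 ((d : ℂ) * β s)) := (qf_lim1 hα hs).const_mul _
  have t2 := ((tendsto_dg (a := a) hb).pow 2).mul
    (((tendsto_slope_gg (a := a) hb).inv₀ hds).mul
      ((qf_lim1 (S := S) (α := α) (β := β) hα (hq.inv s hs).2).comp (tendsto_gg_ne hb hds)))
  have e : dg a b s ^ 2 * ((dg a b s)⁻¹ * β (gg a b s)) = dg a b s * β (gg a b s) := by
    field_simp
  rw [e] at t2
  refine tendsto_nhds_unique t1 (t2.congr' ?_)
  filter_upwards [hev] with y hy
  obtain ⟨h1, h2, h3⟩ := hy
  have h2' : gg a b y - gg a b s ≠ 0 := sub_ne_zero.2 h2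
  have h3' : y - s ≠ 0 := sub_ne_zero.2 h3
  simp only [Function.comp_apply]
  have e2 : (d : ℂ) * ((y - s) * qf S α β y) =
      (y - s) * (dg a b y ^ 2 * qf S α β (gg a b y)) := by
    rw [← h1]
    ring
  rw [e2, inv_div]
  field_simp

/-- general form: the functional is not zero if there is no quadratic differential -/
theorem tt_core {d : ℕ} {v0 : E d} (hd : 2 ≤ d) (hcop : IsCoprime (pol v0.1) (pol v0.2))
    (hdeg : max (pol v0.1).natDegree (pol v0.2).natDegree = d) {c0 : ℂ} (hc : wv v0 c0 = 0)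
    (hc2 : ev v0.2 c0 ≠ 0) (x : ℕ → ℂ) {k n : ℕ} (hn : 0 < n)
    (hx0 : x 0 = ev v0.1 c0 / ev v0.2 c0) (ho : Orb v0 x (k + n)) (hx : x (k + n) = x k)
    (hne : trD v0 (k + n) (x 0) ≠ 0) (hlam1 : trD v0 n (x k) ≠ 1)
    (hzero : ∀ α β : ℂ → ℂ, QD (pol v0.1) (pol v0.2) ((Finset.range (k + n)).image x) α β →
      (∀ s ∈ (Finset.range (k + n)).image x, α s = 0) →
        ∀ s ∈ (Finset.range (k + n)).image x, β s = 0) :
    ∃ v : E d, trD v0 k (x 0) * xi v0 v c0 + XX v0 v k (x 0) -
      XX v0 v n (x k) / (1 - trD v0 n (x k)) ≠ 0 := by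
  by_contra hcon
  push Not at hcon
  have hR : RatD d (pol v0.1) (pol v0.2) := ⟨hd, hcop, hdeg⟩
  set lam : ℂ := trD v0 n (x k) with hlam
  set del : ℂ := trD v0 k (x 0) with hdel
  have h1lam : (1 : ℂ) - lam ≠ 0 := by
    intro h
    exact hlam1 (sub_eq_zero.mp h).symm
  have hdgx : ∀ j < k + n, dg (pol v0.1) (pol v0.2) (x j) ≠ 0 := by
    intro j hj h0
    have := cc_mul ho hj
    rw [h0, mul_zero] at this
    exact hne this.symm
  have hdel0 : del ≠ 0 := by
    intro h0
    have := cc_mul ho (by omega : k < k + n)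
    rw [← hdel, h0, mul_zero, zero_mul] at this
    exact hne this.symm
  have hdgc : dg (pol v0.1) (pol v0.2) c0 = 0 := by
    unfold dg
    rw [← wv_pol, hc, zero_div]
  have hggc : gg (pol v0.1) (pol v0.2) c0 = x 0 := by
    unfold gg
    rw [← ev_pol, ← ev_pol, hx0]
  -- the two orbits
  have hok : Orb v0 x k := fun j hj => ho j (by omega)
  have hon : Orb v0 (fun i => x (k + i)) n := by
    intro j hj
    have := ho (k + j) (by omega)
    refine ⟨this.1, ?_⟩
    show _ = x (k + (j + 1))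
    rw [this.2]
    rfl
  -- the functional
  obtain ⟨p, hp0, hp1⟩ : ∃ p : ℕ → ℂ, p 0 = c0 ∧ ∀ j, p (j + 1) = x j :=
    ⟨fun i => Nat.casesOn i c0 x, rfl, fun _ => rfl⟩
  obtain ⟨B, hB0, hB1, hB2⟩ : ∃ B : ℕ → ℂ, B 0 = del ∧ (∀ j < k, B (j + 1) = cc v0 x k j) ∧
      ∀ j, B (k + j + 1) = -(cc v0 (fun i => x (k + i)) n j) / (1 - lam) := by
    refine ⟨fun i => Nat.casesOn i del (fun j => if j < k then cc v0 x k j
      else -(cc v0 (fun i => x (k + i)) n (j - k)) / (1 - lam)), rfl, fun j hj => ?_,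
      fun j => ?_⟩
    · show (if j < k then cc v0 x k j
        else -(cc v0 (fun i => x (k + i)) n (j - k)) / (1 - lam)) = _
      rw [if_pos hj]
    · show (if k + j < k then cc v0 x k (k + j)
        else -(cc v0 (fun i => x (k + i)) n (k + j - k)) / (1 - lam)) = _
      rw [if_neg (by omega), Nat.add_sub_cancel_left]
  obtain ⟨A, hA⟩ : ∃ A : ℕ → ℂ, ∀ j, A j = 0 := ⟨fun _ => 0, fun _ => rfl⟩
  have hLL0 : ∀ V : ℂ → ℂ, LL (Finset.range (k + n + 1)) p A B V =
      ∑ i ∈ Finset.range (k + n + 1), B i * V (p i) := by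
    intro V
    unfold LL
    refine Finset.sum_congr rfl fun i _ => ?_
    rw [hA]
    ring
  have hLL : ∀ V : ℂ → ℂ, LL (Finset.range (k + n + 1)) p A B V =
      del * V c0 + XV v0 V k (x 0) - XV v0 V n (x k) / (1 - lam) := by
    intro V
    have e1 := XV_val hok V
    have e2 := XV_val hon V
    simp only [add_zero] at e2
    rw [hLL0, Finset.sum_range_succ', Finset.sum_range_add, e1, e2]
    have h1 : ∑ j ∈ Finset.range k, B (j + 1) * V (p (j + 1)) =
        ∑ j ∈ Finset.range k, cc v0 x k j * V (x j) := by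
      refine Finset.sum_congr rfl fun j hj => ?_
      rw [hB1 j (Finset.mem_range.mp hj), hp1]
    have h2 : ∑ j ∈ Finset.range n, B (k + j + 1) * V (p (k + j + 1)) =
        -(∑ j ∈ Finset.range n, cc v0 (fun i => x (k + i)) n j * V (x (k + j))) /
          (1 - lam) := by
      rw [← Finset.sum_neg_distrib, Finset.sum_div]
      refine Finset.sum_congr rfl fun j hj => ?_
      rw [hB2, hp1]
      ring
    rw [h1, h2, hB0, hp0]
    ring
  have hinv : Inv (pol v0.1) (pol v0.2) (Finset.range (k + n + 1)) p A B := by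
    intro V _
    rw [hLL, hLL, XV_tele, XV_tele, hggc, hdgc]
    have e1 : it v0 k (x 0) = x k := orb_it hok le_rfl
    have e2 : it v0 n (x k) = x k := by
      have := orb_it hon (le_refl n)
      simp only [add_zero] at this
      rw [this, hx]
    rw [e1, e2, ← hlam, ← hdel]
    field_simp
    ring
  have hη : ∀ η : Polynomial ℂ, η.natDegree ≤ 2 * d →
      LL (Finset.range (k + n + 1)) p A B (fun z => η.eval z / (pol v0.2).eval z ^ 2) = 0 := by
    intro η hd
    obtain ⟨v, hv⟩ := xi_surj hR hd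
    have hfun : (fun z => η.eval z / (pol v0.2).eval z ^ 2) = xi v0 v := by
      funext z
      exact (hv z).symm
    rw [hfun, hLL, ← XX_eq, ← XX_eq]
    exact hcon v
  -- the points
  have hS := cyc_inv hn hx ho
  obtain ⟨S, hSdef⟩ : ∃ S : Finset ℂ, S = (Finset.range (k + n)).image x := ⟨_, rfl⟩
  rw [← hSdef] at hS hzero
  have hxS : ∀ j < k + n, x j ∈ S := by
    intro j hj
    rw [hSdef]
    exact Finset.mem_image.mpr ⟨j, Finset.mem_range.mpr hj, rfl⟩
  have hSx : ∀ s ∈ S, ∃ j < k + n, x j = s := by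
    intro s hs
    rw [hSdef] at hs
    obtain ⟨j, hj, hjc⟩ := Finset.mem_image.mp hs
    exact ⟨j, Finset.mem_range.mp hj, hjc⟩
  have hc0S : c0 ∉ S := by
    intro h
    obtain ⟨j, hj, hjc⟩ := hSx c0 h
    exact hdgx j hj (by rw [hjc]; exact hdgc)
  have hbp : ∀ i ∈ Finset.range (k + n + 1), (pol v0.2).eval (p i) ≠ 0 := by
    intro i hi
    have hi' : i < k + n + 1 := Finset.mem_range.mp hi
    rcases i with _ | j
    · rw [hp0, ← ev_pol]
      exact hc2
    · rw [hp1]
      exact (orb_gg ho (by omega)).1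
  have hpS : ∀ i ∈ Finset.range (k + n + 1), p i ∉ S →
      A i * dg (pol v0.1) (pol v0.2) (p i) = 0 ∧
      A i * deriv (dg (pol v0.1) (pol v0.2)) (p i) +
        B i * dg (pol v0.1) (pol v0.2) (p i) = 0 := by
    intro i hi hiS
    have hi' : i < k + n + 1 := Finset.mem_range.mp hi
    rcases i with _ | j
    · rw [hA, hp0, hdgc]
      exact ⟨by ring, by ring⟩
    · exfalso
      rw [hp1] at hiS
      exact hiS (hxS j (by omega))
  have hQ := data hR hbp hinv hη S hS hpS
  have hα : ∀ s ∈ S, al (pol v0.1) (pol v0.2) (Finset.range (k + n + 1)) p A s = 0 := by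
    intro s _
    unfold al
    refine Finset.sum_eq_zero fun i _ => ?_
    rw [hA]
    ring
  have hβ := hzero _ _ hQ hα
  -- the sums of the coefficients vanish
  have hsum : ∀ s : ℂ, s ∈ S →
      ∑ i ∈ Finset.filter (fun i : ℕ => p i = s) (Finset.range (k + n + 1)), B i = 0 := by
    intro s hs
    have h := hβ s hs
    unfold be at h
    have h' : (∑ i ∈ Finset.filter (fun i : ℕ => p i = s) (Finset.range (k + n + 1)), B i) *
        dg (pol v0.1) (pol v0.2) s = 0 := by
      rw [← h, Finset.sum_mul]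
      refine Finset.sum_congr rfl fun i hi => ?_
      rw [(Finset.mem_filter.mp hi).2, hA]
      ring
    rcases mul_eq_zero.mp h' with h'' | h''
    · exact h''
    · exfalso
      obtain ⟨j, hj, hjs⟩ := hSx s hs
      exact hdgx j hj (by rw [hjs]; exact h'')
  have hLU : ∀ U : ℂ → ℂ, LL (Finset.range (k + n + 1)) p A B U = del * U c0 := by
    intro U
    rw [hLL0, ← Finset.sum_filter_add_sum_filter_not (Finset.range (k + n + 1))
      (fun i : ℕ => p i ∈ S)]
    have hz1 : ∑ i ∈ Finset.filter (fun i : ℕ => p i ∈ S) (Finset.range (k + n + 1)),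
        B i * U (p i) = 0 := by
      rw [← Finset.sum_fiberwise_of_maps_to
        (s := Finset.filter (fun i : ℕ => p i ∈ S) (Finset.range (k + n + 1))) (t := S) (g := p)
        (fun i hi => (Finset.mem_filter.mp hi).2)]
      refine Finset.sum_eq_zero fun s hs => ?_
      have hf : Finset.filter (fun i : ℕ => p i = s)
          (Finset.filter (fun i : ℕ => p i ∈ S) (Finset.range (k + n + 1))) =
          Finset.filter (fun i : ℕ => p i = s) (Finset.range (k + n + 1)) := by
        refine Finset.ext fun i => ?_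
        rw [Finset.mem_filter, Finset.mem_filter, Finset.mem_filter]
        constructor
        · rintro ⟨⟨h1, _⟩, h2⟩
          exact ⟨h1, h2⟩
        · rintro ⟨h1, h2⟩
          exact ⟨⟨h1, by rw [h2]; exact hs⟩, h2⟩
      rw [hf]
      have : ∑ i ∈ Finset.filter (fun i : ℕ => p i = s) (Finset.range (k + n + 1)),
          B i * U (p i) =
          (∑ i ∈ Finset.filter (fun i : ℕ => p i = s) (Finset.range (k + n + 1)), B i) *
            U s := by
        rw [Finset.sum_mul]
        refine Finset.sum_congr rfl fun i hi => ?_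
        rw [(Finset.mem_filter.mp hi).2]
      rw [this, hsum s hs, zero_mul]
    have hfil : Finset.filter (fun i : ℕ => ¬ p i ∈ S) (Finset.range (k + n + 1)) =
        ({0} : Finset ℕ) := by
      refine Finset.ext fun i => ?_
      rw [Finset.mem_filter, Finset.mem_singleton, Finset.mem_range]
      constructor
      · rintro ⟨h1, h2⟩
        rcases i with _ | j
        · rfl
        · rw [hp1] at h2
          exact absurd (hxS j (by omega)) h2
      · rintro rfl
        rw [hp0]
        exact ⟨by omega, hc0S⟩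
    rw [hz1, zero_add, hfil, Finset.sum_singleton, hB0, hp0]
  have hfin := hinv (fun _ => 1) (fun i _ => ⟨differentiableAt_const _, differentiableAt_const _⟩)
  rw [hLU, hLU, hdgc] at hfin
  apply hdel0
  simpa using hfin

/-- the product of the derivatives along an orbit -/
theorem prod_trD {d : ℕ} {v0 : E d} {y : ℕ → ℂ} {m : ℕ} (hy : Orb v0 y m) :
    ∀ j ≤ m, ∏ i ∈ Finset.range j, dg (pol v0.1) (pol v0.2) (y i) = trD v0 j (y 0) := by
  intro j
  induction j with
  | zero => intro _; simp [trD]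
  | succ j ih =>
    intro hj
    rw [Finset.prod_range_succ, ih (by omega), trD_succ, orb_it hy (by omega : j ≤ m)]
    ring

/-- a critical orbit landing on a non repelling cycle, multiplier different from one -/
theorem tt3 {d : ℕ} {v0 : E d} (hd : 2 ≤ d) (hcop : IsCoprime (pol v0.1) (pol v0.2))
    (hdeg : max (pol v0.1).natDegree (pol v0.2).natDegree = d) {c0 : ℂ} (hc : wv v0 c0 = 0)
    (hc2 : ev v0.2 c0 ≠ 0) (x : ℕ → ℂ) {k n : ℕ} (hn : 0 < n)
    (hx0 : x 0 = ev v0.1 c0 / ev v0.2 c0) (ho : Orb v0 x (k + n)) (hx : x (k + n) = x k)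
    (hne : trD v0 (k + n) (x 0) ≠ 0) (hlam1 : trD v0 n (x k) ≠ 1)
    (hlam : ‖trD v0 n (x k)‖ ≤ 1) :
    ∃ v : E d, trD v0 k (x 0) * xi v0 v c0 + XX v0 v k (x 0) -
      XX v0 v n (x k) / (1 - trD v0 n (x k)) ≠ 0 := by
  refine tt_core hd hcop hdeg hc hc2 x hn hx0 ho hx hne hlam1 ?_
  intro α β hQ hα
  have hR : RatD d (pol v0.1) (pol v0.2) := ⟨hd, hcop, hdeg⟩
  have hdgx : ∀ j < k + n, dg (pol v0.1) (pol v0.2) (x j) ≠ 0 := by
    intro j hj h0
    have := cc_mul ho hj
    rw [h0, mul_zero] at this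
    exact hne this.symm
  have hdg : ∀ s ∈ (Finset.range (k + n)).image x, dg (pol v0.1) (pol v0.2) s ≠ 0 := by
    intro s hs
    obtain ⟨j, hj, rfl⟩ := Finset.mem_image.mp hs
    exact hdgx j (Finset.mem_range.mp hj)
  have hrel := simple_rel hR hQ hα hdg
  have hrelx : ∀ j < k + n, (d : ℂ) * β (x j) =
      dg (pol v0.1) (pol v0.2) (x j) * β (x (j + 1)) := by
    intro j hj
    have h1 := hrel (x j) (Finset.mem_image.mpr ⟨j, Finset.mem_range.mpr hj, rfl⟩)
    rwa [(orb_gg ho hj).2] at h1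
  have hd0 : (d : ℂ) ≠ 0 := by exact_mod_cast (by omega : d ≠ 0)
  have hon : Orb v0 (fun i => x (k + i)) n := by
    intro j hj
    have := ho (k + j) (by omega)
    refine ⟨this.1, ?_⟩
    show _ = x (k + (j + 1))
    rw [this.2]
    rfl
  -- around the cycle
  have hcyc : ∀ j ≤ n, (d : ℂ) ^ j * β (x k) =
      (∏ i ∈ Finset.range j, dg (pol v0.1) (pol v0.2) (x (k + i))) * β (x (k + j)) := by
    intro j
    induction j with
    | zero => intro _; simp
    | succ j ih =>
      intro hj
      have h1 := ih (by omega)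
      have h2 := hrelx (k + j) (by omega)
      rw [Finset.prod_range_succ, pow_succ]
      calc (d : ℂ) ^ j * d * β (x k) = d * ((d : ℂ) ^ j * β (x k)) := by ring
        _ = (∏ i ∈ Finset.range j, dg (pol v0.1) (pol v0.2) (x (k + i))) *
            (d * β (x (k + j))) := by rw [h1]; ring
        _ = _ := by rw [h2]; ring
  have hk0 : β (x k) = 0 := by
    have h1 := hcyc n le_rfl
    have h2 := prod_trD hon n le_rfl
    simp only [add_zero] at h2
    rw [h2, hx] at h1
    by_contra h0
    have h3 : (d : ℂ) ^ n = trD v0 n (x k) := mul_right_cancel₀ h0 h1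
    have h4 : (d : ℝ) ^ n = ‖trD v0 n (x k)‖ := by
      rw [← h3, norm_pow, Complex.norm_natCast]
    have h5 : (1 : ℝ) < (d : ℝ) ^ n := by
      apply one_lt_pow₀ _ (by omega)
      have : (2 : ℝ) ≤ d := by exact_mod_cast hd
      linarith
    linarith
  have hall : ∀ i ≤ k + n, β (x (k + n - i)) = 0 := by
    intro i
    induction i with
    | zero => intro _; rw [Nat.sub_zero, hx]; exact hk0
    | succ i ih =>
      intro hi
      have h1 := ih (by omega)
      have h2 := hrelx (k + n - (i + 1)) (by omega)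
      rw [show k + n - (i + 1) + 1 = k + n - i by omega, h1, mul_zero] at h2
      rcases mul_eq_zero.mp h2 with h3 | h3
      · exact absurd h3 hd0
      · exact h3
  intro s hs
  obtain ⟨j, hj, rfl⟩ := Finset.mem_image.mp hs
  have h1 := hall (k + n - j) (by omega)
  rwa [show k + n - (k + n - j) = j by
    have := Finset.mem_range.mp hj
    omega] at h1

/-- front decomposition -/
theorem XX_front {d : ℕ} (v0 v : E d) (n : ℕ) (z : ℂ) :
    XX v0 v (n + 1) z = XX v0 v n (gg (pol v0.1) (pol v0.2) z) +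
      trD v0 n (gg (pol v0.1) (pol v0.2) z) * xi v0 v z := by
  induction n with
  | zero => simp [XX, it, trD]
  | succ n ih =>
    have e1 : XX v0 v (n + 1 + 1) z = xi v0 v (it v0 (n + 1) z) +
        wv v0 (it v0 (n + 1) z) / ev v0.2 (it v0 (n + 1) z) ^ 2 * XX v0 v (n + 1) z := rfl
    have e2 : XX v0 v (n + 1) (gg (pol v0.1) (pol v0.2) z) =
        xi v0 v (it v0 n (gg (pol v0.1) (pol v0.2) z)) +
        wv v0 (it v0 n (gg (pol v0.1) (pol v0.2) z)) /
          ev v0.2 (it v0 n (gg (pol v0.1) (pol v0.2) z)) ^ 2 *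
          XX v0 v n (gg (pol v0.1) (pol v0.2) z) := rfl
    rw [e1, e2, ih, it_front, trD_succ]
    have e3 : dg (pol v0.1) (pol v0.2) (it v0 n (gg (pol v0.1) (pol v0.2) z)) =
        wv v0 (it v0 n (gg (pol v0.1) (pol v0.2) z)) /
          ev v0.2 (it v0 n (gg (pol v0.1) (pol v0.2) z)) ^ 2 := by
      rw [wv_pol, ev_pol]
      rfl
    rw [e3]
    ring

end Pool.Agent.H61.TT
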