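import Pool.Agent.H61.TT.Orbit

set_option autoImplicit false

open Filter Topology Polynomial Metric Set MeasureTheory

namespace Pool.Agent.H61.TT

open Pool.Agent.H44.Fatou Pool.Agent.H32.BT Pool.Agent.H79.Eul Pool.Agent.H79.Par

/-
PROOF. For s in the cycle: it n s = s, ‖trD n s‖ = 1 (trD_rot along the orbit). M s = ∏_(i ∈ range n) ‖trD (i+1) s‖ > 0
(all the dg (x j) are nonzero because trD n (x 0) ≠ 0). By trD_front, M (g s) * ‖dg s‖^n = ∏_(i<n) ‖trD (i+2) s‖ =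
M s * ‖trD (n+1) s‖ / ‖trD 1 s‖ = M s, since trD (n+1) s = trD n (g s) dg s has norm ‖dg s‖ = ‖trD 1 s‖. Take
K s = (M s)^(-1/n) (Real.rpow): K (g s) = (M s / ‖dg s‖^n)^(-1/n) = K s * ‖dg s‖.
-/

theorem trD_zero_of_zero {d : ℕ} {v0 : E d} {s : ℂ} {m : ℕ} (h : trD v0 m s = 0) :
    ∀ n : ℕ, m ≤ n → trD v0 n s = 0 := by
  intro n hn
  induction n, hn using Nat.le_induction with
  | base => exact h
  | succ n _ ih => rw [trD_succ, ih, mul_zero]

theorem exists_K {d : ℕ} {v0 : E d} {x : ℕ → ℂ} {n : ℕ} (hn : 0 < n) (hx : x n = x 0)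
    (ho : Orb v0 x n) (hmul : ‖trD v0 n (x 0)‖ = 1) :
    ∃ K : ℂ → ℝ, ∀ s ∈ (Finset.range n).image x, 0 < K s ∧
      K (gg (pol v0.1) (pol v0.2) s) = K s * ‖dg (pol v0.1) (pol v0.2) s‖ := by
  have key : ∀ j ≤ n, it v0 n (x j) = x j ∧ ‖trD v0 n (x j)‖ = 1 := by
    intro j
    induction j with
    | zero =>
      intro _
      exact ⟨by rw [orb_it ho le_rfl, hx], hmul⟩
    | succ j ih =>
      intro hj
      obtain ⟨h1, h2⟩ := ih (by omega)
      have h3 := (orb_gg ho (show j < n by omega)).2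
      rw [← h3]
      constructor
      · rw [← it_front, it_succ, h1]
      · rw [trD_rot v0 hn h1]
        exact h2
  set M : ℂ → ℝ := fun s => ∏ i ∈ Finset.range n, ‖trD v0 (i + 1) s‖ with hM
  refine ⟨fun s => (M s) ^ (-(1 / (n : ℝ))), ?_⟩
  intro s hs
  obtain ⟨j, hj, rfl⟩ := Finset.mem_image.1 hs
  have hj' := Finset.mem_range.1 hj
  set s := x j with hsj
  set g := gg (pol v0.1) (pol v0.2) s with hg
  obtain ⟨h1, h2⟩ := key j hj'.le
  have h3 : g = x (j + 1) := (orb_gg ho hj').2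
  obtain ⟨h4, h5⟩ := key (j + 1) hj'
  rw [← h3] at h4 h5
  have hne : ∀ t : ℂ, ‖trD v0 n t‖ = 1 → ∀ i < n, 0 < ‖trD v0 (i + 1) t‖ := by
    intro t ht i hi
    rw [norm_pos_iff]
    intro h0
    rw [trD_zero_of_zero h0 n hi, norm_zero] at ht
    exact zero_ne_one ht
  have hMpos : ∀ t : ℂ, ‖trD v0 n t‖ = 1 → 0 < M t := by
    intro t ht
    exact Finset.prod_pos fun i hi => hne t ht i (Finset.mem_range.1 hi)
  have hMs : 0 < M s := hMpos s h2
  have hMg : 0 < M g := hMpos g h5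
  have ht1 : trD v0 1 s = dg (pol v0.1) (pol v0.2) s := by
    rw [trD_succ]
    simp [trD, it]
  have hdg : 0 < ‖dg (pol v0.1) (pol v0.2) s‖ := by
    rw [← ht1]
    exact hne s h2 0 hn
  have hrel : M g * ‖dg (pol v0.1) (pol v0.2) s‖ ^ n = M s := by
    have e1 : M g * ‖dg (pol v0.1) (pol v0.2) s‖ ^ n =
        ∏ i ∈ Finset.range n, ‖trD v0 (i + 2) s‖ := by
      have e0 : ‖dg (pol v0.1) (pol v0.2) s‖ ^ n =
          ∏ _i ∈ Finset.range n, ‖dg (pol v0.1) (pol v0.2) s‖ := by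
        rw [Finset.prod_const, Finset.card_range]
      rw [e0, hM]
      simp only
      rw [← Finset.prod_mul_distrib]
      apply Finset.prod_congr rfl
      intro i _
      rw [trD_front v0 (i + 1) s, norm_mul]
    have e2 : (∏ i ∈ Finset.range n, ‖trD v0 (i + 2) s‖) * ‖trD v0 1 s‖ =
        M s * ‖trD v0 (n + 1) s‖ := by
      have e3 := Finset.prod_range_succ (fun i => ‖trD v0 (i + 1) s‖) n
      have e4 := Finset.prod_range_succ' (fun i => ‖trD v0 (i + 1) s‖) n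
      rw [e3] at e4
      exact e4.symm
    have e5 : ‖trD v0 (n + 1) s‖ = ‖dg (pol v0.1) (pol v0.2) s‖ := by
      rw [trD_front, norm_mul, ← hg, h5, one_mul]
    rw [e5, ht1] at e2
    rw [e1]
    exact mul_right_cancel₀ hdg.ne' e2
  constructor
  · exact Real.rpow_pos_of_pos hMs _
  · show (M g) ^ (-(1 / (n : ℝ))) = (M s) ^ (-(1 / (n : ℝ))) * ‖dg (pol v0.1) (pol v0.2) s‖
    have hn' : (n : ℝ) ≠ 0 := by exact_mod_cast hn.ne'
    rw [← hrel, Real.mul_rpow hMg.le (by positivity), ← Real.rpow_natCast,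
      ← Real.rpow_mul hdg.le]
    have e6 : (n : ℝ) * -(1 / (n : ℝ)) = -1 := by field_simp
    rw [e6, Real.rpow_neg_one, mul_assoc, inv_mul_cancel₀ hdg.ne', mul_one]

/-- the orbit is forward invariant -/
theorem cyc_inv {d : ℕ} {v0 : E d} {x : ℕ → ℂ} {k n : ℕ} (hn : 0 < n) (hx : x (k + n) = x k)
    (ho : Orb v0 x (k + n)) : ∀ s ∈ (Finset.range (k + n)).image x,
      (pol v0.2).eval s ≠ 0 ∧
        gg (pol v0.1) (pol v0.2) s ∈ (Finset.range (k + n)).image x := by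
  intro s hs
  obtain ⟨j, hj, rfl⟩ := Finset.mem_image.1 hs
  have hj' := Finset.mem_range.1 hj
  obtain ⟨h1, h2⟩ := orb_gg ho hj'
  refine ⟨h1, ?_⟩
  rw [h2, Finset.mem_image]
  by_cases h : j + 1 < k + n
  · exact ⟨j + 1, Finset.mem_range.2 h, rfl⟩
  · have h3 : j + 1 = k + n := by omega
    exact ⟨k, Finset.mem_range.2 (by omega), by rw [h3, hx]⟩

end Pool.Agent.H61.TT
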