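import Pool.Agent.H61.TT.Lagr

set_option autoImplicit false

open Filter Topology Polynomial Metric Set MeasureTheory

namespace Pool.Agent.H61.TT

open Pool.Agent.H44.Fatou Pool.Agent.H32.BT Pool.Agent.H79.Eul Pool.Agent.H79.Par

variable {d : ℕ} {a b : Polynomial ℂ} {I : Finset ℕ} {p A B : ℕ → ℂ}

/-
PROOFS. LL_add, LL_sum, LL_mul, LL_congr: definition (deriv of sums, Filter.EventuallyEq.deriv_eq).
push_q: for y in the fibre of x, y ≠ p i (since gg (p i) ≠ x). With q x = LL (fun z => dg z / (x - z)):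
∑_y q y / dg y ^ 2 = LL (fun z => ∑_y dg z / ((y - z) * dg y ^ 2)) by linearity (all functions are
differentiable at the points p i) = LL (fun z => 1/(x - gg z) + η z / b z ^ 2) by lagr (the identity holds
in a neighbourhood of each p i) = LL (fun z => 1 / (x - gg z)) + 0 = LL (fun z => dg z * (1/(x - z))) by
Inv with V = fun w => 1/(x - w) (differentiable at p i and gg (p i) as both are ≠ x).
q_eq: derivative of dg z / (x - z) at p i is dg'(p i)/(x - p i) + dg (p i)/(x - p i)^2.
q_sum1: Inv with V = 1 and η = b^2 (degree ≤ 2 d): 0 = LL (fun _ => 1) = LL dg. (LL of fun z => b z^2/b z^2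
equals LL of 1 as b ≠ 0 near p i.) q_sum2: Inv with V = id and η = a b: LL gg = LL (fun z => dg z * z).
-/

theorem LL_congr {V W : ℂ → ℂ} (h : ∀ i ∈ I, V =ᶠ[𝓝 (p i)] W) : LL I p A B V = LL I p A B W := by
  unfold LL
  refine Finset.sum_congr rfl fun i hi => ?_
  rw [(h i hi).deriv_eq, (h i hi).self_of_nhds]

theorem LL_add {V W : ℂ → ℂ} (hV : ∀ i ∈ I, DifferentiableAt ℂ V (p i))
    (hW : ∀ i ∈ I, DifferentiableAt ℂ W (p i)) :
    LL I p A B (fun z => V z + W z) = LL I p A B V + LL I p A B W := by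
  unfold LL
  rw [← Finset.sum_add_distrib]
  refine Finset.sum_congr rfl fun i hi => ?_
  rw [deriv_fun_add (hV i hi) (hW i hi)]
  ring

theorem LL_sum {ι : Type*} {J : Finset ι} {V : ι → ℂ → ℂ} {c : ι → ℂ}
    (hV : ∀ j ∈ J, ∀ i ∈ I, DifferentiableAt ℂ (V j) (p i)) :
    LL I p A B (fun z => ∑ j ∈ J, V j z * c j) = ∑ j ∈ J, LL I p A B (V j) * c j := by
  unfold LL
  have h1 : ∀ i ∈ I, A i * deriv (fun z => ∑ j ∈ J, V j z * c j) (p i) +
      B i * ∑ j ∈ J, V j (p i) * c j =
      ∑ j ∈ J, (A i * deriv (V j) (p i) + B i * V j (p i)) * c j := by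
    intro i hi
    rw [deriv_fun_sum (fun j hj => (hV j hj i hi).mul_const (c j)), Finset.mul_sum,
      Finset.mul_sum, ← Finset.sum_add_distrib]
    refine Finset.sum_congr rfl fun j hj => ?_
    rw [deriv_mul_const (hV j hj i hi)]
    ring
  rw [Finset.sum_congr rfl h1, Finset.sum_comm]
  refine Finset.sum_congr rfl fun j _ => ?_
  rw [Finset.sum_mul]

theorem push_q (h : RatD d a b) (hb : ∀ i ∈ I, b.eval (p i) ≠ 0) (hinv : Inv a b I p A B)
    (hη : ∀ η : Polynomial ℂ, η.natDegree ≤ 2 * d →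
      LL I p A B (fun z => η.eval z / b.eval z ^ 2) = 0) {x : ℂ} (hx : RegV d a b x)
    (hx1 : ∀ i ∈ I, p i ≠ x) (hx2 : ∀ i ∈ I, gg a b (p i) ≠ x) :
    LL I p A B (fun z => dg a b z / (x - z)) =
      ∑ y ∈ fs a b x, LL I p A B (fun z => dg a b z / (y - z)) / dg a b y ^ 2 := by
  have hg : ∀ i ∈ I, DifferentiableAt ℂ (gg a b) (p i) := fun i hi =>
    (hasDerivAt_gg (hb i hi)).differentiableAt
  have hdg : ∀ i ∈ I, DifferentiableAt ℂ (dg a b) (p i) := fun i hi =>
    differentiableAt_dg (hb i hi)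
  -- the left side
  have h1 := hinv (fun w => 1 / (x - w)) (fun i hi => by
    refine ⟨?_, ?_⟩
    · exact (differentiableAt_const 1).div ((differentiableAt_const x).sub differentiableAt_id)
        (sub_ne_zero.2 (hx1 i hi).symm)
    · exact (differentiableAt_const 1).div ((differentiableAt_const x).sub differentiableAt_id)
        (sub_ne_zero.2 (hx2 i hi).symm))
  have h2 : LL I p A B (fun z => dg a b z / (x - z)) =
      LL I p A B (fun z => 1 / (x - gg a b z)) := by
    rw [h1]
    refine LL_congr fun i _ => Eventually.of_forall fun z => ?_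
    show dg a b z / (x - z) = dg a b z * (1 / (x - z))
    rw [mul_one_div]
  -- the right side
  have hyp : ∀ y ∈ fs a b x, ∀ i ∈ I, y ≠ p i := by
    intro y hy i hi he
    have h3 := ((mem_fs h x y).1 hy).2
    rw [he] at h3
    exact hx2 i hi h3
  have h3 : ∑ y ∈ fs a b x, LL I p A B (fun z => dg a b z / (y - z)) / dg a b y ^ 2 =
      LL I p A B (fun z => ∑ y ∈ fs a b x, dg a b z / (y - z) * (1 / dg a b y ^ 2)) := by
    rw [LL_sum (V := fun y z => dg a b z / (y - z)) (c := fun y => 1 / dg a b y ^ 2)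
      (fun y hy i hi => (hdg i hi).div ((differentiableAt_const y).sub differentiableAt_id)
        (sub_ne_zero.2 (hyp y hy i hi)))]
    refine Finset.sum_congr rfl fun y _ => ?_
    rw [mul_one_div]
  obtain ⟨η, hηd, hηe⟩ := lagr h hx
  have h4 : LL I p A B (fun z => ∑ y ∈ fs a b x, dg a b z / (y - z) * (1 / dg a b y ^ 2)) =
      LL I p A B (fun z => 1 / (x - gg a b z) + η.eval z / b.eval z ^ 2) := by
    refine LL_congr fun i hi => ?_
    have e1 : ∀ᶠ z in 𝓝 (p i), b.eval z ≠ 0 :=
      b.continuous.continuousAt.eventually_ne (hb i hi)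
    have e2 : ∀ᶠ z in 𝓝 (p i), gg a b z ≠ x :=
      (hg i hi).continuousAt.eventually_ne (hx2 i hi)
    filter_upwards [e1, e2] with z hz1 hz2
    rw [← hηe z hz1 hz2]
    refine Finset.sum_congr rfl fun y _ => ?_
    rw [div_mul_div_comm, mul_one]
  have hbd : ∀ i ∈ I, DifferentiableAt ℂ (fun z => η.eval z / b.eval z ^ 2) (p i) := by
    intro i hi
    exact η.differentiable.differentiableAt.div (b.differentiable.differentiableAt.pow 2)
      (pow_ne_zero 2 (hb i hi))
  have hgd : ∀ i ∈ I, DifferentiableAt ℂ (fun z => 1 / (x - gg a b z)) (p i) := by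
    intro i hi
    exact (differentiableAt_const 1).div ((differentiableAt_const x).sub (hg i hi))
      (sub_ne_zero.2 (hx2 i hi).symm)
  rw [h2, h3, h4, LL_add hgd hbd, hη η hηd, add_zero]

theorem q_eq (hb : ∀ i ∈ I, b.eval (p i) ≠ 0) {x : ℂ} (hx1 : ∀ i ∈ I, p i ≠ x) :
    LL I p A B (fun z => dg a b z / (x - z)) =
      ∑ i ∈ I, (A i * dg a b (p i) / (x - p i) ^ 2 +
        (A i * deriv (dg a b) (p i) + B i * dg a b (p i)) / (x - p i)) := by
  unfold LL
  refine Finset.sum_congr rfl fun i hi => ?_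
  have hne : x - p i ≠ 0 := sub_ne_zero.2 (hx1 i hi).symm
  have h1 : HasDerivAt (fun z => dg a b z / (x - z))
      ((deriv (dg a b) (p i) * (x - p i) - dg a b (p i) * (-1)) / (x - p i) ^ 2) (p i) :=
    (differentiableAt_dg (hb i hi)).hasDerivAt.div ((hasDerivAt_id (p i)).const_sub x) hne
  rw [h1.deriv]
  field_simp
  ring

theorem q_sum1 (h : RatD d a b) (hb : ∀ i ∈ I, b.eval (p i) ≠ 0) (hinv : Inv a b I p A B)
    (hη : ∀ η : Polynomial ℂ, η.natDegree ≤ 2 * d →
      LL I p A B (fun z => η.eval z / b.eval z ^ 2) = 0) :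
    ∑ i ∈ I, (A i * deriv (dg a b) (p i) + B i * dg a b (p i)) = 0 := by
  have h1 := hinv (fun _ => 1) (fun i _ => ⟨differentiableAt_const _, differentiableAt_const _⟩)
  have hd1 : (b ^ 2).natDegree ≤ 2 * d := by
    refine natDegree_pow_le.trans ?_
    have : b.natDegree ≤ d := by
      rw [← h.deg]
      exact le_max_right _ _
    omega
  have h2 := hη (b ^ 2) hd1
  have h3 : LL I p A B (fun z => (b ^ 2).eval z / b.eval z ^ 2) = LL I p A B (fun _ => 1) := by
    refine LL_congr fun i hi => ?_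
    have e1 : ∀ᶠ z in 𝓝 (p i), b.eval z ≠ 0 :=
      b.continuous.continuousAt.eventually_ne (hb i hi)
    filter_upwards [e1] with z hz
    rw [eval_pow, div_self (pow_ne_zero 2 hz)]
  have h4 : LL I p A B (fun z => dg a b z * 1) =
      ∑ i ∈ I, (A i * deriv (dg a b) (p i) + B i * dg a b (p i)) := by
    simp only [mul_one]
    rfl
  rw [← h4, ← h1, ← h3, h2]

theorem q_sum2 (h : RatD d a b) (hb : ∀ i ∈ I, b.eval (p i) ≠ 0) (hinv : Inv a b I p A B)
    (hη : ∀ η : Polynomial ℂ, η.natDegree ≤ 2 * d →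
      LL I p A B (fun z => η.eval z / b.eval z ^ 2) = 0) :
    ∑ i ∈ I, (A i * dg a b (p i) +
      p i * (A i * deriv (dg a b) (p i) + B i * dg a b (p i))) = 0 := by
  have h1 := hinv (fun z => z) (fun i _ => ⟨differentiableAt_id, differentiableAt_id⟩)
  have hd1 : (a * b).natDegree ≤ 2 * d := by
    refine natDegree_mul_le.trans ?_
    have h3 : b.natDegree ≤ d := by
      rw [← h.deg]
      exact le_max_right _ _
    have h4 : a.natDegree ≤ d := by
      rw [← h.deg]
      exact le_max_left _ _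
    omega
  have h2 := hη (a * b) hd1
  have h3 : LL I p A B (fun z => (a * b).eval z / b.eval z ^ 2) =
      LL I p A B (fun z => gg a b z) := by
    refine LL_congr fun i hi => ?_
    have e1 : ∀ᶠ z in 𝓝 (p i), b.eval z ≠ 0 :=
      b.continuous.continuousAt.eventually_ne (hb i hi)
    filter_upwards [e1] with z hz
    unfold gg
    rw [eval_mul]
    field_simp
  have h4 : LL I p A B (fun z => dg a b z * z) =
      ∑ i ∈ I, (A i * dg a b (p i) +
        p i * (A i * deriv (dg a b) (p i) + B i * dg a b (p i))) := by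
    unfold LL
    refine Finset.sum_congr rfl fun i hi => ?_
    have h5 : HasDerivAt (fun z => dg a b z * z)
        (deriv (dg a b) (p i) * p i + dg a b (p i) * 1) (p i) :=
      (differentiableAt_dg (hb i hi)).hasDerivAt.mul (hasDerivAt_id (p i))
    rw [h5.deriv]
    ring
  rw [← h4, ← h1, ← h3, h2]

end Pool.Agent.H61.TT
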