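import Pool.Agent.H61.TT.Fib

set_option autoImplicit false

open Filter Topology Polynomial Metric Set MeasureTheory

namespace Pool.Agent.H61.TT

open Pool.Agent.H44.Fatou Pool.Agent.H32.BT Pool.Agent.H79.Eul Pool.Agent.H79.Par

variable {S : Finset ℂ} {α β : ℂ → ℂ}

/-
PROOFS. qf_decay: α/(z-s)^2 = α/z^2 + O(|z|^-3), β/(z-s) = β/z + β s/z^2 + O(|z|^-3) for |z| ≥ 2 |s| + 1
(exact: 1/(z-s) - 1/z - s/z^2 = s^2/(z^2 (z-s)), 1/(z-s)^2 - 1/z^2 = (2 s z - s^2)/(z^2 (z-s)^2)); sum over s,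
s1 and s2 kill the first two terms. qf_near: the terms of the other points are bounded near s.
qf_lim2, qf_lim1: multiply by (z-s)^2, resp. (z-s).
qf_zero: off S, qf z = U(z)/∏(z-s)^2 with U a polynomial; U ≠ 0: else qf = 0 off S and the limits give
α s = 0 for all s in S (qf_lim2), then (with α = 0 on S) β s = 0 (qf_lim1).
-/

theorem qf_meas : Measurable (qf S α β) := by
  unfold qf
  refine Finset.measurable_fun_sum _ fun s _ => ?_
  exact (measurable_const.div ((measurable_id.sub_const s).pow_const 2)).add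
    (measurable_const.div (measurable_id.sub_const s))

theorem qf_diff {z : ℂ} (hz : z ∉ S) : DifferentiableAt ℂ (qf S α β) z := by
  unfold qf
  refine DifferentiableAt.fun_sum fun s hs => ?_
  have h : z - s ≠ 0 := sub_ne_zero.2 fun h => hz (h ▸ hs)
  have h1 : DifferentiableAt ℂ (fun z : ℂ => z - s) z := differentiableAt_id.sub_const s
  exact ((differentiableAt_const _).div (h1.pow 2) (pow_ne_zero 2 h)).add
    ((differentiableAt_const _).div h1 h)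

theorem qf_term_bound (s a b z : ℂ) (hz : 2 * ‖s‖ + 1 ≤ ‖z‖) :
    ‖(a / (z - s) ^ 2 + b / (z - s)) - (b / z + (a + s * b) / z ^ 2)‖ ≤
      (12 * ‖a‖ * ‖s‖ + 2 * ‖b‖ * ‖s‖ ^ 2) / ‖z‖ ^ 3 := by
  have hz0 : 0 < ‖z‖ := by have := norm_nonneg s; linarith
  have hzne : z ≠ 0 := norm_pos_iff.1 hz0
  have hzs : ‖z‖ / 2 ≤ ‖z - s‖ := by
    have := norm_sub_norm_le z s
    linarith
  have hzs0 : 0 < ‖z - s‖ := by linarith
  have hne : z - s ≠ 0 := norm_pos_iff.1 hzs0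
  have hsz : ‖s‖ ≤ ‖z‖ := by have := norm_nonneg s; linarith
  have e : (a / (z - s) ^ 2 + b / (z - s)) - (b / z + (a + s * b) / z ^ 2)
      = a * (2 * s * z - s ^ 2) / (z ^ 2 * (z - s) ^ 2) + b * s ^ 2 / (z ^ 2 * (z - s)) := by
    field_simp
    ring
  rw [e]
  have b1 : ‖a * (2 * s * z - s ^ 2) / (z ^ 2 * (z - s) ^ 2)‖ ≤ 12 * ‖a‖ * ‖s‖ / ‖z‖ ^ 3 := by
    rw [norm_div, norm_mul, norm_mul, norm_pow, norm_pow]
    have n1 : ‖2 * s * z - s ^ 2‖ ≤ 3 * ‖s‖ * ‖z‖ := by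
      calc ‖2 * s * z - s ^ 2‖ ≤ ‖2 * s * z‖ + ‖s ^ 2‖ := norm_sub_le _ _
        _ = 2 * ‖s‖ * ‖z‖ + ‖s‖ * ‖s‖ := by
          rw [norm_mul, norm_mul, norm_pow]; simp; ring
        _ ≤ 2 * ‖s‖ * ‖z‖ + ‖s‖ * ‖z‖ := by gcongr
        _ = 3 * ‖s‖ * ‖z‖ := by ring
    rw [div_le_div_iff₀ (by positivity) (by positivity)]
    have n2 : ‖z‖ ^ 2 ≤ 4 * ‖z - s‖ ^ 2 := by
      nlinarith [norm_nonneg z, norm_nonneg (z - s)]
    calc ‖a‖ * ‖2 * s * z - s ^ 2‖ * ‖z‖ ^ 3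
        ≤ ‖a‖ * (3 * ‖s‖ * ‖z‖) * ‖z‖ ^ 3 := by gcongr
      _ = 3 * ‖a‖ * ‖s‖ * ‖z‖ ^ 2 * ‖z‖ ^ 2 := by ring
      _ ≤ 3 * ‖a‖ * ‖s‖ * ‖z‖ ^ 2 * (4 * ‖z - s‖ ^ 2) := by gcongr
      _ = 12 * ‖a‖ * ‖s‖ * (‖z‖ ^ 2 * ‖z - s‖ ^ 2) := by ring
  have b2 : ‖b * s ^ 2 / (z ^ 2 * (z - s))‖ ≤ 2 * ‖b‖ * ‖s‖ ^ 2 / ‖z‖ ^ 3 := by
    rw [norm_div, norm_mul, norm_mul, norm_pow, norm_pow]
    rw [div_le_div_iff₀ (by positivity) (by positivity)]
    calc ‖b‖ * ‖s‖ ^ 2 * ‖z‖ ^ 3 = ‖b‖ * ‖s‖ ^ 2 * ‖z‖ ^ 2 * ‖z‖ := by ring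
      _ ≤ ‖b‖ * ‖s‖ ^ 2 * ‖z‖ ^ 2 * (2 * ‖z - s‖) := by
        gcongr
        linarith
      _ = 2 * ‖b‖ * ‖s‖ ^ 2 * (‖z‖ ^ 2 * ‖z - s‖) := by ring
  calc _ ≤ _ := norm_add_le _ _
    _ ≤ 12 * ‖a‖ * ‖s‖ / ‖z‖ ^ 3 + 2 * ‖b‖ * ‖s‖ ^ 2 / ‖z‖ ^ 3 := add_le_add b1 b2
    _ = _ := by rw [← add_div]

theorem qf_decay (h1 : ∑ s ∈ S, β s = 0) (h2 : ∑ s ∈ S, (α s + s * β s) = 0) :
    ∃ c R : ℝ, 0 ≤ c ∧ 1 ≤ R ∧ ∀ z : ℂ, R ≤ ‖z‖ → ‖qf S α β z‖ ≤ c / ‖z‖ ^ 3 := by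
  refine ⟨∑ s ∈ S, (12 * ‖α s‖ * ‖s‖ + 2 * ‖β s‖ * ‖s‖ ^ 2), 1 + ∑ s ∈ S, 2 * ‖s‖,
    Finset.sum_nonneg fun s _ => by positivity, ?_, ?_⟩
  · have : 0 ≤ ∑ s ∈ S, 2 * ‖s‖ := Finset.sum_nonneg fun s _ => by positivity
    linarith
  · intro z hz
    have e : qf S α β z = ∑ s ∈ S, ((α s / (z - s) ^ 2 + β s / (z - s))
        - (β s / z + (α s + s * β s) / z ^ 2)) := by
      rw [Finset.sum_sub_distrib, Finset.sum_add_distrib (f := fun s => β s / z),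
        ← Finset.sum_div, ← Finset.sum_div, h1, h2]
      simp [qf]
    rw [e, Finset.sum_div]
    refine (norm_sum_le _ _).trans (Finset.sum_le_sum fun s hs => ?_)
    apply qf_term_bound
    have : 2 * ‖s‖ ≤ ∑ s ∈ S, 2 * ‖s‖ :=
      Finset.single_le_sum (f := fun s : ℂ => 2 * ‖s‖) (fun s _ => by positivity) hs
    linarith

theorem qf_erase {s : ℂ} (hs : s ∈ S) (z : ℂ) :
    qf S α β z = α s / (z - s) ^ 2 + β s / (z - s) + qf (S.erase s) α β z := by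
  unfold qf
  rw [← Finset.add_sum_erase S _ hs]

theorem qf_rest (s : ℂ) : ∃ M r : ℝ, 0 ≤ M ∧ 0 < r ∧ r ≤ 1 ∧
    ∀ z : ℂ, ‖z - s‖ < r → ‖qf (S.erase s) α β z‖ ≤ M := by
  have hc : ContinuousAt (qf (S.erase s) α β) s :=
    (qf_diff (Finset.notMem_erase s S)).continuousAt
  obtain ⟨r, hr, h⟩ := Metric.continuousAt_iff.1 hc 1 one_pos
  refine ⟨‖qf (S.erase s) α β s‖ + 1, min r 1, by positivity, lt_min hr one_pos,
    min_le_right _ _, fun z hz => ?_⟩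
  have h3 := h (x := z) (by rw [dist_eq_norm]; exact hz.trans_le (min_le_left _ _))
  rw [dist_eq_norm] at h3
  have := norm_le_norm_add_norm_sub' (qf (S.erase s) α β z) (qf (S.erase s) α β s)
  linarith

theorem qf_near {s : ℂ} (hs : s ∈ S) : ∃ c r : ℝ, 0 ≤ c ∧ 0 < r ∧
    ∀ z : ℂ, z ≠ s → ‖z - s‖ < r → ‖qf S α β z‖ ≤ c / ‖z - s‖ ^ 2 := by
  obtain ⟨M, r, hM, hr, hr1, h⟩ := qf_rest (S := S) (α := α) (β := β) s
  refine ⟨‖α s‖ + ‖β s‖ + M, r, by positivity, hr, fun z hz hzr => ?_⟩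
  rw [qf_erase hs]
  have h0 : 0 < ‖z - s‖ := norm_pos_iff.2 (sub_ne_zero.2 hz)
  have h1 : ‖z - s‖ ≤ 1 := hzr.le.trans hr1
  have h2 : ‖z - s‖ ^ 2 ≤ 1 := by nlinarith
  have e1 : ‖β s / (z - s)‖ ≤ ‖β s‖ / ‖z - s‖ ^ 2 := by
    rw [norm_div]
    apply div_le_div_of_nonneg_left (norm_nonneg _) (by positivity)
    nlinarith
  have e2 : M ≤ M / ‖z - s‖ ^ 2 := by
    rw [le_div_iff₀ (by positivity)]; nlinarith
  calc _ ≤ ‖α s / (z - s) ^ 2 + β s / (z - s)‖ + ‖qf (S.erase s) α β z‖ := norm_add_le _ _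
    _ ≤ (‖α s / (z - s) ^ 2‖ + ‖β s / (z - s)‖) + M := add_le_add (norm_add_le _ _) (h z hzr)
    _ ≤ (‖α s‖ / ‖z - s‖ ^ 2 + ‖β s‖ / ‖z - s‖ ^ 2) + M / ‖z - s‖ ^ 2 := by
        rw [norm_div, norm_pow]
        gcongr
    _ = _ := by ring

theorem qf_near1 (hα : ∀ s ∈ S, α s = 0) {s : ℂ} (hs : s ∈ S) : ∃ c r : ℝ, 0 ≤ c ∧ 0 < r ∧
    ∀ z : ℂ, z ≠ s → ‖z - s‖ < r → ‖qf S α β z‖ ≤ c / ‖z - s‖ := by
  obtain ⟨M, r, hM, hr, hr1, h⟩ := qf_rest (S := S) (α := α) (β := β) s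
  refine ⟨‖β s‖ + M, r, by positivity, hr, fun z hz hzr => ?_⟩
  rw [qf_erase hs, hα s hs, zero_div, zero_add]
  have h0 : 0 < ‖z - s‖ := norm_pos_iff.2 (sub_ne_zero.2 hz)
  have h1 : ‖z - s‖ ≤ 1 := hzr.le.trans hr1
  have e2 : M ≤ M / ‖z - s‖ := by
    rw [le_div_iff₀ h0]; nlinarith
  calc _ ≤ ‖β s / (z - s)‖ + ‖qf (S.erase s) α β z‖ := norm_add_le _ _
    _ ≤ ‖β s‖ / ‖z - s‖ + M / ‖z - s‖ := by
        rw [norm_div]
        exact add_le_add le_rfl ((h z hzr).trans e2)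
    _ = _ := by ring

theorem qf_lim2 {s : ℂ} (hs : s ∈ S) :
    Tendsto (fun z => (z - s) ^ 2 * qf S α β z) (𝓝[≠] s) (𝓝 (α s)) := by
  have hc : ContinuousAt (qf (S.erase s) α β) s :=
    (qf_diff (Finset.notMem_erase s S)).continuousAt
  have h1 : ContinuousAt (fun z => α s + β s * (z - s)
      + (z - s) ^ 2 * qf (S.erase s) α β z) s := by
    have h2 : ContinuousAt (fun z : ℂ => z - s) s := continuousAt_id.sub continuousAt_const
    exact (continuousAt_const.add (continuousAt_const.mul h2)).add ((h2.pow 2).mul hc)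
  have h3 : Tendsto (fun z => α s + β s * (z - s)
      + (z - s) ^ 2 * qf (S.erase s) α β z) (𝓝[≠] s) (𝓝 (α s)) := by
    have := h1.tendsto.mono_left (nhdsWithin_le_nhds (s := {s}ᶜ))
    simpa using this
  refine h3.congr' ?_
  filter_upwards [self_mem_nhdsWithin] with z hz
  have hne : z - s ≠ 0 := sub_ne_zero.2 hz
  rw [qf_erase hs]
  field_simp

theorem qf_lim1 (hα : ∀ s ∈ S, α s = 0) {s : ℂ} (hs : s ∈ S) :
    Tendsto (fun z => (z - s) * qf S α β z) (𝓝[≠] s) (𝓝 (β s)) := by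
  have hc : ContinuousAt (qf (S.erase s) α β) s :=
    (qf_diff (Finset.notMem_erase s S)).continuousAt
  have h1 : ContinuousAt (fun z => β s + (z - s) * qf (S.erase s) α β z) s := by
    have h2 : ContinuousAt (fun z : ℂ => z - s) s := continuousAt_id.sub continuousAt_const
    exact continuousAt_const.add (h2.mul hc)
  have h3 : Tendsto (fun z => β s + (z - s) * qf (S.erase s) α β z) (𝓝[≠] s) (𝓝 (β s)) := by
    have := h1.tendsto.mono_left (nhdsWithin_le_nhds (s := {s}ᶜ))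
    simpa using this
  refine h3.congr' ?_
  filter_upwards [self_mem_nhdsWithin] with z hz
  have hne : z - s ≠ 0 := sub_ne_zero.2 hz
  rw [qf_erase hs, hα s hs]
  field_simp
  ring

/-- the numerator of `qf` -/
noncomputable def qnum (S : Finset ℂ) (α β : ℂ → ℂ) : Polynomial ℂ :=
  ∑ s ∈ S, (C (α s) + C (β s) * (X - C s)) * ∏ t ∈ S.erase s, (X - C t) ^ 2

theorem qnum_eval {z : ℂ} (hz : z ∉ S) :
    (qnum S α β).eval z = qf S α β z * ∏ t ∈ S, (z - t) ^ 2 := by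
  unfold qnum qf
  rw [eval_finsetSum, Finset.sum_mul]
  refine Finset.sum_congr rfl fun s hs => ?_
  have hne : z - s ≠ 0 := sub_ne_zero.2 fun h => hz (h ▸ hs)
  rw [← Finset.mul_prod_erase S _ hs, eval_mul, eval_prod]
  simp only [eval_add, eval_mul, eval_C, eval_sub, eval_X, eval_pow]
  field_simp

theorem qf_zero (h : ∃ s ∈ S, α s ≠ 0 ∨ β s ≠ 0) : {z | qf S α β z = 0}.Finite := by
  by_cases hU : qnum S α β = 0
  · exfalso
    have h0 : ∀ z ∉ S, qf S α β z = 0 := by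
      intro z hz
      have e := qnum_eval (α := α) (β := β) hz
      rw [hU, eval_zero] at e
      have hp : ∏ t ∈ S, (z - t) ^ 2 ≠ 0 := Finset.prod_ne_zero_iff.2 fun t ht =>
        pow_ne_zero 2 (sub_ne_zero.2 fun h => hz (h ▸ ht))
      exact (mul_eq_zero.1 e.symm).resolve_right hp
    have hev : ∀ s : ℂ, ∀ᶠ z in 𝓝[≠] s, qf S α β z = 0 := by
      intro s
      have h1 : ((S.erase s : Finset ℂ) : Set ℂ)ᶜ ∈ 𝓝 s :=
        (S.erase s).finite_toSet.isClosed.isOpen_compl.mem_nhds (by simp)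
      filter_upwards [self_mem_nhdsWithin, mem_nhdsWithin_of_mem_nhds h1] with z hz hz1
      apply h0
      intro hzS
      apply hz1
      exact Finset.mem_coe.2 (Finset.mem_erase.2 ⟨hz, hzS⟩)
    have hα : ∀ s ∈ S, α s = 0 := by
      intro s hs
      have l := qf_lim2 (α := α) (β := β) hs
      have l2 : Tendsto (fun z => (z - s) ^ 2 * qf S α β z) (𝓝[≠] s) (𝓝 0) := by
        refine tendsto_const_nhds.congr' ?_
        filter_upwards [hev s] with z hz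
        rw [hz, mul_zero]
      exact tendsto_nhds_unique l l2
    have hβ : ∀ s ∈ S, β s = 0 := by
      intro s hs
      have l := qf_lim1 (β := β) hα hs
      have l2 : Tendsto (fun z => (z - s) * qf S α β z) (𝓝[≠] s) (𝓝 0) := by
        refine tendsto_const_nhds.congr' ?_
        filter_upwards [hev s] with z hz
        rw [hz, mul_zero]
      exact tendsto_nhds_unique l l2
    obtain ⟨s, hs, h⟩ := h
    rcases h with h | h
    · exact h (hα s hs)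
    · exact h (hβ s hs)
  · refine ((S.finite_toSet).union ((qnum S α β).roots.toFinset.finite_toSet)).subset ?_
    intro z hz
    by_cases hzS : z ∈ S
    · exact Or.inl hzS
    · right
      have e := qnum_eval (α := α) (β := β) hzS
      rw [show qf S α β z = 0 from hz, zero_mul] at e
      simp only [Finset.mem_coe, Multiset.mem_toFinset]
      exact (mem_roots hU).2 e

end Pool.Agent.H61.TT
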