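import Pool.Agent.H61.TT.Equal

set_option autoImplicit false

open Filter Topology Polynomial Metric Set MeasureTheory

namespace Pool.Agent.H61.TT

open Pool.Agent.H44.Fatou Pool.Agent.H32.BT Pool.Agent.H79.Eul Pool.Agent.H79.Par

variable {d : ℕ} {a b : Polynomial ℂ}

/-
PROOF of real_const: open mapping (AnalyticOnNhd.is_constant_or_isOpen): the complement U of the finite set Z is open
and preconnected (Set.Countable.isPathConnected_compl_of_one_lt_rank), f is analytic on it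
(DifferentiableOn.analyticOnNhd), f is real a.e. on U, hence on all of U by continuity (a conull set is dense).
If f is not constant, f '' U is open and contained in the real line: impossible (U nonempty).
PROOF of rigid. Let f y = q y / (dg y ^ 2 * q (gg y)), Z = S ∪ {b = 0} ∪ {ww = 0} ∪ pre S ∪ pre {q = 0}, all
finite (pre_finite, hz, ww_ne, b_ne). f is differentiable off Z and real a.e. (f = c conj s / |s|^2), so f = t on Zᶜ.
For x regular with fs a b x ∩ Z = ∅, push and q x ≠ 0 (all but finitely many x: the x = gg y, y ∈ Z, and the rest are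
finite sets): q x = ∑_y q y/dg y^2 = ∑_y t q x = d t q x, so t = 1/d: d q y = dg y ^2 q (gg y) for y ∉ Z.
Both sides are continuous at every y with y ∉ S, b y ≠ 0, gg y ∉ S, and Zᶜ is dense: the identity holds there.
-/

theorem real_const {Z : Set ℂ} (hZ : Z.Finite) {f : ℂ → ℂ}
    (hf : ∀ z ∉ Z, DifferentiableAt ℂ f z) (hr : ∀ᵐ z : ℂ, z ∉ Z → (f z).im = 0) :
    ∃ t : ℂ, ∀ z ∉ Z, f z = t := by
  have hopen : IsOpen (Zᶜ : Set ℂ) := hZ.isClosed.isOpen_compl
  have hconn : IsPreconnected (Zᶜ : Set ℂ) := by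
    have hr2 : 1 < Module.rank ℝ ℂ := by
      rw [Complex.rank_real_complex]
      exact Cardinal.one_lt_two
    exact (hZ.countable.isPathConnected_compl_of_one_lt_rank hr2).isConnected.isPreconnected
  have hdiff : DifferentiableOn ℂ f Zᶜ := fun z hz => (hf z hz).differentiableWithinAt
  have hcont : ContinuousOn f Zᶜ := hdiff.continuousOn
  -- the imaginary part vanishes everywhere
  have him : ∀ z ∉ Z, (f z).im = 0 := by
    have hN : IsOpen (Zᶜ ∩ (fun z => (f z).im) ⁻¹' ({0}ᶜ : Set ℝ)) :=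
      (Complex.continuous_im.comp_continuousOn hcont).isOpen_inter_preimage hopen
        isOpen_compl_singleton
    have hN0 : volume (Zᶜ ∩ (fun z => (f z).im) ⁻¹' ({0}ᶜ : Set ℝ)) = 0 := by
      rw [ae_iff] at hr
      refine measure_mono_null ?_ hr
      rintro z ⟨h1, h2⟩
      simp only [Set.mem_setOf_eq]
      exact fun hh => h2 (hh h1)
    have hN1 := (hN.measure_eq_zero_iff (μ := (volume : Measure ℂ))).1 hN0
    intro z hz
    by_contra hne
    have : z ∈ (Zᶜ ∩ (fun z => (f z).im) ⁻¹' ({0}ᶜ : Set ℝ)) := ⟨hz, hne⟩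
    rw [hN1] at this
    exact this
  rcases (hdiff.analyticOnNhd hopen).is_constant_or_isOpen hconn with h | h
  · obtain ⟨w, hw⟩ := h
    exact ⟨w, fun z hz => hw z hz⟩
  · exfalso
    have h1 := h Zᶜ Subset.rfl hopen
    obtain ⟨z0, hz0⟩ : (Zᶜ : Set ℂ).Nonempty := (hZ.infinite_compl).nonempty
    have h2 : f z0 ∈ f '' Zᶜ := ⟨z0, hz0, rfl⟩
    obtain ⟨ε, hε, hball⟩ := Metric.isOpen_iff.1 h1 _ h2
    have h3 : f z0 + (⟨0, ε / 2⟩ : ℂ) ∈ f '' Zᶜ := by
      apply hball
      rw [Metric.mem_ball, dist_eq_norm, add_sub_cancel_left]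
      have h6 : (⟨0, ε / 2⟩ : ℂ) = ((ε / 2 : ℝ) : ℂ) * Complex.I := by
        apply Complex.ext <;> simp
      rw [h6, norm_mul, Complex.norm_I, mul_one, Complex.norm_real, Real.norm_eq_abs,
        abs_of_pos (by linarith)]
      linarith
    obtain ⟨z1, hz1, h4⟩ := h3
    have h5 := him z1 hz1
    rw [h4, Complex.add_im, him z0 hz0, zero_add] at h5
    simp only at h5
    linarith

theorem rigid (h : RatD d a b) {q : ℂ → ℂ} {S : Finset ℂ} (hqm : Measurable q)
    (hqd : ∀ z ∉ S, DifferentiableAt ℂ q z) (hz : {z | q z = 0}.Finite)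
    (hpush : {x | ¬ (q x = ∑ y ∈ fs a b x, q y / dg a b y ^ 2)}.Finite) {T : ℕ → Set ℂ}
    (hTm : ∀ k, MeasurableSet (T k)) (hTmono : Monotone T) (hTcov : ∀ z ∉ S, ∃ k, z ∈ T k)
    (hfin : ∀ k, ∫⁻ z in T k, ‖q z‖ₑ ≠ ⊤)
    (hsm : Tendsto (fun k => ∫⁻ y in pre a b (T k) \ T k, ‖q y‖ₑ) atTop (𝓝 0)) :
    ∀ y : ℂ, y ∉ S → b.eval y ≠ 0 → gg a b y ∉ S →
      (d : ℂ) * q y = dg a b y ^ 2 * q (gg a b y) := by
  classical
  have hy0 := equal_y h (equal_ae h hqm hpush hTm hTmono hTcov hfin hsm)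
  set Z : Set ℂ := ((((S : Set ℂ) ∪ {y | b.eval y = 0}) ∪ {y | (ww a b).eval y = 0}) ∪
    pre a b (S : Set ℂ)) ∪ pre a b {z | q z = 0} with hZdef
  have hroot : ∀ P : Polynomial ℂ, P ≠ 0 → {y | P.eval y = 0}.Finite := by
    intro P hP
    refine (P.roots.toFinset.finite_toSet).subset ?_
    intro y hy
    rw [Finset.mem_coe, Multiset.mem_toFinset, mem_roots hP]
    exact hy
  have hZ : Z.Finite :=
    ((((S.finite_toSet).union (hroot b (b_ne h))).union (hroot _ (ww_ne h))).union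
      (pre_finite h S.finite_toSet)).union (pre_finite h hz)
  have hZmem : ∀ y, y ∉ Z → y ∉ S ∧ b.eval y ≠ 0 ∧ (ww a b).eval y ≠ 0 ∧ gg a b y ∉ S ∧
      q (gg a b y) ≠ 0 := by
    intro y hy
    have hb : b.eval y ≠ 0 := fun hh => hy (Or.inl (Or.inl (Or.inl (Or.inr hh))))
    refine ⟨fun hh => hy (Or.inl (Or.inl (Or.inl (Or.inl hh)))), hb,
      fun hh => hy (Or.inl (Or.inl (Or.inr hh))), fun hh => hy (Or.inl (Or.inr ⟨hb, hh⟩)),
      fun hh => hy (Or.inr ⟨hb, hh⟩)⟩
  -- the quotient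
  set f : ℂ → ℂ := fun y => q y / (dg a b y ^ 2 * q (gg a b y)) with hf
  have hfd : ∀ z ∉ Z, DifferentiableAt ℂ f z := by
    intro z hzZ
    obtain ⟨h1, h2, h3, h4, h5⟩ := hZmem z hzZ
    have hg : DifferentiableAt ℂ (gg a b) z := (hasDerivAt_gg h2).differentiableAt
    have hqg : DifferentiableAt ℂ (fun y => q (gg a b y)) z :=
      DifferentiableAt.comp z (hqd _ h4) hg
    exact (hqd z h1).div (((differentiableAt_dg h2).pow 2).mul hqg)
      (mul_ne_zero (pow_ne_zero 2 ((dg_ne h2).2 h3)) h5)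
  have hfr : ∀ᵐ z : ℂ, z ∉ Z → (f z).im = 0 := by
    filter_upwards [hy0] with z hz1 hz2
    obtain ⟨h1, h2, h3, h4, h5⟩ := hZmem z hz2
    have h6 := hz1 h2
    have h7 : f z = (q z / dg a b z ^ 2 * (starRingEnd ℂ) (q (gg a b z))) /
        ((Complex.normSq (q (gg a b z)) : ℝ) : ℂ) := by
      rw [hf]
      have h8 : ((Complex.normSq (q (gg a b z)) : ℝ) : ℂ) =
          q (gg a b z) * (starRingEnd ℂ) (q (gg a b z)) := (Complex.mul_conj _).symm
      have h9 : (starRingEnd ℂ) (q (gg a b z)) ≠ 0 := by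
        rw [ne_eq, map_eq_zero]
        exact h5
      have h10 : dg a b z ≠ 0 := (dg_ne h2).2 h3
      rw [h8]
      field_simp
    rw [h7, Complex.div_ofReal_im, h6, zero_div]
  obtain ⟨t, ht⟩ := real_const hZ hfd hfr
  have hqt : ∀ y, y ∉ Z → q y / dg a b y ^ 2 = t * q (gg a b y) := by
    intro y hy
    obtain ⟨h1, h2, h3, h4, h5⟩ := hZmem y hy
    have h10 : dg a b y ≠ 0 := (dg_ne h2).2 h3
    rw [← ht y hy, hf]
    field_simp
  -- a good value
  have hfin2 : ({x | ¬ RegV d a b x} ∪ {x | ¬ (q x = ∑ y ∈ fs a b x, q y / dg a b y ^ 2)} ∪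
      {x | q x = 0} ∪ (gg a b) '' Z).Finite :=
    (((reg_finite h).union hpush).union hz).union (hZ.image _)
  obtain ⟨x, hx⟩ := hfin2.infinite_compl.nonempty
  simp only [Set.mem_compl_iff, Set.mem_union, Set.mem_setOf_eq, not_or, not_not] at hx
  obtain ⟨⟨⟨hx1, hx2⟩, hx3⟩, hx4⟩ := hx
  have hdt : (d : ℂ) * t = 1 := by
    have h1 : ∑ y ∈ fs a b x, q y / dg a b y ^ 2 = ∑ y ∈ fs a b x, t * q x := by
      refine Finset.sum_congr rfl fun y hy => ?_
      have h2 := (mem_fs h x y).1 hy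
      have h3 : y ∉ Z := fun hh => hx4 ⟨y, hh, h2.2⟩
      rw [hqt y h3, h2.2]
    rw [h1, Finset.sum_const, hx1.card, nsmul_eq_mul] at hx2
    have h4 : ((d : ℂ) * t - 1) * q x = 0 := by linear_combination -hx2
    rcases mul_eq_zero.1 h4 with h5 | h5
    · linear_combination h5
    · exact absurd h5 hx3
  have hid : ∀ y, y ∉ Z → (d : ℂ) * q y = dg a b y ^ 2 * q (gg a b y) := by
    intro y hy
    obtain ⟨h1, h2, h3, h4, h5⟩ := hZmem y hy
    have h10 : dg a b y ≠ 0 := (dg_ne h2).2 h3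
    have h6 := hqt y hy
    rw [div_eq_iff (pow_ne_zero 2 h10)] at h6
    rw [h6]
    linear_combination (q (gg a b y) * dg a b y ^ 2) * hdt
  intro y hyS hyb hyg
  have hg : ContinuousAt (gg a b) y := (hasDerivAt_gg hyb).continuousAt
  have hL : Tendsto (fun y => (d : ℂ) * q y) (𝓝[≠] y) (𝓝 ((d : ℂ) * q y)) :=
    ((hqd y hyS).continuousAt.tendsto.const_mul _).mono_left nhdsWithin_le_nhds
  have hR : Tendsto (fun y => dg a b y ^ 2 * q (gg a b y)) (𝓝[≠] y)
      (𝓝 (dg a b y ^ 2 * q (gg a b y))) := by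
    have h1 : ContinuousAt (fun y => q (gg a b y)) y :=
      ContinuousAt.comp (g := q) (f := gg a b) (hqd _ hyg).continuousAt hg
    exact ((((differentiableAt_dg hyb).continuousAt.pow 2).mul h1).tendsto).mono_left
      nhdsWithin_le_nhds
  have hev : (fun y => (d : ℂ) * q y) =ᶠ[𝓝[≠] y] (fun y => dg a b y ^ 2 * q (gg a b y)) := by
    have h1 : ∀ᶠ z in 𝓝[≠] y, z ∉ Z := by
      have h2 : (Z \ {y}).Finite := hZ.subset Set.diff_subset
      have h3 : (Z \ {y})ᶜ ∈ 𝓝 y := h2.isClosed.isOpen_compl.mem_nhds (fun hh => hh.2 rfl)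
      filter_upwards [mem_nhdsWithin_of_mem_nhds h3, self_mem_nhdsWithin] with z hz1 hz2
      exact fun hh => hz1 ⟨hh, hz2⟩
    filter_upwards [h1] with z hz1
    exact hid z hz1
  exact tendsto_nhds_unique_of_eventuallyEq hL hR hev

end Pool.Agent.H61.TT
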